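import Pool.Agent.H47.Oc.A1a

/-! # A1: local inequality

Write `f = Z - y`, `e = Y - x` (both `≥ 3/5`), `L = -log e`, `X = log (Y / e) ≥ 0`, primes at the
new state; `h = (x' - x) + (y - y')`, `|ΔY| = Y - Y' ≤ x' - x`, `ΔZ = Z' - Z ≤ y - y'`,
`|Δe| = e - e' = (x' - x) + |ΔY| ∈ [0, 2h]`.
(i) ring identity (use `s2_mul`): `TT = (Y x' - x Y') + (y Z' - Z y') + (D' - D) / 2
      + (1 / (2 s2)) (-(f + f') |Δe| + 2 (Z + Z') |ΔY|)`,
    and `e f = 2 Y Z - s2 D`, so `f ≤ (2 Y Z - s2 m) / e`.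
(ii) `f' ≤ f + 2h`, `Z' ≥ Z`: the last term is `≥ (-f |Δe| + 2 Z |ΔY|) / s2 - (3/2) h^2`
    `≥ m z1 - s2 Y Z (z1 - z2) - (3/2) h^2`, `z1 = |Δe|/e`, `z2 = |ΔY|/Y`.
(iii) `L' - L = log (e/e') ≤ |Δe|/e'`, so `m z1 ≥ m (L' - L) - 11 h^2`.
(iv) `X' - X = log (Y'/Y) + log (e/e') ≥ -|ΔY|/Y' + z1`, so `z1 - z2 ≤ X' - X + 2 h^2`.
(v) `-s2 Z Y (X' - X) = -s2 (Z' Y' X' - Z Y X) + s2 X' (Y' ΔZ - Z |ΔY|)` and
    `≥ ... + s2 X' Y' ΔZ - s2 X' |ΔY|`;  `X' Y' ≥ log (f' / (2 Z' - s2 m))` (theorem `XY_ge`).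
(vi) `Y x' - x Y' = (x' Y' - x Y) + (x + x') |ΔY|`, `y Z' - Z y' = -(y' Z' - y Z) + (y + y') ΔZ`.
The total error is `≤ 20 h^2`.
`XY_ge`: with `A1 = 2 Z - s2 m`, `A2 = 2 Z - s2 m / Y`, `0 < A2 ≤ A1`: `Y e⁻¹ ≥ f / A2`, so
`X ≥ log (f / A2)`, and `Y log (f/A2) - log (f/A1) = -(1-Y) log f + (1-Y) log A2
+ (log A1 - log A2) ≥ 0` because `log f ≤ 0`, `log A2 ≥ -(8/10)`,
`log A1 - log A2 ≥ (A1 - A2)/A1 = s2 m (1/Y - 1)/A1 ≥ (3/2) (1 - Y)`. -/

set_option autoImplicit false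

namespace Pool.H47.Oc

private theorem A1_inv : (1 : ℝ) / s2 = s2 / 2 := by
  have h := s2_mul
  have hp := s2_pos
  field_simp
  linarith

private theorem A1_Dst (x Y y Z : ℝ) :
    Dst x Y y Z = s2 / 2 * ((Y - x) * y + (Y + x) * Z) := by
  unfold Dst
  rw [div_eq_mul_one_div, A1_inv]
  ring

private theorem A1_TT (x Y y Z x' Y' y' Z' : ℝ) :
    TT x Y y Z x' Y' y' Z' = (Y * x' - x * Y') + (y * Z' - Z * y')
      + (Dst x' Y' y' Z' - Dst x Y y Z) / 2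
      + s2 / 4 * (-((Z - y) + (Z' - y')) * ((Y - x) - (Y' - x')) + 2 * (Z + Z') * (Y - Y')) := by
  rw [A1_Dst, A1_Dst]
  unfold TT
  rw [div_eq_mul_one_div (Y + x), div_eq_mul_one_div (Y' - x'), div_eq_mul_one_div (Y - x),
    div_eq_mul_one_div (Y' + x'), A1_inv]
  linear_combination (-(Y + x) * (Y' - x') + (Y - x) * (Y' + x')) / 8 * s2_mul

/-- logarithm of a quotient, upper and lower bounds. -/
private theorem A1_log {e e' d h : ℝ} (he : 63 / 100 ≤ e') (hd : 0 ≤ d) (hde : e - e' = d)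
    (hh : d ≤ 2 * h) :
    Real.log e - Real.log e' ≤ d / e + 11 * h ^ 2 ∧ d / e ≤ Real.log e - Real.log e' := by
  have he0 : 0 < e' := by linarith
  have he1 : 63 / 100 ≤ e := by linarith
  have he2 : 0 < e := by linarith
  constructor
  · have h1 : Real.log (e / e') ≤ e / e' - 1 := Real.log_le_sub_one_of_pos (by positivity)
    rw [Real.log_div he2.ne' he0.ne'] at h1
    have h2 : e / e' - 1 = d / e + d ^ 2 / (e * e') := by
      rw [← hde]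
      field_simp
      ring
    have h3 : d ^ 2 / (e * e') ≤ 11 * h ^ 2 := by
      rw [div_le_iff₀ (by positivity)]
      have h4 : d ^ 2 ≤ 4 * h ^ 2 := by nlinarith
      have h5 : (63 / 100 : ℝ) * (63 / 100) ≤ e * e' := mul_le_mul he1 he (by norm_num) he2.le
      nlinarith [sq_nonneg h]
    linarith
  · have h1 : Real.log (e' / e) ≤ e' / e - 1 := Real.log_le_sub_one_of_pos (by positivity)
    rw [Real.log_div he0.ne' he2.ne'] at h1
    have h2 : e' / e - 1 = -(d / e) := by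
      rw [← hde]
      field_simp
      ring
    linarith

theorem loc (m x Y y Z x' Y' y' Z' : ℝ) (hm : 87 / 100 ≤ m) (hm' : m ≤ 92 / 100)
    (hx : 0 ≤ x) (hxx : x ≤ x') (hx' : x' ≤ 3 / 10)
    (hY : 93 / 100 ≤ Y') (hYY : Y' ≤ Y) (hY1 : Y ≤ 1)
    (hy' : 0 ≤ y') (hyy : y' ≤ y) (hy : y ≤ 3 / 10)
    (hZ : 93 / 100 ≤ Z) (hZZ : Z ≤ Z') (hZ1 : Z' ≤ 1)
    (sY : Y - Y' ≤ x' - x) (sZ : Z' - Z ≤ y - y')
    (hD : m ≤ Dst x Y y Z) (hD' : m ≤ Dst x' Y' y' Z') :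
    Pot m x' Y' y' Z' - Pot m x Y y Z
      + (2 * x' - s2 * Real.log (Y' / (Y' - x'))) * (Y - Y')
      + (2 * y' + s2 * Real.log ((Z' - y') / (2 * Z' - s2 * m))) * (Z' - Z)
      - 100 * ((x' - x) + (y - y')) ^ 2 ≤ TT x Y y Z x' Y' y' Z' := by
  have hs := s2_mul
  have hs0 := s2_pos
  have hs1 := s2_gt
  have hs2 := s2_lt
  set h : ℝ := (x' - x) + (y - y') with hh
  have hh0 : 0 ≤ h := by linarith
  have hx2 : x' - x ≤ h := by linarith
  have hy2 : y - y' ≤ h := by linarith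
  have he : 63 / 100 ≤ Y - x := by linarith
  have he' : 63 / 100 ≤ Y' - x' := by linarith
  have he0 : 0 < Y - x := by linarith
  have he0' : 0 < Y' - x' := by linarith
  have hY0 : 0 < Y := by linarith
  have hY0' : 0 < Y' := by linarith
  have hZ0 : 0 < Z := by linarith
  have hW := XY_ge m x' Y' y' Z' hm hm' (by linarith) hx' hY (by linarith) hy' (by linarith)
    (by linarith) hZ1 hD'
  set W : ℝ := Real.log ((Z' - y') / (2 * Z' - s2 * m)) with hWdef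
  have hX' : Real.log (Y' / (Y' - x')) = Real.log Y' - Real.log (Y' - x') :=
    Real.log_div hY0'.ne' he0'.ne'
  have hX : Real.log (Y / (Y - x)) = Real.log Y - Real.log (Y - x) :=
    Real.log_div hY0.ne' he0.ne'
  have hX0 : 0 ≤ Real.log (Y' / (Y' - x')) := by
    refine Real.log_nonneg ?_
    rw [le_div_iff₀ he0']
    linarith
  rw [hX'] at hW hX0 ⊢
  obtain ⟨F1, F2⟩ := A1_log (e := Y - x) (e' := Y' - x') (d := (Y - x) - (Y' - x')) (h := h) he'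
    (by linarith) rfl (by linarith)
  obtain ⟨F3, -⟩ := A1_log (e := Y) (e' := Y') (d := Y - Y') (h := h) (by linarith)
    (by linarith) rfl (by linarith)
  rw [A1_TT]
  unfold Pot
  rw [hX, hX']
  set D : ℝ := Dst x Y y Z with hDdef
  set D' : ℝ := Dst x' Y' y' Z' with hDdef'
  set a : ℝ := Real.log (Y - x)
  set a' : ℝ := Real.log (Y' - x')
  set b : ℝ := Real.log Y
  set b' : ℝ := Real.log Y'
  obtain ⟨q1, hq1⟩ : ∃ q1, q1 = ((Y - x) - (Y' - x')) / (Y - x) := ⟨_, rfl⟩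
  obtain ⟨q2, hq2⟩ : ∃ q2, q2 = (Y - Y') / Y := ⟨_, rfl⟩
  rw [← hq1] at F1 F2
  rw [← hq2] at F3
  have g1 : q1 * (Y - x) = (Y - x) - (Y' - x') := by
    rw [hq1]
    field_simp
  have g2 : q2 * Y = Y - Y' := by
    rw [hq2]
    field_simp
  have q10 : 0 ≤ q1 := by
    rw [hq1]
    exact div_nonneg (by linarith) he0.le
  have hef : (Y - x) * (Z - y) = 2 * Y * Z - s2 * D := by
    rw [hDdef, A1_Dst]
    linear_combination ((Y - x) * y + (Y + x) * Z) / 2 * hs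
  have T1 : (x' - x) * (Y - Y') ≤ h ^ 2 := by
    nlinarith [mul_nonneg (show 0 ≤ x' - x by linarith) (show 0 ≤ h - (Y - Y') by linarith)]
  have T2 : 0 ≤ (y - y') * (Z' - Z) := mul_nonneg (by linarith) (by linarith)
  have T3a : ((Z - y) + (Z' - y')) * ((Y - x) - (Y' - x')) ≤
      (2 * (Z - y) + 2 * h) * ((Y - x) - (Y' - x')) :=
    mul_le_mul_of_nonneg_right (by linarith) (by linarith)
  have T3b : 4 * Z * (Y - Y') ≤ 2 * (Z + Z') * (Y - Y') :=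
    mul_le_mul_of_nonneg_right (by linarith) (by linarith)
  have T3c : h * ((Y - x) - (Y' - x')) ≤ 2 * h ^ 2 := by nlinarith
  have T3d : (Z - y) * ((Y - x) - (Y' - x')) ≤ (2 * Y * Z - s2 * m) * q1 := by
    have e1 : (Z - y) * ((Y - x) - (Y' - x')) = (2 * Y * Z - s2 * D) * q1 := by
      rw [← hef, ← g1]
      ring
    rw [e1]
    refine mul_le_mul_of_nonneg_right ?_ q10
    have := mul_le_mul_of_nonneg_left hD hs0.le
    linarith
  have T3 : m * q1 - s2 * Y * Z * q1 + s2 * Z * Y * q2 - s2 * h ^ 2 ≤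
      s2 / 4 * (-((Z - y) + (Z' - y')) * ((Y - x) - (Y' - x')) + 2 * (Z + Z') * (Y - Y')) := by
    have e1 : -2 * ((2 * Y * Z - s2 * m) * q1) - 4 * h ^ 2 + 4 * Z * (q2 * Y) ≤
        -((Z - y) + (Z' - y')) * ((Y - x) - (Y' - x')) + 2 * (Z + Z') * (Y - Y') := by
      rw [g2]
      linarith
    have e2 := mul_le_mul_of_nonneg_left e1 (show 0 ≤ s2 / 4 by positivity)
    have e3 : s2 / 4 * (-2 * ((2 * Y * Z - s2 * m) * q1) - 4 * h ^ 2 + 4 * Z * (q2 * Y)) =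
        m * q1 - s2 * Y * Z * q1 + s2 * Z * Y * q2 - s2 * h ^ 2 := by
      linear_combination m * q1 / 2 * hs
    linarith
  have T4 : 0 ≤ m * (q1 + 11 * h ^ 2 - (a - a')) := mul_nonneg (by linarith) (by linarith)
  have T5 : 0 ≤ s2 * Z * Y * ((b' - b) + (a - a') - q1 + q2 + 11 * h ^ 2) :=
    mul_nonneg (by positivity) (by linarith)
  have T6 : 0 ≤ s2 * (b' - a') * (Y - Y') * (1 - Z) :=
    mul_nonneg (mul_nonneg (mul_nonneg hs0.le hX0) (by linarith)) (by linarith)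
  have T7 : 0 ≤ s2 * (Z' - Z) * (Y' * (b' - a') - W) :=
    mul_nonneg (mul_nonneg hs0.le (by linarith)) (by linarith)
  have T8 : m * h ^ 2 ≤ h ^ 2 := by nlinarith [sq_nonneg h]
  have T9 : s2 * h ^ 2 ≤ 3 / 2 * h ^ 2 := by nlinarith [sq_nonneg h]
  have T10 : s2 * Z * Y * h ^ 2 ≤ 3 / 2 * h ^ 2 := by
    have e1 : Z * Y ≤ 1 := by nlinarith
    have e2 : s2 * (Z * Y) ≤ 3 / 2 := by nlinarith
    nlinarith [sq_nonneg h]
  nlinarith [sq_nonneg h]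

end Pool.H47.Oc
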