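import Pool.Agent.H47.Oc.Basic

/-! # A1a: XY_ge (see the last paragraph)

Write `f = Z - y`, `e = Y - x` (both `≥ 3/5`), `L = -log e`, `X = log (Y / e) ≥ 0`, primes at the
new state; `h = (x' - x) + (y - y')`, `|ΔY| = Y - Y' ≤ x' - x`, `ΔZ = Z' - Z ≤ y - y'`,
`|Δe| = e - e' = (x' - x) + |ΔY| ∈ [0, 2h]`.
(i) ring identity (use `s2_mul`): `TT = (Y x' - x Y') + (y Z' - Z y') + (D' - D) / 2
      + (1 / (2 s2)) (-(f + f') |Δe| + 2 (Z + Z') |ΔY|)`,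
    and `e f = 2 Y Z - s2 D`, so `f ≤ (2 Y Z - s2 m) / e`.
(ii) `f' ≤ f + 2h`, `Z' ≥ Z`: the last term is `≥ (-f |Δe| + 2 Z |ΔY|) / s2 - (3/2) h^2`
    `≥ m z1 - s2 Y Z (z1 - z2) - (3/2) h^2`, `z1 = |Δe|/e`, `z2 = |ΔY|/Y`.
(iii) `L' - L = log (e/e') ≤ |Δe|/e'`, so `m z1 ≥ m (L' - L) - 11 h^2`.
(iv) `X' - X = log (Y'/Y) + log (e/e') ≥ -|ΔY|/Y' + z1`, so `z1 - z2 ≤ X' - X + 2 h^2`.
(v) `-s2 Z Y (X' - X) = -s2 (Z' Y' X' - Z Y X) + s2 X' (Y' ΔZ - Z |ΔY|)` and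
    `≥ ... + s2 X' Y' ΔZ - s2 X' |ΔY|`;  `X' Y' ≥ log (f' / (2 Z' - s2 m))` (theorem `XY_ge`).
(vi) `Y x' - x Y' = (x' Y' - x Y) + (x + x') |ΔY|`, `y Z' - Z y' = -(y' Z' - y Z) + (y + y') ΔZ`.
The total error is `≤ 20 h^2`.
`XY_ge`: with `A1 = 2 Z - s2 m`, `A2 = 2 Z - s2 m / Y`, `0 < A2 ≤ A1`: `Y e⁻¹ ≥ f / A2`, so
`X ≥ log (f / A2)`, and `Y log (f/A2) - log (f/A1) = -(1-Y) log f + (1-Y) log A2
+ (log A1 - log A2) ≥ 0` because `log f ≤ 0`, `log A2 ≥ -(8/10)`,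
`log A1 - log A2 ≥ (A1 - A2)/A1 = s2 m (1/Y - 1)/A1 ≥ (3/2) (1 - Y)`. -/

set_option autoImplicit false

namespace Pool.H47.Oc

private theorem A1a_alg (m x Y y Z : ℝ) (hD : m ≤ Dst x Y y Z) :
    (Y - x) * (Z - y) ≤ 2 * Z * Y - s2 * m := by
  unfold Dst at hD
  rw [le_div_iff₀ s2_pos] at hD
  nlinarith

theorem XY_ge (m x Y y Z : ℝ) (hm : 87 / 100 ≤ m) (hm' : m ≤ 92 / 100)
    (hx : 0 ≤ x) (hx' : x ≤ 3 / 10) (hY : 93 / 100 ≤ Y) (hY1 : Y ≤ 1)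
    (hy : 0 ≤ y) (hy' : y ≤ 3 / 10) (hZ : 93 / 100 ≤ Z) (hZ1 : Z ≤ 1)
    (hD : m ≤ Dst x Y y Z) :
    Real.log ((Z - y) / (2 * Z - s2 * m)) ≤ Y * Real.log (Y / (Y - x)) := by
  have h1 := s2_gt
  have h2 := s2_lt
  have hY0 : 0 < Y := by linarith
  have he : 0 < Y - x := by linarith
  have hf : 0 < Z - y := by linarith
  have hf1 : Z - y ≤ 1 := by linarith
  have halg := A1a_alg m x Y y Z hD
  have hsm : s2 * m ≤ 1302 / 1000 := by nlinarith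
  have hsm' : 123 / 100 ≤ s2 * m := by nlinarith
  obtain ⟨A1, hA1⟩ : ∃ A1, A1 = 2 * Z - s2 * m := ⟨_, rfl⟩
  obtain ⟨A2, hA2⟩ : ∃ A2, A2 = 2 * Z - s2 * m / Y := ⟨_, rfl⟩
  have hq : s2 * m / Y ≤ 14 / 10 := by
    rw [div_le_iff₀ hY0]
    linarith
  have hA2pos : 46 / 100 ≤ A2 := by rw [hA2]; linarith
  have hA1pos : 0 < A1 := by rw [hA1]; linarith
  have hA1le : A1 ≤ 77 / 100 := by rw [hA1]; linarith
  have hA2p : 0 < A2 := by linarith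
  have hYA2 : Y * A2 = 2 * Z * Y - s2 * m := by
    rw [hA2]
    field_simp
  rw [← hA1]
  -- step 1
  have hs1 : Real.log ((Z - y) / A2) ≤ Real.log (Y / (Y - x)) := by
    apply Real.log_le_log (div_pos hf hA2p)
    rw [div_le_div_iff₀ hA2p he]
    nlinarith
  have hs2 : Y * Real.log ((Z - y) / A2) ≤ Y * Real.log (Y / (Y - x)) :=
    mul_le_mul_of_nonneg_left hs1 hY0.le
  refine le_trans ?_ hs2
  rw [Real.log_div hf.ne' hA1pos.ne', Real.log_div hf.ne' hA2p.ne']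
  have hlf : Real.log (Z - y) ≤ 0 := Real.log_nonpos hf.le hf1
  have hlA2 : 1 - 1 / A2 ≤ Real.log A2 := by
    have := Real.one_sub_inv_le_log_of_pos hA2p
    rwa [← one_div] at this
  have hinv : 1 / A2 ≤ 218 / 100 := by
    rw [div_le_iff₀ hA2p]
    linarith
  have hdiff : 1 - A2 / A1 ≤ Real.log A1 - Real.log A2 := by
    rw [← Real.log_div hA1pos.ne' hA2p.ne']
    have := Real.one_sub_inv_le_log_of_pos (div_pos hA1pos hA2p)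
    rwa [inv_div] at this
  have hAA : 159 / 100 * (1 - Y) ≤ 1 - A2 / A1 := by
    have hd : A1 - A2 = s2 * m * (1 - Y) / Y := by
      rw [hA1, hA2]
      field_simp
      ring
    have hd2 : 123 / 100 * (1 - Y) ≤ A1 - A2 := by
      rw [hd, le_div_iff₀ hY0]
      have h3 : 0 ≤ 1 - Y := by linarith
      nlinarith [mul_nonneg h3 h3, mul_nonneg h3 (sub_nonneg.2 hsm')]
    have h4 : 1 - A2 / A1 = (A1 - A2) / A1 := by
      field_simp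
    rw [h4, le_div_iff₀ hA1pos]
    have h3 : 0 ≤ 1 - Y := by linarith
    nlinarith [mul_nonneg h3 (sub_nonneg.2 hA1le)]
  have h3 : 0 ≤ 1 - Y := by linarith
  have h5 : (1 - Y) * (-118 / 100) ≤ (1 - Y) * Real.log A2 :=
    mul_le_mul_of_nonneg_left (by linarith) h3
  have h6 : (1 - Y) * Real.log (Z - y) ≤ 0 := mul_nonpos_of_nonneg_of_nonpos h3 hlf
  nlinarith

end Pool.H47.Oc
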