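import Pool.Agent.H47.Oc.A2b

/-! # A2: ptr (A2a contains h0 and mono_step, A2b contains ptq)

`h0`: `g(x) = log (1-x) + x + κ x^2`, `κ = (89/100)/s2`, `g' = x (2κ - 1/(1-x))` changes its sign
once from `+` to `-`, so `g ≥ min (g 0) (g x0) ≥ 0`; or directly a truncated series
(`Real.abs_log_sub_add_sum_range_le`, 6 terms; value of `g` at `x0` is `0.0003`).

Monotonicity step (both parts): for `F ≥ f ≥ fm := s2/2 - |b - d|`:
`(2 F - s2 log F) - (2 f - s2 log f) ≥ - 8/5 (b-d)^2`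
(the function `u ↦ 2u - s2 log u` has its minimum at `s2/2` and its value at `(s2/2)(1-κ)`
exceeds the minimum by `s2 (-κ - log (1-κ)) ≤ s2 κ^2/(2(1-κ))`, `κ = s2 |b-d|`, `κ ≤ 9/100`).
`ptq`: with `xl = t (x0-b)/d ≤ x` (if `d = 0` then `t = 0`, `xl = 0`), `F = 1-t-xl`, `f = 1-t-x`:
`2x + s2 log (1-t-x) ≥ 2 xl + s2 log (1-t-xl) - 8/5 (b-d)^2`, and
`log (1-t-xl) = log (1-xl) + log (1 - t/(1-xl)) ≥ log (1-xl) - t/(1-xl) - (11/20) t^2/(1-xl)^2`,
`1/(1-xl) ≤ 1 + s2 xl` on `[0,x0]` (chord of a convex function), `1/(1-xl)^2 ≤ 2`,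
`-s2 log (1-t) ≥ s2 t + (7/10) t^2`;  then `h0`.
`ptr`: same, and `-log (2(1-t) - s2 m) = -log (ρ - 2t) ≥ -log ρ + 2t/ρ + 2 t^2/ρ^2`,
`ρ = 2 - s2 m ∈ [7/10, 77/100]`. -/

set_option autoImplicit false

namespace Pool.H47.Oc

private theorem A2_log_lower (u : ℝ) (h0 : 0 ≤ u) (h1 : u ≤ 9 / 100) :
    -u - 11 / 20 * u ^ 2 ≤ Real.log (1 - u) := by
  have habs : |u| = u := abs_of_nonneg h0
  have h := Real.abs_log_sub_add_sum_range_le (x := u) (by rw [habs]; linarith) 3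
  rw [habs] at h
  simp only [Finset.sum_range_succ, Finset.sum_range_zero] at h
  have h2 := (abs_le.1 h).1
  norm_num at h2
  have h3 : u ^ 4 / (1 - u) ≤ u ^ 4 / (91 / 100) :=
    div_le_div_of_nonneg_left (by positivity) (by norm_num) (by linarith)
  have h4 : u ^ 3 ≤ 9 / 100 * u ^ 2 := by nlinarith [sq_nonneg u]
  have h5 : u ^ 4 ≤ (9 / 100) ^ 2 * u ^ 2 := by nlinarith [sq_nonneg u, sq_nonneg (u ^ 2)]
  have h6 : u ^ 4 / (91 / 100) ≤ (9 / 100) ^ 2 * u ^ 2 / (91 / 100) :=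
    div_le_div_of_nonneg_right h5 (by norm_num)
  have h7 : (9 / 100) ^ 2 * u ^ 2 / (91 / 100) ≤ 1 / 100 * u ^ 2 := by
    have : (0 : ℝ) ≤ u ^ 2 := sq_nonneg u
    nlinarith
  nlinarith [sq_nonneg u]

private theorem A2_log_upper (v : ℝ) (h0 : 0 ≤ v) (h1 : v < 1) :
    v + v ^ 2 / 2 ≤ -Real.log (1 - v) := by
  have h := Real.hasSum_pow_div_log_of_abs_lt_one (x := v) (by rw [abs_of_nonneg h0]; exact h1)
  have h2 := sum_le_hasSum (Finset.range 2) (fun n _ => by positivity) h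
  simp only [Finset.sum_range_succ, Finset.sum_range_zero] at h2
  norm_num at h2
  linarith

theorem ptr (m b d t y : ℝ) (hm : 87 / 100 ≤ m) (hm' : m ≤ mO)
    (hb : 0 ≤ b) (hd : 0 ≤ d) (hbd : b + d ≤ 1 / 16)
    (ht : 0 ≤ t) (htb : t ≤ b) (hy : 0 ≤ y) (hy' : y ≤ x0 - d) (hch : t * (x0 - d) ≤ b * y)
    (hf : 1 - b - (x0 - d) ≤ 1 - t - y) :
    phr m b d t ≤ 2 * y + s2 * Real.log ((1 - t - y) / (2 * (1 - t) - s2 * m)) := by
  have hs := s2_mul
  have hsp := s2_pos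
  have hg := s2_gt
  have hl := s2_lt
  have hx0 : x0 = 1 - s2 / 2 := rfl
  have hmO : mO = s2 - 1 / 2 := rfl
  -- the chord value
  obtain ⟨yl, hyl⟩ : ∃ yl, yl = t * (x0 - d) / b := ⟨_, rfl⟩
  have hxd : 0 ≤ x0 - d := by rw [hx0]; linarith
  have hyl0 : 0 ≤ yl := by
    rw [hyl]; exact div_nonneg (mul_nonneg ht hxd) hb
  have hyly : yl ≤ y := by
    rcases hb.eq_or_lt with h | h
    · rw [hyl, ← h, div_zero]; exact hy
    · rw [hyl, div_le_iff₀ h]; linarith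
  have hylx : yl ≤ x0 := by linarith
  have hyl1 : s2 / 2 ≤ 1 - yl := by rw [hx0] at hylx; linarith
  -- `ρ`
  obtain ⟨ρ, hρ⟩ : ∃ ρ, ρ = 2 - s2 * m := ⟨_, rfl⟩
  have hρ1 : s2 / 2 ≤ ρ := by
    have e := mul_le_mul_of_nonneg_left hm' hsp.le
    rw [hmO, mul_sub, hs] at e
    rw [hρ]; linarith
  have hρ2 : ρ ≤ 77 / 100 := by
    have e := mul_le_mul_of_nonneg_left hm hsp.le
    rw [hρ]; linarith
  have hρ0 : 0 < ρ := by linarith
  have ht1 : t ≤ 1 / 16 := by linarith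
  have hρt : 0 < ρ - 2 * t := by linarith
  have hfpos : 0 < 1 - t - y := by rw [hx0] at hf; linarith
  have hFpos : 0 < 1 - t - yl := by linarith
  -- monotonicity step
  have h1 := mono_step b d (1 - t - y) (1 - t - yl) hb hd hbd (by
    have := neg_abs_le (b - d)
    have h3 := le_abs_self (b - d)
    rw [hx0] at hf
    linarith) (by linarith)
  have h2 := h0 yl hyl0 hylx
  -- logarithms
  have h3 : Real.log ((1 - t - y) / (2 * (1 - t) - s2 * m)) =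
      Real.log (1 - t - y) - Real.log (ρ - 2 * t) := by
    rw [show 2 * (1 - t) - s2 * m = ρ - 2 * t by rw [hρ]; ring]
    rw [Real.log_div hfpos.ne' hρt.ne']
  have hy1pos : 0 < 1 - yl := by linarith
  have hinv : 1 / (1 - yl) ≤ 1 + s2 * yl := by
    rw [div_le_iff₀ hy1pos]
    rw [hx0] at hylx
    have h4 : 0 ≤ s2 * (yl * (1 - s2 / 2 - yl)) :=
      mul_nonneg hsp.le (mul_nonneg hyl0 (by linarith))
    have e : (1 + s2 * yl) * (1 - yl) = 1 - yl + (s2 * (yl * (1 - s2 / 2 - yl)) +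
        (s2 * s2) / 2 * yl) := by ring
    rw [e, hs]
    linarith
  have hinv2 : 1 / (1 - yl) ≤ s2 := by
    rw [div_le_iff₀ hy1pos]
    have e := mul_le_mul_of_nonneg_left hyl1 hsp.le
    rw [mul_div_assoc', hs] at e
    linarith
  have hu0 : 0 ≤ t / (1 - yl) := div_nonneg ht hy1pos.le
  have hu1 : t / (1 - yl) ≤ t * (1 + s2 * yl) := by
    rw [div_eq_mul_one_div]
    exact mul_le_mul_of_nonneg_left hinv ht
  have hu2 : t / (1 - yl) ≤ t * s2 := by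
    rw [div_eq_mul_one_div]
    exact mul_le_mul_of_nonneg_left hinv2 ht
  have hu3 : t / (1 - yl) ≤ 9 / 100 := by
    have e : t * s2 ≤ 1 / 16 * s2 := mul_le_mul_of_nonneg_right ht1 hsp.le
    linarith
  have husq : (t / (1 - yl)) ^ 2 ≤ 2 * t ^ 2 := by
    calc (t / (1 - yl)) ^ 2 ≤ (t * s2) ^ 2 := pow_le_pow_left₀ hu0 hu2 2
      _ = 2 * t ^ 2 := by rw [mul_pow, s2_sq]; ring
  have h4 := A2_log_lower _ hu0 hu3
  have h5 : Real.log (1 - t - yl) = Real.log (1 - yl) + Real.log (1 - t / (1 - yl)) := by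
    rw [← Real.log_mul hy1pos.ne' (by
      have : t / (1 - yl) < 1 := by linarith
      linarith)]
    congr 1
    rw [mul_sub, mul_one, mul_div_cancel₀ _ hy1pos.ne']
    ring
  have hv0 : 0 ≤ 2 * t / ρ := by positivity
  have hv1 : 2 * t / ρ < 1 := by
    rw [div_lt_one hρ0]; linarith
  have h6 := A2_log_upper _ hv0 hv1
  have h7 : Real.log (ρ - 2 * t) = Real.log ρ + Real.log (1 - 2 * t / ρ) := by
    rw [← Real.log_mul hρ0.ne' (by linarith)]
    congr 1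
    field_simp
  have h8 : (2 * t / ρ) ^ 2 / 2 ≥ 2 * t ^ 2 / (77 / 100) ^ 2 := by
    have h9 : (2 * t / ρ) ^ 2 / 2 = 2 * t ^ 2 / ρ ^ 2 := by
      rw [div_pow, mul_pow, div_div, div_eq_div_iff (by positivity) (by positivity)]
      ring
    rw [h9, ge_iff_le]
    exact div_le_div_of_nonneg_left (by positivity) (by positivity)
      (pow_le_pow_left₀ hρ0.le hρ2 2)
  have h10 : Real.log (1 - t - yl) ≥ Real.log (1 - yl) - t * (1 + s2 * yl) - 11 / 10 * t ^ 2 := by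
    rw [h5]
    have e : t * (1 + s2 * yl) - t / (1 - yl) ≥ 0 := by linarith
    linarith
  have h11 : -Real.log (ρ - 2 * t) ≥ -Real.log ρ + 2 * t / ρ + 2 * t ^ 2 / (77 / 100) ^ 2 := by
    rw [h7]; linarith
  have h12 : s2 * Real.log (1 - t - yl) ≥
      s2 * Real.log (1 - yl) - s2 * t - 2 * yl * t - 11 / 10 * s2 * t ^ 2 := by
    have := mul_le_mul_of_nonneg_left h10 hsp.le
    have e : s2 * (Real.log (1 - yl) - t * (1 + s2 * yl) - 11 / 10 * t ^ 2) =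
        s2 * Real.log (1 - yl) - s2 * t - (s2 * s2) * yl * t - 11 / 10 * s2 * t ^ 2 := by ring
    rw [e, hs] at this
    linarith
  have h13 : -(s2 * Real.log (ρ - 2 * t)) ≥
      -(s2 * Real.log ρ) + 2 * s2 * t / ρ + s2 * (2 * t ^ 2 / (77 / 100) ^ 2) := by
    have := mul_le_mul_of_nonneg_left h11 hsp.le
    have e : s2 * (-Real.log ρ + 2 * t / ρ + 2 * t ^ 2 / (77 / 100) ^ 2) =
        -(s2 * Real.log ρ) + 2 * s2 * t / ρ + s2 * (2 * t ^ 2 / (77 / 100) ^ 2) := by ring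
    rw [e] at this
    linarith
  have h14 : 3 * t ^ 2 ≤ s2 * (2 * t ^ 2 / (77 / 100) ^ 2) - 11 / 10 * s2 * t ^ 2 := by
    have e : s2 * (2 * t ^ 2 / (77 / 100) ^ 2) - 11 / 10 * s2 * t ^ 2 =
        s2 * (2 / (77 / 100) ^ 2 - 11 / 10) * t ^ 2 := by ring
    rw [e]
    apply mul_le_mul_of_nonneg_right _ (sq_nonneg t)
    have e2 : (14142135 / 10000000 : ℝ) * (2 / (77 / 100) ^ 2 - 11 / 10) ≤
        s2 * (2 / (77 / 100) ^ 2 - 11 / 10) :=
      mul_le_mul_of_nonneg_right hg.le (by norm_num)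
    refine le_trans ?_ e2
    norm_num
  rw [phr, h3, ← hyl, ← hρ]
  have e2 : 2 * s2 * t / ρ = 2 * s2 * t / ρ := rfl
  linarith

end Pool.H47.Oc
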