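import Pool.Agent.H47.Oc.Basic

/-! # A2a: h0 and mono_step (see the first two paragraphs)

`h0`: `g(x) = log (1-x) + x + κ x^2`, `κ = (89/100)/s2`, `g' = x (2κ - 1/(1-x))` changes its sign
once from `+` to `-`, so `g ≥ min (g 0) (g x0) ≥ 0`; or directly a truncated series
(`Real.abs_log_sub_add_sum_range_le`, 6 terms; value of `g` at `x0` is `0.0003`).

Monotonicity step (both parts): for `F ≥ f ≥ fm := s2/2 - |b - d|`:
`(2 F - s2 log F) - (2 f - s2 log f) ≥ - 8/5 (b-d)^2`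
(the function `u ↦ 2u - s2 log u` has its minimum at `s2/2` and its value at `(s2/2)(1-κ)`
exceeds the minimum by `s2 (-κ - log (1-κ)) ≤ s2 κ^2/(2(1-κ))`, `κ = s2 |b-d|`, `κ ≤ 9/100`).
`ptq`: with `xl = t (x0-b)/d ≤ x` (if `d = 0` then `t = 0`, `xl = 0`), `F = 1-t-xl`, `f = 1-t-x`:
`2x + s2 log (1-t-x) ≥ 2 xl + s2 log (1-t-xl) - 8/5 (b-d)^2`, and
`log (1-t-xl) = log (1-xl) + log (1 - t/(1-xl)) ≥ log (1-xl) - t/(1-xl) - (11/20) t^2/(1-xl)^2`,
`1/(1-xl) ≤ 1 + s2 xl` on `[0,x0]` (chord of a convex function), `1/(1-xl)^2 ≤ 2`,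
`-s2 log (1-t) ≥ s2 t + (7/10) t^2`;  then `h0`.
`ptr`: same, and `-log (2(1-t) - s2 m) = -log (ρ - 2t) ≥ -log ρ + 2t/ρ + 2 t^2/ρ^2`,
`ρ = 2 - s2 m ∈ [7/10, 77/100]`. -/

set_option autoImplicit false

namespace Pool.H47.Oc

/-- truncated series for the logarithm -/
private lemma A2a_ser {x : ℝ} (h0 : 0 ≤ x) (h1 : x < 1) (n : ℕ) :
    -(∑ i ∈ Finset.range n, x ^ (i + 1) / ((i : ℝ) + 1)) - x ^ (n + 1) / (1 - x) ≤
      Real.log (1 - x) := by
  have h := Real.abs_log_sub_add_sum_range_le (x := x) (by rw [abs_of_nonneg h0]; exact h1) n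
  rw [abs_of_nonneg h0] at h
  have h2 := (abs_le.mp h).1
  linarith

private lemma A2a_log6 {x : ℝ} (h0 : 0 ≤ x) (h1 : x ≤ 2929 / 10000) :
    -x - 6284 / 10000 * x ^ 2 ≤ Real.log (1 - x) := by
  have h2 := A2a_ser h0 (by linarith) 6
  refine le_trans ?_ h2
  have e : ∑ i ∈ Finset.range 6, x ^ (i + 1) / ((i : ℝ) + 1) =
      x + x ^ 2 / 2 + x ^ 3 / 3 + x ^ 4 / 4 + x ^ 5 / 5 + x ^ 6 / 6 := by
    rw [Finset.sum_range_succ, Finset.sum_range_succ, Finset.sum_range_succ,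
      Finset.sum_range_succ, Finset.sum_range_succ, Finset.sum_range_succ, Finset.sum_range_zero]
    push_cast
    ring
  rw [e]
  have hx2 : 0 ≤ x ^ 2 := sq_nonneg x
  have p3 : x ^ 3 ≤ 2929 / 10000 * x ^ 2 := by
    have h3 : x ^ 3 = x * x ^ 2 := by ring
    rw [h3]
    exact mul_le_mul_of_nonneg_right h1 hx2
  have p4 : x ^ 4 ≤ (2929 / 10000) ^ 2 * x ^ 2 := by
    have h3 : x ^ 4 = x ^ 2 * x ^ 2 := by ring
    rw [h3]
    exact mul_le_mul_of_nonneg_right (pow_le_pow_left₀ h0 h1 2) hx2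
  have p5 : x ^ 5 ≤ (2929 / 10000) ^ 3 * x ^ 2 := by
    have h3 : x ^ 5 = x ^ 3 * x ^ 2 := by ring
    rw [h3]
    exact mul_le_mul_of_nonneg_right (pow_le_pow_left₀ h0 h1 3) hx2
  have p6 : x ^ 6 ≤ (2929 / 10000) ^ 4 * x ^ 2 := by
    have h3 : x ^ 6 = x ^ 4 * x ^ 2 := by ring
    rw [h3]
    exact mul_le_mul_of_nonneg_right (pow_le_pow_left₀ h0 h1 4) hx2
  have p7 : x ^ (6 + 1) / (1 - x) ≤ (2929 / 10000) ^ 5 * x ^ 2 * (10000 / 7071) := by
    rw [div_le_iff₀ (by linarith)]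
    have h3 : x ^ (6 + 1) = x ^ 5 * x ^ 2 := by ring
    have h4 : x ^ 5 * x ^ 2 ≤ (2929 / 10000) ^ 5 * x ^ 2 :=
      mul_le_mul_of_nonneg_right (pow_le_pow_left₀ h0 h1 5) hx2
    have h5 : 0 ≤ (2929 / 10000 : ℝ) ^ 5 * x ^ 2 := by positivity
    have h6 : (2929 / 10000 : ℝ) ^ 5 * x ^ 2 * 1 ≤ (2929 / 10000) ^ 5 * x ^ 2 *
        (10000 / 7071 * (1 - x)) := by
      refine mul_le_mul_of_nonneg_left ?_ h5
      linarith
    rw [h3]
    linarith
  nlinarith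

private lemma A2a_log3 {x : ℝ} (h0 : 0 ≤ x) (h1 : x ≤ 89 / 1000) :
    -x - 54 / 100 * x ^ 2 ≤ Real.log (1 - x) := by
  have h2 := A2a_ser h0 (by linarith) 3
  refine le_trans ?_ h2
  have e : ∑ i ∈ Finset.range 3, x ^ (i + 1) / ((i : ℝ) + 1) = x + x ^ 2 / 2 + x ^ 3 / 3 := by
    rw [Finset.sum_range_succ, Finset.sum_range_succ, Finset.sum_range_succ,
      Finset.sum_range_zero]
    push_cast
    ring
  rw [e]
  have hx2 : 0 ≤ x ^ 2 := sq_nonneg x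
  have p3 : x ^ 3 ≤ 89 / 1000 * x ^ 2 := by
    have h3 : x ^ 3 = x * x ^ 2 := by ring
    rw [h3]
    exact mul_le_mul_of_nonneg_right h1 hx2
  have p4 : x ^ (3 + 1) / (1 - x) ≤ (89 / 1000) ^ 2 * x ^ 2 * (1000 / 911) := by
    rw [div_le_iff₀ (by linarith)]
    have h3 : x ^ (3 + 1) = x ^ 2 * x ^ 2 := by ring
    have h4 : x ^ 2 * x ^ 2 ≤ (89 / 1000) ^ 2 * x ^ 2 :=
      mul_le_mul_of_nonneg_right (pow_le_pow_left₀ h0 h1 2) hx2
    have h5 : 0 ≤ (89 / 1000 : ℝ) ^ 2 * x ^ 2 := by positivity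
    have h6 : (89 / 1000 : ℝ) ^ 2 * x ^ 2 * 1 ≤ (89 / 1000) ^ 2 * x ^ 2 *
        (1000 / 911 * (1 - x)) := by
      refine mul_le_mul_of_nonneg_left ?_ h5
      linarith
    rw [h3]
    linarith
  nlinarith

theorem h0 (x : ℝ) (h1 : 0 ≤ x) (h2 : x ≤ x0) :
    (2 - s2) * x - 89 / 100 * x ^ 2 ≤ 2 * x + s2 * Real.log (1 - x) := by
  have hs1 := s2_gt
  have hs2 := s2_lt
  have hx : x ≤ 2929 / 10000 := by
    unfold x0 at h2
    linarith
  have h3 := A2a_log6 h1 hx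
  have hs0 := s2_pos
  have h4 : s2 * (-x - 6284 / 10000 * x ^ 2) ≤ s2 * Real.log (1 - x) :=
    mul_le_mul_of_nonneg_left h3 hs0.le
  have h5 : s2 * (6284 / 10000) ≤ 89 / 100 := by linarith
  have h6 : s2 * (6284 / 10000) * x ^ 2 ≤ 89 / 100 * x ^ 2 :=
    mul_le_mul_of_nonneg_right h5 (sq_nonneg x)
  linarith

theorem mono_step (b d f F : ℝ) (hb : 0 ≤ b) (hd : 0 ≤ d) (hbd : b + d ≤ 1 / 16)
    (hf : s2 / 2 - |b - d| ≤ f) (hfF : f ≤ F) :
    2 * f - s2 * Real.log f - 8 / 5 * (b - d) ^ 2 ≤ 2 * F - s2 * Real.log F := by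
  have hs1 := s2_gt
  have hs2 := s2_lt
  have hs0 := s2_pos
  have hss := s2_mul
  have habs : |b - d| ≤ 1 / 16 := by
    rw [abs_le]
    constructor <;> linarith
  have habs0 := abs_nonneg (b - d)
  have hf0 : 0 < f := by linarith
  have hF0 : 0 < F := by linarith
  have hsq : 0 ≤ 8 / 5 * (b - d) ^ 2 := by positivity
  rcases le_total (s2 / 2) f with hc | hc
  · -- monotone part
    have h1 : Real.log (F / f) ≤ F / f - 1 := Real.log_le_sub_one_of_pos (div_pos hF0 hf0)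
    rw [Real.log_div hF0.ne' hf0.ne'] at h1
    have h2 : s2 * (F / f - 1) ≤ 2 * (F - f) := by
      have h3 : F / f - 1 = (F - f) / f := by
        rw [sub_div, div_self hf0.ne']
      rw [h3, ← mul_div_assoc, div_le_iff₀ hf0]
      nlinarith
    have h4 : s2 * (Real.log F - Real.log f) ≤ s2 * (F / f - 1) :=
      mul_le_mul_of_nonneg_left h1 hs0.le
    linarith
  · -- minimum part
    have hu0 : 0 < s2 / 2 := by linarith
    have h1 : Real.log (F / (s2 / 2)) ≤ F / (s2 / 2) - 1 :=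
      Real.log_le_sub_one_of_pos (div_pos hF0 hu0)
    rw [Real.log_div hF0.ne' hu0.ne'] at h1
    have h2 : s2 * (F / (s2 / 2) - 1) = 2 * F - s2 := by
      field_simp
    have h3 : s2 * (Real.log F - Real.log (s2 / 2)) ≤ 2 * F - s2 := by
      rw [← h2]
      exact mul_le_mul_of_nonneg_left h1 hs0.le
    have hk0 : 0 ≤ 1 - s2 * f := by nlinarith
    have hk1 : 1 - s2 * f ≤ s2 * |b - d| := by nlinarith
    have hk2 : 1 - s2 * f ≤ 89 / 1000 := by nlinarith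
    have h4 := A2a_log3 hk0 hk2
    have h5 : 1 - (1 - s2 * f) = f / (s2 / 2) := by
      rw [eq_div_iff hu0.ne']
      linear_combination (f / 2) * hss
    rw [h5, Real.log_div hf0.ne' hu0.ne'] at h4
    have h6 : (1 - s2 * f) ^ 2 ≤ 2 * (b - d) ^ 2 := by
      have h7 : (1 - s2 * f) ^ 2 ≤ (s2 * |b - d|) ^ 2 := pow_le_pow_left₀ hk0 hk1 2
      rw [mul_pow, sq_abs, s2_sq] at h7
      exact h7
    have h8 : s2 * (-(1 - s2 * f) - 54 / 100 * (1 - s2 * f) ^ 2) ≤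
        s2 * (Real.log f - Real.log (s2 / 2)) := mul_le_mul_of_nonneg_left h4 hs0.le
    have h9 : s2 * (54 / 100 * (1 - s2 * f) ^ 2) ≤ 8 / 5 * (b - d) ^ 2 := by
      have h10 : s2 * (54 / 100 * (1 - s2 * f) ^ 2) ≤ s2 * (54 / 100 * (2 * (b - d) ^ 2)) := by
        gcongr
      have h11 : 0 ≤ (b - d) ^ 2 := sq_nonneg _
      have h12 : s2 * (54 / 100 * 2) ≤ 8 / 5 := by linarith
      have h13 := mul_le_mul_of_nonneg_right h12 h11
      linarith
    have h14 : s2 * (1 - s2 * f) = s2 - 2 * f := by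
      linear_combination (-f) * hss
    linarith

end Pool.H47.Oc
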