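import Pool.Agent.H47.Oc.A2a

/-! # A2b: ptq (A2a contains h0 and mono_step)

`h0`: `g(x) = log (1-x) + x + κ x^2`, `κ = (89/100)/s2`, `g' = x (2κ - 1/(1-x))` changes its sign
once from `+` to `-`, so `g ≥ min (g 0) (g x0) ≥ 0`; or directly a truncated series
(`Real.abs_log_sub_add_sum_range_le`, 6 terms; value of `g` at `x0` is `0.0003`).

Monotonicity step (both parts): for `F ≥ f ≥ fm := s2/2 - |b - d|`:
`(2 F - s2 log F) - (2 f - s2 log f) ≥ - 8/5 (b-d)^2`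
(the function `u ↦ 2u - s2 log u` has its minimum at `s2/2` and its value at `(s2/2)(1-κ)`
exceeds the minimum by `s2 (-κ - log (1-κ)) ≤ s2 κ^2/(2(1-κ))`, `κ = s2 |b-d|`, `κ ≤ 9/100`).
`ptq`: with `xl = t (x0-b)/d ≤ x` (if `d = 0` then `t = 0`, `xl = 0`), `F = 1-t-xl`, `f = 1-t-x`:
`2x + s2 log (1-t-x) ≥ 2 xl + s2 log (1-t-xl) - 8/5 (b-d)^2`, and
`log (1-t-xl) = log (1-xl) + log (1 - t/(1-xl)) ≥ log (1-xl) - t/(1-xl) - (11/20) t^2/(1-xl)^2`,
`1/(1-xl) ≤ 1 + s2 xl` on `[0,x0]` (chord of a convex function), `1/(1-xl)^2 ≤ 2`,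
`-s2 log (1-t) ≥ s2 t + (7/10) t^2`;  then `h0`.
`ptr`: same, and `-log (2(1-t) - s2 m) = -log (ρ - 2t) ≥ -log ρ + 2t/ρ + 2 t^2/ρ^2`,
`ρ = 2 - s2 m ∈ [7/10, 77/100]`. -/

set_option autoImplicit false

namespace Pool.H47.Oc

/-- Bounds for the logarithm. -/
private theorem A2b_log (u : ℝ) (hu : 0 ≤ u) (hu' : u ≤ 1 / 10) :
    -u - 11 / 20 * u ^ 2 ≤ Real.log (1 - u) ∧ Real.log (1 - u) ≤ -u - u ^ 2 / 2 := by
  have habs : |u| = u := abs_of_nonneg hu
  have H := Real.abs_log_sub_add_sum_range_le (x := u) (by rw [habs]; linarith) 3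
  rw [habs, Finset.sum_range_succ, Finset.sum_range_succ, Finset.sum_range_succ,
    Finset.sum_range_zero] at H
  norm_num at H
  rw [abs_le] at H
  have h4 : u ^ 4 / (1 - u) ≤ 10 / 9 * u ^ 4 := by
    rw [div_le_iff₀ (by linarith)]
    have h5 : 0 ≤ u ^ 4 := by positivity
    nlinarith
  have h3 : 0 ≤ u ^ 3 := by positivity
  have h2 : 0 ≤ u ^ 2 := by positivity
  have e4 : u ^ 4 ≤ 1 / 10 * u ^ 3 := by
    have : u ^ 4 = u * u ^ 3 := by ring
    rw [this]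
    exact mul_le_mul_of_nonneg_right hu' h3
  have e3 : u ^ 3 ≤ 1 / 10 * u ^ 2 := by
    have : u ^ 3 = u * u ^ 2 := by ring
    rw [this]
    exact mul_le_mul_of_nonneg_right hu' h2
  constructor <;> linarith [H.1, H.2]

/-- The main estimate with the chord value. -/
private theorem A2b_main (t y : ℝ) (ht : 0 ≤ t) (ht' : t ≤ 1 / 16) (hy : 0 ≤ y) (hy' : y ≤ x0) :
    (2 - s2) * y - 89 / 100 * y ^ 2 - 2 * y * t - 9 / 10 * t ^ 2 ≤
      2 * y - s2 * Real.log (1 - t) + s2 * Real.log (1 - t - y) := by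
  have hs := s2_gt
  have hs' := s2_lt
  have hss := s2_mul
  have hx0 : x0 = 1 - s2 / 2 := rfl
  have h1y : s2 / 2 ≤ 1 - y := by linarith
  have hpos : 0 < 1 - y := by linarith
  have hinv : 1 / (1 - y) ≤ 1 + s2 * y := by
    rw [div_le_iff₀ hpos]
    nlinarith [mul_nonneg hy (sub_nonneg.2 h1y), mul_nonneg hy (sub_nonneg.2 hy')]
  have hinv2 : (1 / (1 - y)) ^ 2 ≤ 2 := by
    rw [div_pow, one_pow, div_le_iff₀ (by positivity)]
    nlinarith [mul_self_nonneg (1 - y - s2 / 2)]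
  have hinv0 : 0 ≤ 1 / (1 - y) := by positivity
  have hinv1 : 1 / (1 - y) ≤ 3 / 2 := by nlinarith
  have hu0 : 0 ≤ t * (1 / (1 - y)) := mul_nonneg ht hinv0
  have hu1 : t * (1 / (1 - y)) ≤ 1 / 10 := by nlinarith
  have hL := (A2b_log _ hu0 hu1).1
  have hT := (A2b_log t ht (by linarith)).2
  have hsplit : Real.log (1 - t - y) = Real.log (1 - y) + Real.log (1 - t * (1 / (1 - y))) := by
    rw [← Real.log_mul (ne_of_gt hpos) (by linarith)]
    congr 1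
    field_simp
    ring
  have hh := h0 y hy hy'
  have k1 : t * (1 / (1 - y)) ≤ t * (1 + s2 * y) := mul_le_mul_of_nonneg_left hinv ht
  have k2 : (t * (1 / (1 - y))) ^ 2 ≤ 2 * t ^ 2 := by
    rw [mul_pow]
    nlinarith [sq_nonneg t]
  have k3 : - (t * (1 + s2 * y)) - 11 / 10 * t ^ 2 ≤ Real.log (1 - t * (1 / (1 - y))) := by
    linarith
  have k4 : s2 * (- (t * (1 + s2 * y)) - 11 / 10 * t ^ 2) ≤
      s2 * Real.log (1 - t * (1 / (1 - y))) := mul_le_mul_of_nonneg_left k3 s2_pos.le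
  have k5 : s2 * Real.log (1 - t) ≤ s2 * (-t - t ^ 2 / 2) :=
    mul_le_mul_of_nonneg_left hT s2_pos.le
  have k6 : s2 * (- (t * (1 + s2 * y)) - 11 / 10 * t ^ 2) - s2 * (-t - t ^ 2 / 2) =
      - (s2 * s2 * (y * t)) - 6 / 10 * (s2 * t ^ 2) := by ring
  have k7 : s2 * t ^ 2 ≤ 15 / 10 * t ^ 2 :=
    mul_le_mul_of_nonneg_right (by linarith) (sq_nonneg t)
  rw [hss] at k6
  rw [hsplit]
  linarith

theorem ptq (b d t x : ℝ) (hb : 0 ≤ b) (hd : 0 ≤ d) (hbd : b + d ≤ 1 / 16)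
    (ht : 0 ≤ t) (htd : t ≤ d) (hx : 0 ≤ x) (hx' : x ≤ x0 - b) (hch : t * (x0 - b) ≤ d * x)
    (he : 1 - d - (x0 - b) ≤ 1 - t - x) :
    phq b d t ≤ 2 * x - s2 * Real.log ((1 - t) / (1 - t - x)) := by
  have hs := s2_gt
  have hs' := s2_lt
  have hx0 : x0 = 1 - s2 / 2 := rfl
  have hxb : 0 ≤ x0 - b := by linarith
  obtain ⟨y, hy⟩ : ∃ y, y = t * (x0 - b) / d := ⟨_, rfl⟩
  have hy0 : 0 ≤ y := by
    rw [hy]
    exact div_nonneg (mul_nonneg ht hxb) hd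
  have hyx : y ≤ x := by
    rcases eq_or_lt_of_le hd with h | h
    · rw [hy, ← h, div_zero]
      exact hx
    · rw [hy, div_le_iff₀ h]
      linarith
  have hyx0 : y ≤ x0 := by linarith
  have hmain := A2b_main t y ht (by linarith) hy0 hyx0
  have hf : s2 / 2 - |b - d| ≤ 1 - t - x := by
    have := neg_abs_le (b - d)
    linarith
  have hmono := mono_step b d (1 - t - x) (1 - t - y) hb hd hbd hf (by linarith)
  have hfpos : 0 < 1 - t - x := by linarith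
  have hlog : Real.log ((1 - t) / (1 - t - x)) = Real.log (1 - t) - Real.log (1 - t - x) :=
    Real.log_div (by linarith) (ne_of_gt hfpos)
  rw [hlog]
  unfold phq
  rw [← hy]
  linarith

end Pool.H47.Oc
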