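import Pool.Agent.H47.Oc.A1
import Pool.Agent.H47.Oc.A2

/-! # A3: sum along a phase

For each `i`: `loc`, `ptq` (at the new state, `t = 1 - Y (i+1)`), `ptr` (`t = 1 - Z (i+1)`), and
`phq t' (t' - t) ≥ Psq t' - Psq t - C (t'-t)^2` (`0 ≤ t ≤ t' ≤ d`), `phr t' (t - t') ≥
Psr t - Psr t' - C (t-t')^2` (`0 ≤ t' ≤ t ≤ b`) because `Psq' = phq`, `Psr' = phr` are polynomials
(`C` depends on `b, d, b', d', m`).  Sum over `i` (telescoping, `Finset.sum_range_sub`),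
`∑ h_i^2 ≤ δ ∑ h_i = δ ((x0 - b') + (x0 - d)) ≤ δ` where `h_i = (x (i+1) - x i) + (y i - y (i+1))`.
Endpoints: `Pot m (x0-b') (1-d') 0 1`, `Pot m 0 1 (x0-d) (1-b)`,
`Psq b' d' d'`, `Psr m b d b` (for `d' = 0` or `b = 0` everything is `0`); total `Fq m b' d' + Fr m b d`.
The hypotheses `e ≥ e_end` of `ptq`: `Y i - x i` is nonincreasing in `i`; `f ≥ f_start` of `ptr`:
`Z i - y i` is nondecreasing. Ranges `x i ≤ 3/10`, `Y i ≥ 93/100` from monotonicity. -/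

set_option autoImplicit false

namespace Pool.H47.Oc

open Finset

/-- data of a phase with `n` steps of size at most `δ` -/
structure PhD (m b d b' d' δ : ℝ) (n : ℕ) (x Y y Z : ℕ → ℝ) : Prop where
  xs : x 0 = 0
  Ys : Y 0 = 1
  ys : y 0 = x0 - d
  Zs : Z 0 = 1 - b
  xe : x n = x0 - b'
  Ye : Y n = 1 - d'
  yE : y n = 0
  Ze : Z n = 1
  mx : ∀ i < n, x i ≤ x (i + 1)
  mY : ∀ i < n, Y (i + 1) ≤ Y i
  my : ∀ i < n, y (i + 1) ≤ y i
  mZ : ∀ i < n, Z i ≤ Z (i + 1)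
  sY : ∀ i < n, Y i - Y (i + 1) ≤ x (i + 1) - x i
  sZ : ∀ i < n, Z (i + 1) - Z i ≤ y i - y (i + 1)
  cq : ∀ i ≤ n, (1 - Y i) * (x0 - b') ≤ d' * x i
  crr : ∀ i ≤ n, (1 - Z i) * (x0 - d) ≤ b * y i
  det : ∀ i ≤ n, m ≤ Dst (x i) (Y i) (y i) (Z i)
  step : ∀ i < n, (x (i + 1) - x i) + (y i - y (i + 1)) ≤ δ

private lemma A3_mono (f : ℕ → ℝ) (n : ℕ) (h : ∀ i < n, f i ≤ f (i + 1)) (i : ℕ) :
    ∀ j, i ≤ j → j ≤ n → f i ≤ f j := by
  intro j hij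
  induction j, hij using Nat.le_induction with
  | base => intro _; exact le_refl _
  | succ j _ ih => intro hj; exact (ih (by omega)).trans (h j (by omega))

private lemma A3_anti (f : ℕ → ℝ) (n : ℕ) (h : ∀ i < n, f (i + 1) ≤ f i) (i j : ℕ)
    (hij : i ≤ j) (hj : j ≤ n) : f j ≤ f i := by
  have := A3_mono (fun k => - f k) n (fun k hk => neg_le_neg (h k hk)) i j hij hj
  simpa using this

private lemma A3_poly (A B e t t' : ℝ) (ht : 0 ≤ t) (ht' : 0 ≤ t') (h1 : t ≤ 1) (h2 : t' ≤ 1) :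
    - ((|A| + |B|) * e ^ 2) ≤ A / 2 * e ^ 2 - B * e ^ 2 * (2 * t' + t) / 3 := by
  have hA := neg_abs_le A
  have hB := le_abs_self B
  have hB0 := abs_nonneg B
  have hA0 := abs_nonneg A
  have h3 : 0 ≤ (2 * t' + t) / 3 := by linarith
  have h4 : (2 * t' + t) / 3 ≤ 1 := by linarith
  have h5 : B * ((2 * t' + t) / 3) ≤ |B| := by
    calc B * ((2 * t' + t) / 3) ≤ |B| * ((2 * t' + t) / 3) := mul_le_mul_of_nonneg_right hB h3
      _ ≤ |B| * 1 := mul_le_mul_of_nonneg_left h4 hB0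
      _ = |B| := mul_one _
  have h6 : 0 ≤ A / 2 - B * ((2 * t' + t) / 3) + (|A| + |B|) := by linarith
  have h7 := mul_nonneg h6 (sq_nonneg e)
  have e1 : A / 2 * e ^ 2 - B * e ^ 2 * (2 * t' + t) / 3 + (|A| + |B|) * e ^ 2
      = (A / 2 - B * ((2 * t' + t) / 3) + (|A| + |B|)) * e ^ 2 := by ring
  linarith

private lemma A3_q (b d : ℝ) : ∃ K : ℝ, 0 ≤ K ∧ ∀ t t' : ℝ, 0 ≤ t → 0 ≤ t' → t ≤ 1 → t' ≤ 1 →
    Psq b d t' - Psq b d t - K * (t' - t) ^ 2 ≤ phq b d t' * (t' - t) := by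
  set a : ℝ := (x0 - b) / d with ha
  refine ⟨|(2 - s2) * a| + |89 / 100 * a ^ 2 + 2 * a + 9 / 10|, by positivity, ?_⟩
  intro t t' ht ht' h1 h2
  have h3 := A3_poly ((2 - s2) * a) (89 / 100 * a ^ 2 + 2 * a + 9 / 10) (t' - t) t t'
    ht ht' h1 h2
  have e : phq b d t' * (t' - t) - (Psq b d t' - Psq b d t)
      = (2 - s2) * a / 2 * (t' - t) ^ 2
        - (89 / 100 * a ^ 2 + 2 * a + 9 / 10) * (t' - t) ^ 2 * (2 * t' + t) / 3 := by
    unfold phq Psq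
    rw [mul_div_assoc, ← ha]
    ring
  linarith

private lemma A3_r (m b d : ℝ) : ∃ K : ℝ, 0 ≤ K ∧ ∀ t t' : ℝ, 0 ≤ t → 0 ≤ t' → t ≤ 1 →
    t' ≤ 1 →
    Psr m b d t - Psr m b d t' - K * (t - t') ^ 2 ≤ phr m b d t' * (t - t') := by
  set a : ℝ := (x0 - d) / b with ha
  set l : ℝ := Real.log (2 - s2 * m) with hl
  set r : ℝ := (2 - s2 * m)⁻¹ with hr
  refine ⟨|-((2 - s2) * a - s2 + 2 * s2 * r)| + |-89 / 100 * a ^ 2 - 2 * a + 3|,
    by positivity, ?_⟩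
  intro t t' ht ht' h1 h2
  have h3 := A3_poly (-((2 - s2) * a - s2 + 2 * s2 * r)) (-89 / 100 * a ^ 2 - 2 * a + 3)
    (t - t') t t' ht ht' h1 h2
  have e : phr m b d t' * (t - t') - (Psr m b d t - Psr m b d t')
      = -((2 - s2) * a - s2 + 2 * s2 * r) / 2 * (t - t') ^ 2
        - (-89 / 100 * a ^ 2 - 2 * a + 3) * (t - t') ^ 2 * (2 * t' + t) / 3 := by
    unfold phr Psr
    have hdiv : ∀ u : ℝ, u / (2 - s2 * m) = u * r := fun u => div_eq_mul_inv _ _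
    rw [mul_div_assoc, ← ha, ← hl, hdiv (2 * s2 * t'), hdiv (s2 * t ^ 2), hdiv (s2 * t' ^ 2)]
    ring
  linarith

private lemma A3_Psq_end (b d : ℝ) : Psq b d d =
    (2 - s2) * d * (x0 - b) / 2 - 89 / 100 * d * (x0 - b) ^ 2 / 3
      - 2 / 3 * (x0 - b) * d ^ 2 - 3 / 10 * d ^ 3 - 8 / 5 * (b - d) ^ 2 * d := by
  unfold Psq
  rcases eq_or_ne d 0 with rfl | hd
  · simp
  · field_simp

private lemma A3_Psr_end (m b d : ℝ) : Psr m b d b =
    (2 - s2) * b * (x0 - d) / 2 - 89 / 100 * b * (x0 - d) ^ 2 / 3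
      - 2 / 3 * (x0 - d) * b ^ 2 - s2 * b ^ 2 / 2 - s2 * b * Real.log (2 - s2 * m)
      + s2 * b ^ 2 / (2 - s2 * m) + b ^ 3 - 8 / 5 * (b - d) ^ 2 * b := by
  unfold Psr
  generalize s2 * b ^ 2 / (2 - s2 * m) = R
  rcases eq_or_ne b 0 with rfl | hb
  · simp
  · field_simp
    ring

theorem phase_real (m b d b' d' : ℝ) (hm : 87 / 100 ≤ m) (hm' : m ≤ mO)
    (hb : 0 ≤ b) (hd : 0 ≤ d) (hbd : b + d ≤ 1 / 16)
    (hb' : 0 ≤ b') (hd' : 0 ≤ d') (hbd' : b' + d' ≤ 1 / 16) :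
    ∃ C : ℝ, ∀ (δ : ℝ) (n : ℕ) (x Y y Z : ℕ → ℝ), 0 ≤ δ → PhD m b d b' d' δ n x Y y Z →
      Fq m b' d' + Fr m b d - C * δ ≤
        ∑ i ∈ range n, TT (x i) (Y i) (y i) (Z i) (x (i + 1)) (Y (i + 1)) (y (i + 1)) (Z (i + 1)) := by
  obtain ⟨Kq, hKq, hq⟩ := A3_q b' d'
  obtain ⟨Kr, hKr, hr⟩ := A3_r m b d
  refine ⟨100 + Kq + Kr, ?_⟩
  intro δ n x Y y Z hδ h
  have hs1 := s2_gt
  have hs2 := s2_lt
  have hmO : m ≤ 92 / 100 := by unfold mO at hm'; linarith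
  have hx0 : x0 ≤ 3 / 10 := by unfold x0; linarith
  have hx0' : 29 / 100 ≤ x0 := by unfold x0; linarith
  -- ranges
  have rx : ∀ i ≤ n, 0 ≤ x i ∧ x i ≤ x0 - b' := fun i hi => by
    have h1 := A3_mono x n h.mx 0 i (Nat.zero_le _) hi
    have h2 := A3_mono x n h.mx i n hi le_rfl
    rw [h.xs] at h1; rw [h.xe] at h2; exact ⟨h1, h2⟩
  have rY : ∀ i ≤ n, 1 - d' ≤ Y i ∧ Y i ≤ 1 := fun i hi => by
    have h1 := A3_anti Y n h.mY 0 i (Nat.zero_le _) hi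
    have h2 := A3_anti Y n h.mY i n hi le_rfl
    rw [h.Ys] at h1; rw [h.Ye] at h2; exact ⟨h2, h1⟩
  have ry : ∀ i ≤ n, 0 ≤ y i ∧ y i ≤ x0 - d := fun i hi => by
    have h1 := A3_anti y n h.my 0 i (Nat.zero_le _) hi
    have h2 := A3_anti y n h.my i n hi le_rfl
    rw [h.ys] at h1; rw [h.yE] at h2; exact ⟨h2, h1⟩
  have rZ : ∀ i ≤ n, 1 - b ≤ Z i ∧ Z i ≤ 1 := fun i hi => by
    have h1 := A3_mono Z n h.mZ 0 i (Nat.zero_le _) hi
    have h2 := A3_mono Z n h.mZ i n hi le_rfl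
    rw [h.Zs] at h1; rw [h.Ze] at h2; exact ⟨h1, h2⟩
  have re : ∀ i ≤ n, 1 - d' - (x0 - b') ≤ Y i - x i := fun i hi => by
    have h2 := A3_anti (fun k => Y k - x k) n
      (fun k hk => sub_le_sub (h.mY k hk) (h.mx k hk)) i n hi le_rfl
    simp only [h.Ye, h.xe] at h2; exact h2
  have rf : ∀ i ≤ n, 1 - b - (x0 - d) ≤ Z i - y i := fun i hi => by
    have h2 := A3_mono (fun k => Z k - y k) n
      (fun k hk => sub_le_sub (h.mZ k hk) (h.my k hk)) 0 i (Nat.zero_le _) hi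
    simp only [h.Zs, h.ys] at h2; exact h2
  -- one step
  have key : ∀ i ∈ range n,
      ((Pot m (x (i + 1)) (Y (i + 1)) (y (i + 1)) (Z (i + 1)) + Psq b' d' (1 - Y (i + 1))
        - Psr m b d (1 - Z (i + 1)) - (100 + Kq + Kr) * δ * (x (i + 1) - y (i + 1)))
      - (Pot m (x i) (Y i) (y i) (Z i) + Psq b' d' (1 - Y i) - Psr m b d (1 - Z i)
        - (100 + Kq + Kr) * δ * (x i - y i)))
      ≤ TT (x i) (Y i) (y i) (Z i) (x (i + 1)) (Y (i + 1)) (y (i + 1)) (Z (i + 1)) := by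
    intro i hi
    have hi := mem_range.mp hi
    have hi1 : i + 1 ≤ n := hi
    obtain ⟨x1, x2⟩ := rx i hi.le
    obtain ⟨x3, x4⟩ := rx (i + 1) hi1
    obtain ⟨Y1, Y2⟩ := rY i hi.le
    obtain ⟨Y3, Y4⟩ := rY (i + 1) hi1
    obtain ⟨y1, y2⟩ := ry i hi.le
    obtain ⟨y3, y4⟩ := ry (i + 1) hi1
    obtain ⟨Z1, Z2⟩ := rZ i hi.le
    obtain ⟨Z3, Z4⟩ := rZ (i + 1) hi1
    have mx := h.mx i hi
    have mY := h.mY i hi
    have my := h.my i hi
    have mZ := h.mZ i hi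
    have sY := h.sY i hi
    have sZ := h.sZ i hi
    have st := h.step i hi
    have hloc := loc m (x i) (Y i) (y i) (Z i) (x (i + 1)) (Y (i + 1)) (y (i + 1)) (Z (i + 1))
      hm hmO x1 mx (by linarith) (by linarith) mY Y2 y3 my (by linarith) (by linarith) mZ Z4
      sY sZ (h.det i hi.le) (h.det (i + 1) hi1)
    have hptq := ptq b' d' (1 - Y (i + 1)) (x (i + 1)) hb' hd' hbd' (by linarith) (by linarith)
      x3 x4 (h.cq (i + 1) hi1) (by have := re (i + 1) hi1; linarith)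
    have hptr := ptr m b d (1 - Z (i + 1)) (y (i + 1)) hm hm' hb hd hbd (by linarith)
      (by linarith) y3 y4 (h.crr (i + 1) hi1) (by have := rf (i + 1) hi1; linarith)
    rw [sub_sub_cancel] at hptq hptr
    have hq1 := hq (1 - Y i) (1 - Y (i + 1)) (by linarith) (by linarith) (by linarith)
      (by linarith)
    have hr1 := hr (1 - Z i) (1 - Z (i + 1)) (by linarith) (by linarith) (by linarith)
      (by linarith)
    have e1 : (1 - Y (i + 1)) - (1 - Y i) = Y i - Y (i + 1) := by ring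
    have e2 : (1 - Z i) - (1 - Z (i + 1)) = Z (i + 1) - Z i := by ring
    rw [e1] at hq1
    rw [e2] at hr1
    have hq2 := mul_le_mul_of_nonneg_right hptq (sub_nonneg.mpr mY)
    have hr2 := mul_le_mul_of_nonneg_right hptr (sub_nonneg.mpr mZ)
    set g : ℝ := (x (i + 1) - x i) + (y i - y (i + 1)) with hg
    have hg0 : 0 ≤ g := by linarith
    have s1 : (Y i - Y (i + 1)) ^ 2 ≤ g ^ 2 :=
      pow_le_pow_left₀ (by linarith) (by linarith) 2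
    have s3 : (Z (i + 1) - Z i) ^ 2 ≤ g ^ 2 :=
      pow_le_pow_left₀ (by linarith) (by linarith) 2
    have s4 : g ^ 2 ≤ δ * g := by nlinarith
    have s5 := mul_le_mul_of_nonneg_left s1 hKq
    have s6 := mul_le_mul_of_nonneg_left s3 hKr
    have s7 := mul_le_mul_of_nonneg_left s4 (by linarith : 0 ≤ 100 + Kq + Kr)
    have e3 : (100 + Kq + Kr) * (δ * g) = (100 + Kq + Kr) * δ * (x (i + 1) - y (i + 1))
        - (100 + Kq + Kr) * δ * (x i - y i) := by rw [hg]; ring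
    have e4 : (100 + Kq + Kr) * g ^ 2 = 100 * g ^ 2 + Kq * g ^ 2 + Kr * g ^ 2 := by ring
    linarith
  have hsum := sum_le_sum key
  rw [sum_range_sub (fun i => Pot m (x i) (Y i) (y i) (Z i) + Psq b' d' (1 - Y i)
    - Psr m b d (1 - Z i) - (100 + Kq + Kr) * δ * (x i - y i))] at hsum
  refine le_trans ?_ hsum
  rw [h.xs, h.Ys, h.ys, h.Zs, h.xe, h.Ye, h.yE, h.Ze]
  have hKδ : 0 ≤ (100 + Kq + Kr) * δ := mul_nonneg (by linarith) hδ
  have hlen : (x0 - b') - 0 - (0 - (x0 - d)) ≤ 1 := by linarith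
  have hC : (100 + Kq + Kr) * δ * ((x0 - b') - 0 - (0 - (x0 - d))) ≤ (100 + Kq + Kr) * δ :=
    mul_le_of_le_one_right hKδ hlen
  have hpos : 0 < 1 - d' - (x0 - b') := by linarith
  have hposd : 0 < 1 - d' := by linarith
  have eN : Pot m (x0 - b') (1 - d') 0 1 = (x0 - b') * (1 - d')
      - (m - s2 * (1 - d')) * Real.log (1 - d' - x0 + b')
      - s2 * (1 - d') * Real.log (1 - d') + Dd b' d' / 2 := by
    unfold Pot Dst Dd
    rw [Real.log_div hposd.ne' hpos.ne', show 1 - d' - (x0 - b') = 1 - d' - x0 + b' by ring]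
    ring
  have e0 : Pot m 0 1 (x0 - d) (1 - b) = -((x0 - d) * (1 - b)) + Dd b d / 2 := by
    unfold Pot Dst Dd
    simp only [sub_zero, div_one, Real.log_one]
    ring
  have z1 : Psq b' d' (1 - 1) = 0 := by unfold Psq; simp
  have z2 : Psr m b d (1 - 1) = 0 := by unfold Psr; simp
  have z3 := A3_Psq_end b' d'
  have z4 := A3_Psr_end m b d
  rw [eN, e0, z1, z2, sub_sub_cancel, sub_sub_cancel, z3, z4]
  unfold Fq Fr
  have e5 : (100 + Kq + Kr) * δ * ((x0 - b') - 0 - (0 - (x0 - d)))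
      = (100 + Kq + Kr) * δ * (x0 - b' - 0) - (100 + Kq + Kr) * δ * (0 - (x0 - d)) := by ring
  linarith

end Pool.H47.Oc
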