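import Pool.Agent.H47.Oc.Basic

/-! # A4: reduction of the final inequality to the extreme value of `m`

Put `w = s2 (2 - s2 m) - 1`, so `2 - s2 m = (s2/2)(1+w)`, `m = mO - w/2`, and
`w ≥ s' := s2 (b+d)` by `hm'`; `1 - d - x0 + b = (s2/2)(1+t)`, `t = s2 (b-d)`;
`log (s2/2) = -log 2 / 2`; `cR/2 * mO = 2 - s2 - log 2 / 4` (`√32 = 4 s2`, `√8 = 2 s2`).
Then `Fq + Fr - cR/2 m = -(1+x0)(b+d) + 2bd + (log 2/2)(s' - w/2) + ((1+w)/2 - s2 d) log (1+t)
 - s2 (1-d) log (1-d) + [polynomial as in G1] - s2 b log (1+w) + 2b^2/(1+w) + (cR/4) w`,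
which at `w = s'` is `G1 b d` (note `(1+s')/2 - s2 d = (1+t)/2`).  Difference to the value at `s'`:
`(w - s') (cR/4 - log 2/4 + log (1+t)/2) - s2 b (log (1+w) - log (1+s')) - 2b^2 (w-s')/((1+w)(1+s'))
 ≥ (w - s') (cR/4 - log 2/4 + log(1+t)/2 - s2 b/(1+s') - 2b^2) ≥ 0`
(`cR/4 - log 2/4 ≥ 0.0523`; worst cases `b = 1/16, d = 0` : `0.0072`, `b = 0, d = 1/16` : `0.0059`). -/

set_option autoImplicit false

namespace Pool.H47.Oc

private lemma A4_sqrt8 : Real.sqrt 8 = 2 * s2 := by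
  have h : (8 : ℝ) = (2 * s2) ^ 2 := by
    have := s2_sq; nlinarith
  rw [h, Real.sqrt_sq (by have := s2_pos; linarith)]

private lemma A4_sqrt32 : Real.sqrt 32 = 4 * s2 := by
  have h : (32 : ℝ) = (4 * s2) ^ 2 := by
    have := s2_sq; nlinarith
  rw [h, Real.sqrt_sq (by have := s2_pos; linarith)]

private lemma A4_s2_gt : (1414213562 / 1000000000 : ℝ) < s2 := by
  unfold s2; rw [Real.lt_sqrt (by norm_num)]; norm_num

private lemma A4_s2_lt : s2 < (1414213563 / 1000000000 : ℝ) := by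
  unfold s2; rw [Real.sqrt_lt' (by norm_num)]; norm_num

private lemma A4_cR : cR = (8 - 4 * s2 - Real.log 2) / (2 * s2 - 1) := by
  unfold cR; rw [A4_sqrt8, A4_sqrt32]

theorem cR_mO : cR / 2 * mO = 2 - s2 - Real.log 2 / 4 := by
  have h1 : 2 * s2 - 1 ≠ 0 := by
    have := s2_gt; intro h; linarith
  have h2 : (8 - 4 * s2 - Real.log 2) / (2 * s2 - 1) * (2 * s2 - 1)
      = 8 - 4 * s2 - Real.log 2 := div_mul_cancel₀ _ h1
  rw [A4_cR]
  unfold mO
  linear_combination h2 / 4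

theorem cR_bd : (9024141 / 10000000 : ℝ) < cR ∧ cR < 9024142 / 10000000 := by
  have h1 := A4_s2_gt
  have h2 := A4_s2_lt
  have h3 := Real.log_two_gt_d9
  have h4 := Real.log_two_lt_d9
  rw [A4_cR]
  constructor
  · rw [lt_div_iff₀ (by linarith)]
    linarith
  · rw [div_lt_iff₀ (by linarith)]
    linarith

private lemma A4_log_half : Real.log (s2 / 2) = - Real.log 2 / 2 := by
  have h : Real.log s2 = Real.log 2 / 2 := by
    unfold s2; exact Real.log_sqrt (by norm_num)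
  rw [Real.log_div s2_pos.ne' (by norm_num), h]; ring

/-- the scalar inequality: coefficient of `w - s'` -/
private lemma A4_coef (b d : ℝ) (hb : 0 ≤ b) (hd : 0 ≤ d) (hbd : b + d ≤ 1 / 16) :
    0 ≤ cR / 4 - Real.log 2 / 4 + Real.log (1 + s2 * (b - d)) / 2
      - s2 * b / (1 + s2 * (b + d)) - 2 * b ^ 2 := by
  have h1 := s2_gt
  have h2 := s2_lt
  have h3 := cR_bd.1
  have h4 := Real.log_two_lt_d9
  obtain ⟨u, hu⟩ : ∃ u, u = s2 * b := ⟨_, rfl⟩
  obtain ⟨v, hv⟩ : ∃ v, v = s2 * d := ⟨_, rfl⟩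
  have hu0 : 0 ≤ u := by rw [hu]; exact mul_nonneg s2_pos.le hb
  have hv0 : 0 ≤ v := by rw [hv]; exact mul_nonneg s2_pos.le hd
  have huv : u + v ≤ 884 / 10000 := by
    rw [hu, hv]; nlinarith [s2_pos]
  have e1 : s2 * (b - d) = u - v := by rw [hu, hv]; ring
  have e2 : s2 * (b + d) = u + v := by rw [hu, hv]; ring
  have e3 : 2 * b ^ 2 = u ^ 2 := by
    rw [hu, mul_pow, s2_sq]
  rw [e1, e2, e3, ← hu]
  have hp : 0 < 1 + (u - v) := by linarith
  have hq : 0 < 1 + (u + v) := by linarith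
  have hl : 1 - (1 + (u - v))⁻¹ ≤ Real.log (1 + (u - v)) := Real.one_sub_inv_le_log_of_pos hp
  have hc : (523 / 10000 : ℝ) ≤ cR / 4 - Real.log 2 / 4 := by linarith
  have key : u / (1 + (u + v)) + u ^ 2 ≤ 523 / 10000 + (1 - (1 + (u - v))⁻¹) / 2 := by
    have e4 : 523 / 10000 + (1 - (1 + (u - v))⁻¹) / 2 - (u / (1 + (u + v)) + u ^ 2)
        = ((523 / 5000) * (1 + (u - v)) * (1 + (u + v)) + (u - v) * (1 + (u + v))
          - 2 * u * (1 + (u - v)) - 2 * u ^ 2 * (1 + (u - v)) * (1 + (u + v)))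
          / (2 * (1 + (u - v)) * (1 + (u + v))) := by
      field_simp
      ring
    have e5 : 0 ≤ (523 / 5000) * (1 + (u - v)) * (1 + (u + v)) + (u - v) * (1 + (u + v))
          - 2 * u * (1 + (u - v)) - 2 * u ^ 2 * (1 + (u - v)) * (1 + (u + v)) := by
      have a1 : u ≤ 884 / 10000 := by linarith
      have a2 : v ≤ 884 / 10000 := by linarith
      have a3 : (1 + (u - v)) * (1 + (u + v)) = (1 + u) ^ 2 - v ^ 2 := by ring
      have a4 : (1 + u) ^ 2 - v ^ 2 ≤ 119 / 100 := by nlinarith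
      have a5 : 1 + 2 * u - (u + v) * (884 / 10000) ≤ (1 + u) ^ 2 - v ^ 2 := by nlinarith
      have a6 : (u - v) ^ 2 ≤ (u + v) * (884 / 10000) := by nlinarith [mul_nonneg hu0 hv0]
      have a7 : u ^ 2 ≤ u * (884 / 10000) := by nlinarith
      have a8 : u ^ 2 * ((1 + u) ^ 2 - v ^ 2) ≤ u * (884 / 10000) * (119 / 100) := by
        have : 0 ≤ (1 + u) ^ 2 - v ^ 2 := by nlinarith
        calc u ^ 2 * ((1 + u) ^ 2 - v ^ 2) ≤ u ^ 2 * (119 / 100) :=
              mul_le_mul_of_nonneg_left a4 (sq_nonneg u)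
          _ ≤ _ := by nlinarith
      nlinarith
    have e6 : 0 ≤ 523 / 10000 + (1 - (1 + (u - v))⁻¹) / 2 - (u / (1 + (u + v)) + u ^ 2) := by
      rw [e4]; exact div_nonneg e5 (by positivity)
    linarith
  linarith

theorem fin_of_G1 (m b d : ℝ) (hm : 87 / 100 ≤ m) (hm' : m ≤ Dd b d)
    (hb : 0 ≤ b) (hd : 0 ≤ d) (hbd : b + d ≤ 1 / 16) :
    G1 b d + cR / 2 * m ≤ Fq m b d + Fr m b d := by
  have h1 := s2_gt
  have h2 := s2_lt
  have hs := s2_sq
  have hsp := s2_pos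
  obtain ⟨w, hw⟩ : ∃ w, w = s2 * (2 - s2 * m) - 1 := ⟨_, rfl⟩
  have hmw : m = mO - w / 2 := by
    unfold mO; rw [hw]; nlinarith
  have hws : s2 * (b + d) ≤ w := by
    have e : Dd b d = s2 - 1 / 2 - s2 * (b + d) / 2 := by
      unfold Dd x0
      rw [div_eq_iff hsp.ne']
      nlinarith
    rw [e] at hm'
    unfold mO at hmw
    linarith
  have hs0 : 0 ≤ s2 * (b + d) := by positivity
  have hw1 : 0 ≤ w := hs0.trans hws
  have hts : -(1 / 2) ≤ s2 * (b - d) := by nlinarith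
  have e1 : 1 - d - x0 + b = s2 / 2 * (1 + s2 * (b - d)) := by
    unfold x0; nlinarith
  have e2 : 2 - s2 * m = s2 / 2 * (1 + w) := by
    rw [hw]; nlinarith
  have l1 : Real.log (1 - d - x0 + b) = - Real.log 2 / 2 + Real.log (1 + s2 * (b - d)) := by
    rw [e1, Real.log_mul (by positivity) (by linarith), A4_log_half]
  have l2 : Real.log (2 - s2 * m) = - Real.log 2 / 2 + Real.log (1 + w) := by
    rw [e2, Real.log_mul (by positivity) (by linarith), A4_log_half]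
  have e3 : s2 * b ^ 2 / (2 - s2 * m) = 2 * b ^ 2 / (1 + w) := by
    rw [e2]
    have : (1 + w) ≠ 0 := by linarith
    field_simp
  have e4 : m - s2 * (1 - d) = - (1 + w) / 2 + s2 * d := by
    rw [hmw]; unfold mO; ring
  have hcm := cR_mO
  have hcoef := A4_coef b d hb hd hbd
  -- the difference
  have hdiff : Fq m b d + Fr m b d - cR / 2 * m - G1 b d =
      (w - s2 * (b + d)) * (cR / 4 - Real.log 2 / 4 + Real.log (1 + s2 * (b - d)) / 2)
      - s2 * b * (Real.log (1 + w) - Real.log (1 + s2 * (b + d)))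
      - (2 * b ^ 2 / (1 + s2 * (b + d)) - 2 * b ^ 2 / (1 + w)) := by
    unfold Fq Fr G1
    rw [l1, l2, e3, e4]
    have hm2 : cR / 2 * m = 2 - s2 - Real.log 2 / 4 - cR / 4 * w := by
      rw [hmw, mul_sub, hcm]; ring
    rw [hm2]
    unfold x0
    ring
  have hlog : Real.log (1 + w) - Real.log (1 + s2 * (b + d)) ≤
      (w - s2 * (b + d)) / (1 + s2 * (b + d)) := by
    have hA : 0 < 1 + s2 * (b + d) := by linarith
    rw [← Real.log_div (by linarith) hA.ne']
    have := Real.log_le_sub_one_of_pos (show 0 < (1 + w) / (1 + s2 * (b + d)) by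
      apply div_pos (by linarith) hA)
    refine this.trans (le_of_eq ?_)
    field_simp
    ring
  have hinv : 2 * b ^ 2 / (1 + s2 * (b + d)) - 2 * b ^ 2 / (1 + w) ≤
      (w - s2 * (b + d)) * (2 * b ^ 2) := by
    have hA : 1 ≤ 1 + s2 * (b + d) := by linarith
    have hB : 1 ≤ 1 + w := by linarith
    have e5 : 2 * b ^ 2 / (1 + s2 * (b + d)) - 2 * b ^ 2 / (1 + w)
        = (w - s2 * (b + d)) * (2 * b ^ 2) / ((1 + s2 * (b + d)) * (1 + w)) := by
      field_simp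
      ring
    rw [e5]
    apply div_le_self
    · apply mul_nonneg (by linarith) (by positivity)
    · nlinarith
  have hlog2 : s2 * b * (Real.log (1 + w) - Real.log (1 + s2 * (b + d))) ≤
      (w - s2 * (b + d)) * (s2 * b / (1 + s2 * (b + d))) := by
    calc s2 * b * (Real.log (1 + w) - Real.log (1 + s2 * (b + d)))
        ≤ s2 * b * ((w - s2 * (b + d)) / (1 + s2 * (b + d))) :=
          mul_le_mul_of_nonneg_left hlog (by positivity)
      _ = _ := by ring
  have hfin : 0 ≤ (w - s2 * (b + d)) * (cR / 4 - Real.log 2 / 4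
      + Real.log (1 + s2 * (b - d)) / 2 - s2 * b / (1 + s2 * (b + d)) - 2 * b ^ 2) :=
    mul_nonneg (by linarith) hcoef
  have hsplit : (w - s2 * (b + d)) * (cR / 4 - Real.log 2 / 4
      + Real.log (1 + s2 * (b - d)) / 2 - s2 * b / (1 + s2 * (b + d)) - 2 * b ^ 2)
      = (w - s2 * (b + d)) * (cR / 4 - Real.log 2 / 4 + Real.log (1 + s2 * (b - d)) / 2)
      - (w - s2 * (b + d)) * (s2 * b / (1 + s2 * (b + d)))
      - (w - s2 * (b + d)) * (2 * b ^ 2) := by ring
  rw [hsplit] at hfin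
  linarith

end Pool.H47.Oc
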