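import Pool.Agent.H47.Oc.A4

/-! # A5: the two variable inequality

With `s = b + d`, `t = s2 (b-d)`, `s' = s2 s ≤ 9/100`:
`(1+t) log (1+t) ≥ t + t^2/2 - t^3/6` for `|t| ≤ 9/100` up to a term `≥ 0` (`t^4/12` series);
`-(1-d) log (1-d) ≥ d - d^2/2 - d^3/6 - d^4/11`; `log (1+s') ≤ s' - s'^2/2 + s'^3/3`;
`1/(1+s') ≥ 1 - s' + s'^2 - s'^3`; `cR` and `log 2` from `cR_bd`, `Real.log_two_gt_d9`.
Then `G1 ≥ 0.0386 s - 0.4024 (b^2+d^2) - 1.2383 bd - cubic`, and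
`G1 b d ≥ 0.005 (b+d)` numerically (minimum of the quotient `0.00536` at `b = 1/16, d = 0`). -/

set_option autoImplicit false

namespace Pool.H47.Oc

lemma A5_log4 (x : ℝ) (h : |x| < 1) :
    x - x ^ 2 / 2 + x ^ 3 / 3 - x ^ 4 / 4 - |x| ^ 5 / (1 - |x|) ≤ Real.log (1 + x) := by
  have h1 := Real.abs_log_sub_add_sum_range_le (x := -x) (by rwa [abs_neg]) 4
  rw [abs_neg, sub_neg_eq_add] at h1
  simp only [Finset.sum_range_succ, Finset.sum_range_zero] at h1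
  have h2 := (abs_le.1 h1).1
  norm_num at h2
  nlinarith [h2]

lemma A5_log3 (x : ℝ) (h0 : 0 ≤ x) (h : x < 1) :
    Real.log (1 + x) ≤ x - x ^ 2 / 2 + x ^ 3 / 3 + x ^ 4 / (1 - x) := by
  have h1 := Real.abs_log_sub_add_sum_range_le (x := -x) (by rwa [abs_neg, abs_of_nonneg h0]) 3
  rw [abs_neg, sub_neg_eq_add, abs_of_nonneg h0] at h1
  simp only [Finset.sum_range_succ, Finset.sum_range_zero] at h1
  have h2 := (abs_le.1 h1).2
  norm_num at h2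
  nlinarith [h2]

lemma A5_log3' (x : ℝ) (h0 : 0 ≤ x) (h : x < 1) :
    Real.log (1 - x) ≤ -x - x ^ 2 / 2 - x ^ 3 / 3 + x ^ 4 / (1 - x) := by
  have h1 := Real.abs_log_sub_add_sum_range_le (x := x) (by rwa [abs_of_nonneg h0]) 3
  rw [abs_of_nonneg h0] at h1
  simp only [Finset.sum_range_succ, Finset.sum_range_zero] at h1
  have h2 := (abs_le.1 h1).2
  norm_num at h2
  nlinarith [h2]

/-- `(1 + t) log (1 + t) / 2` -/
lemma A5_T1 (t s' : ℝ) (ht : |t| ≤ s') (hs : s' ≤ 9 / 100) :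
    (t + t ^ 2 / 2 - t ^ 3 / 6) / 2 - 2 / 3 * s' ^ 5 ≤ (1 + t) / 2 * Real.log (1 + t) := by
  have h0 : 0 ≤ |t| := abs_nonneg t
  obtain ⟨h1, h2⟩ := abs_le.1 ht
  have h3 := A5_log4 t (by linarith)
  have h4 : |t| ^ 5 / (1 - |t|) ≤ 11 / 10 * s' ^ 5 := by
    have h5 : |t| ^ 5 ≤ s' ^ 5 := pow_le_pow_left₀ h0 ht 5
    have h6 : 0 < 1 - |t| := by linarith
    rw [div_le_iff₀ h6]
    have h7 : 0 ≤ s' ^ 5 := pow_nonneg (by linarith) 5
    nlinarith [mul_nonneg h7 (by linarith : (0 : ℝ) ≤ 9 / 100 - |t|)]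
  have h5 : t - t ^ 2 / 2 + t ^ 3 / 3 - t ^ 4 / 4 - 11 / 10 * s' ^ 5 ≤ Real.log (1 + t) := by
    linarith
  have h6 : 0 ≤ (1 + t) / 2 := by linarith
  have h7 := mul_le_mul_of_nonneg_left h5 h6
  have h8 : 0 ≤ t ^ 4 * (1 / 12 - t / 4) := mul_nonneg (by positivity) (by linarith)
  have h9 : 0 ≤ s' ^ 5 := pow_nonneg (by linarith) 5
  have h10 : 0 ≤ s' ^ 5 * (9 / 100 - t) := mul_nonneg h9 (by linarith)
  nlinarith [h7, h8, h10]

/-- `-(1 - d) log (1 - d)` -/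
lemma A5_T2 (d : ℝ) (hd : 0 ≤ d) (hd1 : d ≤ 1 / 16) :
    d - d ^ 2 / 2 - d ^ 3 / 6 - 4 / 3 * d ^ 4 ≤ -((1 - d) * Real.log (1 - d)) := by
  have h1 := A5_log3' d hd (by linarith)
  have h2 : 0 < 1 - d := by linarith
  have h3 := mul_le_mul_of_nonneg_left h1 h2.le
  have h4 : (1 - d) * (-d - d ^ 2 / 2 - d ^ 3 / 3 + d ^ 4 / (1 - d)) =
      (1 - d) * (-d - d ^ 2 / 2 - d ^ 3 / 3) + d ^ 4 := by
    field_simp
  rw [h4] at h3
  nlinarith [h3]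

/-- `log (1 + s')` -/
lemma A5_T3 (s' : ℝ) (h0 : 0 ≤ s') (hs : s' ≤ 9 / 100) :
    Real.log (1 + s') ≤ s' - s' ^ 2 / 2 + s' ^ 3 / 3 + 11 / 10 * s' ^ 4 := by
  have h1 := A5_log3 s' h0 (by linarith)
  have h2 : s' ^ 4 / (1 - s') ≤ 11 / 10 * s' ^ 4 := by
    rw [div_le_iff₀ (by linarith)]
    have h7 : 0 ≤ s' ^ 4 := by positivity
    nlinarith [mul_nonneg h7 (by linarith : (0 : ℝ) ≤ 9 / 100 - s')]
  linarith

/-- `1 / (1 + s')` -/
lemma A5_T4 (s' : ℝ) (h0 : 0 ≤ s') : 1 - s' ≤ 1 / (1 + s') := by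
  rw [le_div_iff₀ (by linarith)]
  nlinarith [sq_nonneg s']

lemma A5_U1 (r b d s : ℝ) (r2 : r < 14142136 / 10000000) (r0 : 0 < r) (rr : r ^ 2 = 2)
    (hs : s = b + d) (hb : 0 ≤ b) (hd : 0 ≤ d) (hbd : s ≤ 1 / 16) :
    r * (b - d) / 2 + (b - d) ^ 2 / 2 - r * (b - d) ^ 3 / 6 - 1 / 10000 * s ≤
      (1 + r * (b - d)) / 2 * Real.log (1 + r * (b - d)) := by
  have s0 : 0 ≤ s := by rw [hs]; positivity
  have hrs : r * s ≤ 9 / 100 := by nlinarith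
  have hab : |r * (b - d)| ≤ r * s := by
    rw [abs_mul, abs_of_pos r0]
    refine mul_le_mul_of_nonneg_left ?_ r0.le
    rw [abs_le]
    constructor <;> linarith
  have T1 := A5_T1 (r * (b - d)) (r * s) hab hrs
  have e2 : (r * (b - d)) ^ 2 = 2 * (b - d) ^ 2 := by rw [mul_pow, rr]
  have e3 : (r * (b - d)) ^ 3 = 2 * r * (b - d) ^ 3 := by
    rw [mul_pow, pow_succ, rr]
  have f5 : (r * s) ^ 5 = 4 * (r * s ^ 5) := by
    rw [mul_pow, show r ^ 5 = (r ^ 2) ^ 2 * r by ring, rr]; ring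
  rw [e2, e3, f5] at T1
  have h1 : s ^ 4 ≤ (1 / 16) ^ 4 := pow_le_pow_left₀ s0 hbd 4
  have h2 : s ^ 5 ≤ (1 / 16) ^ 4 * s := by
    rw [pow_succ]; exact mul_le_mul_of_nonneg_right h1 s0
  have h3 : r * s ^ 5 ≤ 14142136 / 10000000 * ((1 / 16) ^ 4 * s) :=
    mul_le_mul r2.le h2 (by positivity) (by norm_num)
  have h4 : (r * (b - d) + 2 * (b - d) ^ 2 / 2 - 2 * r * (b - d) ^ 3 / 6) / 2 =
      r * (b - d) / 2 + (b - d) ^ 2 / 2 - r * (b - d) ^ 3 / 6 := by ring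
  rw [h4] at T1
  linarith

lemma A5_U2 (r d : ℝ) (r2 : r < 14142136 / 10000000) (r0 : 0 < r) (hd : 0 ≤ d)
    (hd1 : d ≤ 1 / 16) :
    r * d - r * d ^ 2 / 2 - r * d ^ 3 / 6 - 5 / 10000 * d ≤
      - r * (1 - d) * Real.log (1 - d) := by
  have h1 := mul_le_mul_of_nonneg_left (A5_T2 d hd hd1) r0.le
  have h2 : d ^ 3 ≤ (1 / 16) ^ 3 := pow_le_pow_left₀ hd (by linarith) 3
  have h3 : d ^ 4 ≤ (1 / 16) ^ 3 * d := by
    rw [pow_succ]; exact mul_le_mul_of_nonneg_right h2 hd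
  have h5 : r * d ^ 4 ≤ 14142136 / 10000000 * ((1 / 16) ^ 3 * d) :=
    mul_le_mul r2.le h3 (by positivity) (by norm_num)
  have h6 : r * (d - d ^ 2 / 2 - d ^ 3 / 6 - 4 / 3 * d ^ 4) =
      r * d - r * d ^ 2 / 2 - r * d ^ 3 / 6 - 4 / 3 * (r * d ^ 4) := by ring
  have h7 : r * -((1 - d) * Real.log (1 - d)) = - r * (1 - d) * Real.log (1 - d) := by ring
  rw [h6, h7] at h1
  linarith

lemma A5_U3 (r b s : ℝ) (r2 : r < 14142136 / 10000000) (r0 : 0 < r) (rr : r ^ 2 = 2)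
    (hb : 0 ≤ b) (s0 : 0 ≤ s) (hbd : s ≤ 1 / 16) :
    -(2 * b * s) + r * b * s ^ 2 - 4 / 3 * b * s ^ 3 - 1 / 5000 * b ≤
      - r * b * Real.log (1 + r * s) := by
  have hrs : r * s ≤ 9 / 100 := by nlinarith
  have T3 := A5_T3 (r * s) (by positivity) hrs
  have f2 : (r * s) ^ 2 = 2 * s ^ 2 := by rw [mul_pow, rr]
  have f3 : (r * s) ^ 3 = 2 * r * s ^ 3 := by
    rw [mul_pow, pow_succ, rr]
  have f4 : (r * s) ^ 4 = 4 * s ^ 4 := by
    rw [mul_pow, show r ^ 4 = (r ^ 2) ^ 2 by ring, rr]; norm_num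
  rw [f2, f3, f4] at T3
  have h1 := mul_le_mul_of_nonneg_left T3 (by positivity : 0 ≤ r * b)
  have h2 : s ^ 4 ≤ (1 / 16) ^ 4 := pow_le_pow_left₀ s0 hbd 4
  have h4 : r * s ^ 4 ≤ 14142136 / 10000000 * (1 / 16) ^ 4 :=
    mul_le_mul r2.le h2 (by positivity) (by norm_num)
  have h5 := mul_le_mul_of_nonneg_left h4 hb
  have h6 : r * b * (r * s - 2 * s ^ 2 / 2 + 2 * r * s ^ 3 / 3 + 11 / 10 * (4 * s ^ 4)) =
      2 * b * s - r * b * s ^ 2 + 4 / 3 * b * s ^ 3 + 44 / 10 * (b * (r * s ^ 4)) := by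
    linear_combination (b * s + 2 / 3 * b * s ^ 3) * rr
  have h7 : - r * b * Real.log (1 + r * s) = -(r * b * Real.log (1 + r * s)) := by ring
  rw [h6] at h1
  rw [h7]
  norm_num at h5
  linarith

lemma A5_U4 (r b s : ℝ) (h : 0 ≤ r * s) :
    2 * b ^ 2 - 2 * r * b ^ 2 * s ≤ 2 * b ^ 2 / (1 + r * s) := by
  have h1 := mul_le_mul_of_nonneg_left (A5_T4 (r * s) h) (by positivity : 0 ≤ 2 * b ^ 2)
  have h2 : 2 * b ^ 2 * (1 / (1 + r * s)) = 2 * b ^ 2 / (1 + r * s) := by ring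
  have h3 : 2 * b ^ 2 * (1 - r * s) = 2 * b ^ 2 - 2 * r * b ^ 2 * s := by ring
  rw [h2, h3] at h1
  exact h1

lemma A5_U5 (r s : ℝ) (r1 : 14142135 / 10000000 < r) (s0 : 0 ≤ s) :
    5639 / 10000 * s ≤ Real.log 2 / 4 * (r * s) + cR / 4 * (r * s) := by
  have hL := Real.log_two_gt_d9
  have hc := cR_bd.1
  have h0 : 3988 / 10000 ≤ Real.log 2 / 4 + cR / 4 := by linarith
  have h1 : 5639 / 10000 ≤ (Real.log 2 / 4 + cR / 4) * r := by
    have h3 := mul_le_mul h0 r1.le (by norm_num) (by linarith)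
    linarith
  have h2 := mul_le_mul_of_nonneg_right h1 s0
  have h4 : (Real.log 2 / 4 + cR / 4) * r * s = Real.log 2 / 4 * (r * s) + cR / 4 * (r * s) := by
    ring
  linarith

lemma A5_U6 (r b d : ℝ) (rr : r ^ 2 = 2) :
    (2 - r) * (d * (1 - r / 2 - b) + b * (1 - r / 2 - d)) / 2
      - 89 / 100 * (d * (1 - r / 2 - b) ^ 2 + b * (1 - r / 2 - d) ^ 2) / 3
      - 2 / 3 * ((1 - r / 2 - b) * d ^ 2 + (1 - r / 2 - d) * b ^ 2) =
      (3 - 2 * r) / 2 * (b + d) - (2 - r) * (b * d) - 89 / 300 * (3 / 2 - r) * (b + d)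
      + 89 / 300 * (4 * (1 - r / 2)) * (b * d) - 89 / 300 * (b * d) * (b + d)
      - 2 / 3 * (1 - r / 2) * (b ^ 2 + d ^ 2) + 2 / 3 * (b * d) * (b + d) := by
  linear_combination (d / 4 + b / 4 - 89 / 1200 * d - 89 / 1200 * b) * rr

/-- the coefficient of `s2` -/
private noncomputable def A5_V (b d : ℝ) : ℝ := (b + d) / 2 + (b - d) / 2 - (b - d) ^ 3 / 6
    + (d - d ^ 2 / 2 - d ^ 3 / 6)
    - (b + d) + b * d + 89 / 300 * (b + d) - 178 / 300 * (b * d) + (b ^ 2 + d ^ 2) / 3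
    - b ^ 2 / 2 + b * (b + d) ^ 2 - 2 * b ^ 2 * (b + d)

private noncomputable def A5_E (r b d : ℝ) : ℝ :=
  -2 * (b + d) + r / 2 * (b + d) + 2 * b * d + 5639 / 10000 * (b + d)
      + (r * (b - d) / 2 + (b - d) ^ 2 / 2 - r * (b - d) ^ 3 / 6 - 1 / 10000 * (b + d))
      + (r * d - r * d ^ 2 / 2 - r * d ^ 3 / 6 - 5 / 10000 * d)
      + ((3 - 2 * r) / 2 * (b + d) - (2 - r) * (b * d) - 89 / 300 * (3 / 2 - r) * (b + d)
      + 89 / 300 * (4 * (1 - r / 2)) * (b * d) - 89 / 300 * (b * d) * (b + d)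
      - 2 / 3 * (1 - r / 2) * (b ^ 2 + d ^ 2) + 2 / 3 * (b * d) * (b + d)
      - r * b ^ 2 / 2 - 3 / 10 * d ^ 3 + b ^ 3 - 8 / 5 * (b - d) ^ 2 * (b + d))
      + (-(2 * b * (b + d)) + r * b * (b + d) ^ 2 - 4 / 3 * b * (b + d) ^ 3 - 1 / 5000 * b)
      + (2 * b ^ 2 - 2 * r * b ^ 2 * (b + d))

private lemma A5_EV (r r0 b d : ℝ) : A5_E r b d = A5_E r0 b d + (r - r0) * A5_V b d := by
  unfold A5_E A5_V
  ring

private lemma A5_Vb (b d : ℝ) (hb : 0 ≤ b) (hd : 0 ≤ d) (hbd : b + d ≤ 1 / 16) :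
    -3 * (b + d) ≤ A5_V b d := by
  have hs0 : 0 ≤ b + d := by linarith
  have h2 : (b - d) ^ 3 ≤ b + d := by
    have h3 : (b - d) ^ 3 ≤ b ^ 3 := by
      have h5 : 0 ≤ b ^ 3 - (b - d) ^ 3 := by
        have : b ^ 3 - (b - d) ^ 3 = d * (b ^ 2 + b * (b - d) + (b - d) ^ 2) := by ring
        rw [this]
        refine mul_nonneg hd ?_
        nlinarith [sq_nonneg (b + (b - d) / 2), sq_nonneg (b - d)]
      linarith
    have h4 : b ^ 3 ≤ 1 * b := by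
      rw [pow_succ]
      exact mul_le_mul_of_nonneg_right (by nlinarith) hb
    linarith
  have h3 : d ^ 3 ≤ 1 * d := by
    rw [pow_succ]
    exact mul_le_mul_of_nonneg_right (by nlinarith) hd
  have h3' : d ^ 2 ≤ 1 * d := by
    rw [pow_succ, pow_one]
    exact mul_le_mul_of_nonneg_right (by linarith) hd
  have h3'' : b ^ 2 ≤ 1 * b := by
    rw [pow_succ, pow_one]
    exact mul_le_mul_of_nonneg_right (by linarith) hb
  have h4 : 0 ≤ b * (b + d) ^ 2 := by positivity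
  have h5 : b ^ 2 * (b + d) ≤ 1 / 4 * (b + d) :=
    mul_le_mul_of_nonneg_right (by nlinarith) hs0
  have h6 : 0 ≤ b * d := mul_nonneg hb hd
  have h7 : 0 ≤ b ^ 2 := by positivity
  have h8 : 0 ≤ d ^ 2 := by positivity
  unfold A5_V
  linarith

private lemma A5_rat (b d : ℝ) (hb : 0 ≤ b) (hd : 0 ≤ d) (hbd : b + d ≤ 1 / 16) :
    3 / 10000000 * (b + d) ≤ A5_E (14142135 / 10000000) b d := by
  have hs0 : 0 ≤ b + d := by linarith
  have hq : b * (b + d) ^ 3 ≤ b / 4096 := by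
    have h1 : (b + d) ^ 3 ≤ (1 / 16) ^ 3 := pow_le_pow_left₀ hs0 hbd 3
    have h2 := mul_le_mul_of_nonneg_left h1 hb
    norm_num at h2
    linarith
  have hb' : 0 ≤ 1 / 16 - b - d := by linarith
  have p1 := mul_nonneg hb hb'
  have p2 := mul_nonneg hd hb'
  have p3 := mul_nonneg (mul_nonneg hb hb) hb'
  have p4 := mul_nonneg (mul_nonneg hd hd) hb'
  have p5 := mul_nonneg (mul_nonneg hb hb) hd
  have p6 := mul_nonneg (mul_nonneg hb hd) hd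
  have p7 := mul_nonneg hb hb
  have p8 := mul_nonneg hd hd
  have p9 := sq_nonneg (b - d)
  have e : A5_E (14142135 / 10000000) b d = A5_E (14142135 / 10000000) b d
    - (- 4 / 3 * (b * (b + d) ^ 3)) + (- 4 / 3 * (b * (b + d) ^ 3)) := by ring
  have e2 : A5_E (14142135 / 10000000) b d - (- 4 / 3 * (b * (b + d) ^ 3)) ≥
    4 / 3 * (b / 4096) + 3 / 10000000 * (b + d) := by
    unfold A5_E
    ring_nf
    ring_nf at p1 p2 p3 p4 p5 p6 p7 p8 p9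
    linarith
  rw [e]
  linarith

lemma A5_key (r b d : ℝ) (r1 : 14142135 / 10000000 < r) (r2 : r < 14142136 / 10000000)
    (hb : 0 ≤ b) (hd : 0 ≤ d) (hbd : b + d ≤ 1 / 16) : 0 ≤ A5_E r b d := by
  have hs0 : 0 ≤ b + d := by linarith
  have h1 : 0 ≤ r - 14142135 / 10000000 := by linarith
  have h2 : r - 14142135 / 10000000 ≤ 1 / 10000000 := by linarith
  have h3 := mul_le_mul_of_nonneg_left (A5_Vb b d hb hd hbd) h1
  have h4 := mul_le_mul_of_nonneg_right h2 hs0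
  have h5 := A5_rat b d hb hd hbd
  rw [A5_EV r (14142135 / 10000000) b d]
  have h6 : (r - 14142135 / 10000000) * (-3 * (b + d)) =
      -3 * ((r - 14142135 / 10000000) * (b + d)) := by ring
  rw [h6] at h3
  linarith

theorem G1_nonneg (b d : ℝ) (hb : 0 ≤ b) (hd : 0 ≤ d) (hbd : b + d ≤ 1 / 16) :
    0 ≤ G1 b d := by
  have U1 := A5_U1 s2 b d (b + d) s2_lt s2_pos s2_sq rfl hb hd hbd
  have U2 := A5_U2 s2 d s2_lt s2_pos hd (by linarith)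
  have U3 := A5_U3 s2 b (b + d) s2_lt s2_pos s2_sq hb (by linarith) hbd
  have U4 := A5_U4 s2 b (b + d) (mul_nonneg s2_pos.le (by linarith))
  have U5 := A5_U5 s2 (b + d) s2_gt (by linarith)
  have U6 := A5_U6 s2 b d s2_sq
  have key := A5_key s2 b d s2_gt s2_lt hb hd hbd
  unfold A5_E at key
  have hx0 : x0 = 1 - s2 / 2 := rfl
  unfold G1
  rw [hx0]
  have hx1 : -(1 + (1 - s2 / 2)) * (b + d) = -2 * (b + d) + s2 / 2 * (b + d) := by ring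
  rw [hx1]
  linarith [U1, U2, U3, U4, U5, U6, key]

end Pool.H47.Oc
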