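import Pool.Agent.H47.Oc.Basic

/-! # B1: the sector function `Ar`

`Ar_le_vol`: extend a partition of `[a,b]` by the point `a + π` (and constantly after), the new
term `cr (Gp b) (Gp (a+π))` is `≥ 0` (`SN.Gp_cr`, `Gp_pi`, `cr_self`), then `SN.poly_le`.
In particular the set in `Ar` is bounded above (`b ≤ a + π`) and nonempty (`n = 1`).
`Ar_add`: concatenate two partitions (`fun i => if i ≤ n then t i else t' (i - n)`, after making
both constant beyond their last index: `fun i => t (min i n)`), then `csSup_add_csSup`-like argument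
(for all elements `S, S'` of the two sets `S + S' ≤ Ar a c`). -/

set_option autoImplicit false

namespace Pool.H47.Oc

open Complex Finset MeasureTheory Pool.H61.Rh

private lemma B1_cr {ν : ℂ → ℝ} (h : SN ν) (s u : ℝ) (h1 : s ≤ u) (h2 : u ≤ s + Real.pi) :
    0 ≤ cr (Gp ν s) (Gp ν u) := by
  rcases eq_or_lt_of_le h1 with rfl | h1
  · rw [cr_self]
  · rcases eq_or_lt_of_le h2 with rfl | h2
    · rw [h.Gp_pi, cr_neg_right, cr_self, neg_zero]
    · exact (h.Gp_cr s u h1 h2).le

private lemma B1_bd {ν : ℂ → ℝ} (h : SN ν) (n : ℕ) (t : ℕ → ℝ) (ht : Monotone t)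
    (hn : t n ≤ t 0 + Real.pi) : Sm ν n t ≤ (volume {z : ℂ | ν z ≤ 1}).toReal := by
  have hpi := Real.pi_pos
  have hmono : Monotone (fun i => if i ≤ n then t i else t 0 + Real.pi) := by
    intro i j hij
    by_cases hj : j ≤ n
    · have hi : i ≤ n := hij.trans hj
      simp only [hi, hj, if_true]
      exact ht hij
    · by_cases hi : i ≤ n
      · simp only [hi, hj, if_true, if_false]
        exact (ht hi).trans hn
      · simp only [hi, hj, if_false]
        exact le_rfl
  have h1 := h.poly_le (n + 1) (fun i => if i ≤ n then t i else t 0 + Real.pi) hmono (by simp)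
  rw [Finset.sum_range_succ] at h1
  have h2 : ∑ i ∈ Finset.range n, cr (Gp ν (if i ≤ n then t i else t 0 + Real.pi))
      (Gp ν (if i + 1 ≤ n then t (i + 1) else t 0 + Real.pi)) = Sm ν n t := by
    unfold Sm
    refine Finset.sum_congr rfl fun i hi => ?_
    have hi' : i + 1 ≤ n := Finset.mem_range.1 hi
    rw [if_pos (by omega), if_pos hi']
  have h3 : 0 ≤ cr (Gp ν (if n ≤ n then t n else t 0 + Real.pi))
      (Gp ν (if n + 1 ≤ n then t (n + 1) else t 0 + Real.pi)) := by
    rw [if_pos le_rfl, if_neg (by omega)]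
    exact B1_cr h _ _ hn (by linarith [ht (Nat.zero_le n)])
  rw [h2] at h1
  linarith

private lemma B1_bdd {ν : ℂ → ℝ} (h : SN ν) (a b : ℝ) (h2 : b ≤ a + Real.pi) :
    BddAbove {S : ℝ | ∃ (n : ℕ) (t : ℕ → ℝ), Monotone t ∧ t 0 = a ∧ t n = b ∧ S = Sm ν n t} := by
  refine ⟨(volume {z : ℂ | ν z ≤ 1}).toReal, ?_⟩
  rintro S ⟨n, t, ht, rfl, rfl, rfl⟩
  exact B1_bd h n t ht h2

private lemma B1_ne {ν : ℂ → ℝ} (a b : ℝ) (h1 : a ≤ b) :
    cr (Gp ν a) (Gp ν b) ∈
      {S : ℝ | ∃ (n : ℕ) (t : ℕ → ℝ), Monotone t ∧ t 0 = a ∧ t n = b ∧ S = Sm ν n t} := by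
  refine ⟨1, fun i => if i = 0 then a else b, ?_, by simp, by simp, ?_⟩
  · intro i j hij
    by_cases hj : j = 0
    · have hi : i = 0 := by omega
      simp only [hi, hj]
      exact le_rfl
    · by_cases hi : i = 0
      · simp only [hi, hj, if_true, if_false]
        exact h1
      · simp only [hi, hj, if_false]
        exact le_rfl
  · unfold Sm
    simp

theorem le_Ar {ν : ℂ → ℝ} (h : SN ν) (n : ℕ) (t : ℕ → ℝ) (ht : Monotone t)
    (hn : t n ≤ t 0 + Real.pi) : Sm ν n t ≤ Ar ν (t 0) (t n) := by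
  exact le_csSup (B1_bdd h (t 0) (t n) hn) ⟨n, t, ht, rfl, rfl, rfl⟩

theorem Ar_nonneg {ν : ℂ → ℝ} (h : SN ν) (a b : ℝ) (h1 : a ≤ b) (h2 : b ≤ a + Real.pi) :
    0 ≤ Ar ν a b := by
  exact (B1_cr h a b h1 h2).trans (le_csSup (B1_bdd h a b h2) (B1_ne a b h1))

theorem Ar_le_vol {ν : ℂ → ℝ} (h : SN ν) (a b : ℝ) (h1 : a ≤ b) (h2 : b ≤ a + Real.pi) :
    Ar ν a b ≤ (volume {z : ℂ | ν z ≤ 1}).toReal := by
  refine csSup_le ⟨_, B1_ne a b h1⟩ ?_
  rintro S ⟨n, t, ht, rfl, rfl, rfl⟩
  exact B1_bd h n t ht h2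

theorem Ar_add {ν : ℂ → ℝ} (h : SN ν) (a b c : ℝ) (h1 : a ≤ b) (h2 : b ≤ c)
    (h3 : c ≤ a + Real.pi) : Ar ν a b + Ar ν b c ≤ Ar ν a c := by
  have key : ∀ (n : ℕ) (t : ℕ → ℝ) (n' : ℕ) (t' : ℕ → ℝ), Monotone t → t 0 = a → t n = b →
      Monotone t' → t' 0 = b → t' n' = c → Sm ν n t + Sm ν n' t' ≤ Ar ν a c := by
    intro n t n' t' ht ht0 htn ht' ht0' htn'
    have hmono : Monotone (fun i => if i ≤ n then t i else t' (i - n)) := by
      intro i j hij
      by_cases hj : j ≤ n
      · have hi : i ≤ n := hij.trans hj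
        simp only [hi, hj, if_true]
        exact ht hij
      · by_cases hi : i ≤ n
        · simp only [hi, hj, if_true, if_false]
          calc t i ≤ t n := ht hi
            _ = t' 0 := by rw [htn, ht0']
            _ ≤ t' (j - n) := ht' (Nat.zero_le _)
        · simp only [hi, hj, if_false]
          exact ht' (by omega)
    have e0 : (fun i => if i ≤ n then t i else t' (i - n)) 0 = a := by
      simp [ht0]
    have e1 : (fun i => if i ≤ n then t i else t' (i - n)) (n + n') = c := by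
      by_cases hn' : n' = 0
      · subst hn'
        simp only [add_zero, le_refl, if_true]
        rw [htn, ← ht0', htn']
      · have : ¬ (n + n' ≤ n) := by omega
        simp only [this, if_false]
        rw [Nat.add_sub_cancel_left, htn']
    have e2 : Sm ν (n + n') (fun i => if i ≤ n then t i else t' (i - n)) =
        Sm ν n t + Sm ν n' t' := by
      unfold Sm
      rw [Finset.sum_range_add]
      congr 1
      · refine Finset.sum_congr rfl fun i hi => ?_
        have hi' : i + 1 ≤ n := Finset.mem_range.1 hi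
        show cr (Gp ν (if i ≤ n then t i else t' (i - n)))
          (Gp ν (if i + 1 ≤ n then t (i + 1) else t' (i + 1 - n))) = _
        rw [if_pos (by omega), if_pos hi']
      · refine Finset.sum_congr rfl fun i _ => ?_
        have e3 : (if n + i ≤ n then t (n + i) else t' (n + i - n)) = t' i := by
          by_cases hi0 : i = 0
          · subst hi0
            rw [add_zero, if_pos le_rfl, htn, ht0']
          · rw [if_neg (by omega), Nat.add_sub_cancel_left]
        have e4 : (if n + i + 1 ≤ n then t (n + i + 1) else t' (n + i + 1 - n)) = t' (i + 1) := by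
          rw [if_neg (by omega)]
          congr 1
          omega
        show cr (Gp ν (if n + i ≤ n then t (n + i) else t' (n + i - n)))
          (Gp ν (if n + i + 1 ≤ n then t (n + i + 1) else t' (n + i + 1 - n))) = _
        rw [e3, e4]
    rw [← e2]
    exact le_csSup (B1_bdd h a c h3) ⟨n + n', _, hmono, e0, e1, rfl⟩
  have h4 : Ar ν a b ≤ Ar ν a c - Ar ν b c := by
    refine csSup_le ⟨_, B1_ne a b h1⟩ ?_
    rintro S ⟨n, t, ht, ht0, htn, rfl⟩
    have h5 : Ar ν b c ≤ Ar ν a c - Sm ν n t := by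
      refine csSup_le ⟨_, B1_ne b c h2⟩ ?_
      rintro S' ⟨n', t', ht', ht0', htn', rfl⟩
      have := key n t n' t' ht ht0 htn ht' ht0' htn'
      linarith
    linarith
  linarith

theorem Ar_pi {ν : ℂ → ℝ} (h : SN ν) (a b : ℝ) : Ar ν (a + Real.pi) (b + Real.pi) = Ar ν a b := by
  have hcr : ∀ x y : ℝ, cr (Gp ν (x + Real.pi)) (Gp ν (y + Real.pi)) = cr (Gp ν x) (Gp ν y) := by
    intro x y
    rw [h.Gp_pi, h.Gp_pi, cr_neg_left, cr_neg_right, neg_neg]
  unfold Ar
  congr 1
  ext S
  constructor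
  · rintro ⟨n, t, ht, ht0, htn, rfl⟩
    refine ⟨n, fun i => t i - Real.pi, fun i j hij => sub_le_sub_right (ht hij) _,
      by simp [ht0], by simp [htn], ?_⟩
    unfold Sm
    refine Finset.sum_congr rfl fun i _ => ?_
    rw [← hcr (t i - Real.pi) (t (i + 1) - Real.pi), sub_add_cancel, sub_add_cancel]
  · rintro ⟨n, t, ht, ht0, htn, rfl⟩
    refine ⟨n, fun i => t i + Real.pi, fun i j hij => by
      have := ht hij
      simp only
      linarith,
      by simp [ht0], by simp [htn], ?_⟩
    unfold Sm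
    exact Finset.sum_congr rfl fun i _ => (hcr _ _).symm

end Pool.H47.Oc
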