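import Pool.Agent.H47.Oc.Basic

/-! # B2: monotonicity on a side

`side_q`: `M = ee (k+1)`, `M' = ee k`, `v = Gp t`, `w = Gp s`, coordinates `H z = dt M z`,
`X z = cr z M` (so `z = M (H - i X)`, `dt M' z = (H z + X z)/s2`, `cr M' z = (H z - X z)/s2`).
If `s < t < th (k+1)`: `v = α M + β w` with `α, β > 0` (`SN.Gp_comb`, `ON.Gp_th`) and
`1 = ν v ≤ α + β`; `H v = α + β H w ≥ (α+β) H w ≥ H w` (`0 ≤ H w ≤ 1`);
`X v = β X w`, `1 - H v ≤ β (1 - H w)` give the chord inequality.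
If `th k < s < t`: `w = α v + β M'`, `α + β ≥ 1`: `X w = α X v + β s2/2 ≥ (α+β) X v` because
`X v ≤ s2/2` (`H + X ≤ s2`, `H ≥ X`), and `dt M' w = α dt M' v + β ≥ dt M' v`
(`0 ≤ dt M' v ≤ 1`) is the slope inequality.  The cases of equal angles are trivial or follow
from `low` and the signs.
`side_r` is the mirror image (`M = ee k`, `M' = ee (k+1)`, `y z = cr M z`,
`z = M (H + i y)`, `dt M' z = (H + y)/s2`). -/

set_option autoImplicit false

namespace Pool.H47.Oc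

open Complex Finset Pool.H61.Rh

private lemma B2_dt_add (x y z : ℂ) : dt x (y + z) = dt x y + dt x z := by
  simp only [dt, add_re, add_im]; ring

private lemma B2_dt_smul (r : ℝ) (x y : ℂ) : dt x (r * y) = r * dt x y := by
  simp only [dt, mul_re, mul_im, ofReal_re, ofReal_im]; ring

private lemma B2_dt_self (k : ℕ) : dt (ee k) (ee k) = 1 := by
  have h := normSq_ee k
  rw [normSq_apply] at h
  simpa only [dt] using h

private lemma B2_re (k : ℕ) : (ee (k + 1)).re = s2 / 2 * ((ee k).re - (ee k).im) := by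
  rw [ee_succ, mul_re, w8_re, w8_im]; ring

private lemma B2_im (k : ℕ) : (ee (k + 1)).im = s2 / 2 * ((ee k).re + (ee k).im) := by
  rw [ee_succ, mul_im, w8_re, w8_im]; ring

/-- `dt M' z`, `cr M' z` in terms of `H z`, `X z` -/
private lemma B2_q1 (k : ℕ) (z : ℂ) :
    dt (ee k) z = s2 / 2 * (dt (ee (k + 1)) z + cr z (ee (k + 1))) := by
  simp only [dt, cr, B2_re, B2_im]
  linear_combination (-(1 / 2) * ((ee k).re * z.re + (ee k).im * z.im)) * s2_mul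

private lemma B2_q2 (k : ℕ) (z : ℂ) :
    cr (ee k) z = s2 / 2 * (dt (ee (k + 1)) z - cr z (ee (k + 1))) := by
  simp only [dt, cr, B2_re, B2_im]
  linear_combination (-(1 / 2) * ((ee k).re * z.im - (ee k).im * z.re)) * s2_mul

/-- `dt M' z`, `cr z M'` in terms of `H z`, `y z` (mirror image) -/
private lemma B2_r1 (k : ℕ) (z : ℂ) :
    dt (ee (k + 1)) z = s2 / 2 * (dt (ee k) z + cr (ee k) z) := by
  simp only [dt, cr, B2_re, B2_im]; ring

private lemma B2_r2 (k : ℕ) (z : ℂ) :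
    cr z (ee (k + 1)) = s2 / 2 * (dt (ee k) z - cr (ee k) z) := by
  simp only [dt, cr, B2_re, B2_im]; ring

private lemma B2_cr_ee (k : ℕ) : cr (ee k) (ee (k + 1)) = s2 / 2 := by
  have h := B2_dt_self k
  have h2 := B2_r2 k (ee k)
  rw [h, cr_self] at h2
  linarith

private lemma B2_tri {ν : ℂ → ℝ} (h : ON ν) (α β : ℝ) (x y z : ℂ) (hα : 0 ≤ α) (hβ : 0 ≤ β)
    (hx : ν x = 1) (hy : ν y = 1) (hz : ν z = 1) (he : z = α * x + β * y) : 1 ≤ α + β := by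
  have h1 := h.sn.tri (α * x) (β * y)
  rw [← he, hz, h.sn.hom, h.sn.hom, hx, hy, abs_of_nonneg hα, abs_of_nonneg hβ] at h1
  linarith

/-- right combination -/
private lemma B2_right {ν : ℂ → ℝ} (h : ON ν) (k : ℕ) (s t : ℝ) (h1 : th k ≤ s) (h2 : s ≤ t)
    (h3 : t ≤ th (k + 1)) :
    ∃ α β : ℝ, 0 ≤ α ∧ 0 ≤ β ∧ 1 ≤ α + β ∧ Gp ν t = α * Gp ν s + β * ee (k + 1) := by
  have hpi := Real.pi_pos
  have hs := th_succ k
  rcases h2.eq_or_lt with h2 | h2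
  · refine ⟨1, 0, zero_le_one, le_refl _, by norm_num, ?_⟩
    rw [h2]; push_cast; ring
  · rcases h3.eq_or_lt with h3 | h3
    · refine ⟨0, 1, le_refl _, zero_le_one, by norm_num, ?_⟩
      rw [h3, h.Gp_th]; push_cast; ring
    · obtain ⟨α, β, ha, hb, he⟩ := h.sn.Gp_comb s t (th (k + 1)) h2 h3 (by linarith)
      rw [h.Gp_th] at he
      exact ⟨α, β, ha.le, hb.le, B2_tri h α β _ _ _ ha.le hb.le (h.sn.Gp_norm s) (h.up _)
        (h.sn.Gp_norm t) he, he⟩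

/-- left combination -/
private lemma B2_left {ν : ℂ → ℝ} (h : ON ν) (k : ℕ) (s t : ℝ) (h1 : th k ≤ s) (h2 : s ≤ t)
    (h3 : t ≤ th (k + 1)) :
    ∃ α β : ℝ, 0 ≤ α ∧ 0 ≤ β ∧ 1 ≤ α + β ∧ Gp ν s = α * ee k + β * Gp ν t := by
  have hpi := Real.pi_pos
  have hs := th_succ k
  rcases h2.eq_or_lt with h2 | h2
  · refine ⟨0, 1, le_refl _, zero_le_one, by norm_num, ?_⟩
    rw [h2]; push_cast; ring
  · rcases h1.eq_or_lt with h1 | h1
    · refine ⟨1, 0, zero_le_one, le_refl _, by norm_num, ?_⟩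
      rw [← h1, h.Gp_th]; push_cast; ring
    · obtain ⟨α, β, ha, hb, he⟩ := h.sn.Gp_comb (th k) s t h1 h2 (by linarith)
      rw [h.Gp_th] at he
      exact ⟨α, β, ha.le, hb.le, B2_tri h α β _ _ _ ha.le hb.le (h.up _) (h.sn.Gp_norm t)
        (h.sn.Gp_norm s) he, he⟩

private lemma B2_pt {ν : ℂ → ℝ} (h : ON ν) (k : ℕ) (t : ℝ) (h1 : th k ≤ t)
    (h3 : t ≤ th (k + 1)) :
    0 ≤ cr (ee k) (Gp ν t) ∧ 0 ≤ cr (Gp ν t) (ee (k + 1)) ∧
    dt (ee k) (Gp ν t) ≤ 1 ∧ dt (ee (k + 1)) (Gp ν t) ≤ 1 := by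
  have hpi := Real.pi_pos
  have hs := th_succ k
  have hn := h.sn.Gp_norm t
  refine ⟨?_, ?_, ?_, ?_⟩
  · rcases h1.eq_or_lt with h1 | h1
    · rw [← h1, h.Gp_th, cr_self]
    · have := h.sn.Gp_cr (th k) t h1 (by linarith)
      rw [h.Gp_th] at this
      exact this.le
  · rcases h3.eq_or_lt with h3 | h3
    · rw [h3, h.Gp_th, cr_self]
    · have := h.sn.Gp_cr t (th (k + 1)) h3 (by linarith)
      rw [h.Gp_th] at this
      exact this.le
  · have := h.low k (Gp ν t)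
    rwa [hn] at this
  · have := h.low (k + 1) (Gp ν t)
    rwa [hn] at this

theorem ON.side_q {ν : ℂ → ℝ} (h : ON ν) (k : ℕ) (s t : ℝ) (h1 : th k ≤ s) (h2 : s ≤ t)
    (h3 : t ≤ th (k + 1)) :
    dt (ee (k + 1)) (Gp ν s) ≤ dt (ee (k + 1)) (Gp ν t) ∧
    cr (Gp ν t) (ee (k + 1)) ≤ cr (Gp ν s) (ee (k + 1)) ∧
    dt (ee (k + 1)) (Gp ν t) - dt (ee (k + 1)) (Gp ν s) ≤
      cr (Gp ν s) (ee (k + 1)) - cr (Gp ν t) (ee (k + 1)) ∧
    (1 - dt (ee (k + 1)) (Gp ν t)) * cr (Gp ν s) (ee (k + 1)) ≤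
      (1 - dt (ee (k + 1)) (Gp ν s)) * cr (Gp ν t) (ee (k + 1)) ∧
    0 ≤ cr (Gp ν t) (ee (k + 1)) ∧ dt (ee (k + 1)) (Gp ν t) ≤ 1 := by
  have hp := s2_pos
  have hm := s2_mul
  obtain ⟨v1, v2, v3, v4⟩ := B2_pt h k t (h1.trans h2) h3
  obtain ⟨w1, w2, w3, w4⟩ := B2_pt h k s h1 (h2.trans h3)
  obtain ⟨α, β, ha, hb, hab, he⟩ := B2_right h k s t h1 h2 h3
  obtain ⟨α', β', ha', hb', hab', he'⟩ := B2_left h k s t h1 h2 h3
  have eH : dt (ee (k + 1)) (Gp ν t) = α * dt (ee (k + 1)) (Gp ν s) + β := by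
    conv_lhs => rw [he]
    rw [B2_dt_add, B2_dt_smul, B2_dt_smul, B2_dt_self, mul_one]
  have eX : cr (Gp ν t) (ee (k + 1)) = α * cr (Gp ν s) (ee (k + 1)) := by
    conv_lhs => rw [he]
    rw [cr_add_left, cr_smul_left, cr_smul_left, cr_self, mul_zero, add_zero]
  have eX' : cr (Gp ν s) (ee (k + 1)) = α' * (s2 / 2) + β' * cr (Gp ν t) (ee (k + 1)) := by
    conv_lhs => rw [he']
    rw [cr_add_left, cr_smul_left, cr_smul_left, B2_cr_ee]
  have eD' : dt (ee k) (Gp ν s) = α' + β' * dt (ee k) (Gp ν t) := by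
    conv_lhs => rw [he']
    rw [B2_dt_add, B2_dt_smul, B2_dt_smul, B2_dt_self, mul_one]
  rw [B2_q1] at v3 w3
  rw [B2_q2] at v1 w1
  rw [B2_q1, B2_q1 k (Gp ν t)] at eD'
  generalize dt (ee (k + 1)) (Gp ν t) = Hv at *
  generalize dt (ee (k + 1)) (Gp ν s) = Hw at *
  generalize cr (Gp ν t) (ee (k + 1)) = Xv at *
  generalize cr (Gp ν s) (ee (k + 1)) = Xw at *
  have hp2 : (0 : ℝ) < s2 / 2 := by linarith
  have v1' : Xv ≤ Hv := by
    have := (mul_nonneg_iff_of_pos_left hp2).mp v1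
    linarith
  have w1' : Xw ≤ Hw := by
    have := (mul_nonneg_iff_of_pos_left hp2).mp w1
    linarith
  have hXv : Xv ≤ s2 / 2 := by nlinarith
  refine ⟨?_, ?_, ?_, ?_, v2, v4⟩
  · rw [eH]
    nlinarith [mul_nonneg hb (sub_nonneg.mpr w4), mul_nonneg (sub_nonneg.mpr hab) (w2.trans w1')]
  · rw [eX']
    nlinarith [mul_nonneg ha' (sub_nonneg.mpr hXv), mul_nonneg (sub_nonneg.mpr hab') v2]
  · have h5 : s2 / 2 * (Hv + Xv) ≤ s2 / 2 * (Hw + Xw) := by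
      rw [eD']
      have h6 : 0 ≤ s2 / 2 * (Hv + Xv) := mul_nonneg hp2.le (by linarith)
      nlinarith [mul_nonneg ha' (sub_nonneg.mpr v3), mul_nonneg (sub_nonneg.mpr hab') h6]
    have h7 := le_of_mul_le_mul_left h5 hp2
    linarith
  · have h5 : 1 - Hv ≤ α * (1 - Hw) := by rw [eH]; linarith
    calc (1 - Hv) * Xw ≤ α * (1 - Hw) * Xw := mul_le_mul_of_nonneg_right h5 w2
      _ = (1 - Hw) * Xv := by rw [eX]; ring

theorem ON.side_r {ν : ℂ → ℝ} (h : ON ν) (k : ℕ) (s t : ℝ) (h1 : th k ≤ s) (h2 : s ≤ t)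
    (h3 : t ≤ th (k + 1)) :
    dt (ee k) (Gp ν t) ≤ dt (ee k) (Gp ν s) ∧
    cr (ee k) (Gp ν s) ≤ cr (ee k) (Gp ν t) ∧
    dt (ee k) (Gp ν s) - dt (ee k) (Gp ν t) ≤
      cr (ee k) (Gp ν t) - cr (ee k) (Gp ν s) ∧
    (1 - dt (ee k) (Gp ν s)) * cr (ee k) (Gp ν t) ≤
      (1 - dt (ee k) (Gp ν t)) * cr (ee k) (Gp ν s) ∧
    0 ≤ cr (ee k) (Gp ν s) ∧ dt (ee k) (Gp ν s) ≤ 1 := by
  have hp := s2_pos
  have hm := s2_mul
  obtain ⟨v1, v2, v3, v4⟩ := B2_pt h k t (h1.trans h2) h3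
  obtain ⟨w1, w2, w3, w4⟩ := B2_pt h k s h1 (h2.trans h3)
  obtain ⟨α, β, ha, hb, hab, he⟩ := B2_right h k s t h1 h2 h3
  obtain ⟨α', β', ha', hb', hab', he'⟩ := B2_left h k s t h1 h2 h3
  have eH : dt (ee k) (Gp ν s) = α' + β' * dt (ee k) (Gp ν t) := by
    conv_lhs => rw [he']
    rw [B2_dt_add, B2_dt_smul, B2_dt_smul, B2_dt_self, mul_one]
  have eX : cr (ee k) (Gp ν s) = β' * cr (ee k) (Gp ν t) := by
    conv_lhs => rw [he']
    rw [cr_add_right, cr_smul_right, cr_smul_right, cr_self, mul_zero, zero_add]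
  have eX' : cr (ee k) (Gp ν t) = α * cr (ee k) (Gp ν s) + β * (s2 / 2) := by
    conv_lhs => rw [he]
    rw [cr_add_right, cr_smul_right, cr_smul_right, B2_cr_ee]
  have eD' : dt (ee (k + 1)) (Gp ν t) = α * dt (ee (k + 1)) (Gp ν s) + β := by
    conv_lhs => rw [he]
    rw [B2_dt_add, B2_dt_smul, B2_dt_smul, B2_dt_self, mul_one]
  rw [B2_r1] at v4 w4
  rw [B2_r2] at v2 w2
  rw [B2_r1, B2_r1 k (Gp ν s)] at eD'
  generalize dt (ee k) (Gp ν t) = Hv at *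
  generalize dt (ee k) (Gp ν s) = Hw at *
  generalize cr (ee k) (Gp ν t) = Xv at *
  generalize cr (ee k) (Gp ν s) = Xw at *
  have hp2 : (0 : ℝ) < s2 / 2 := by linarith
  have v1' : Xv ≤ Hv := by
    have := (mul_nonneg_iff_of_pos_left hp2).mp v2
    linarith
  have w1' : Xw ≤ Hw := by
    have := (mul_nonneg_iff_of_pos_left hp2).mp w2
    linarith
  have hXw : Xw ≤ s2 / 2 := by nlinarith
  refine ⟨?_, ?_, ?_, ?_, w1, w3⟩
  · rw [eH]
    nlinarith [mul_nonneg ha' (sub_nonneg.mpr v3), mul_nonneg (sub_nonneg.mpr hab') (v1.trans v1')]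
  · rw [eX']
    nlinarith [mul_nonneg hb (sub_nonneg.mpr hXw), mul_nonneg (sub_nonneg.mpr hab) w1]
  · have h5 : s2 / 2 * (Hw + Xw) ≤ s2 / 2 * (Hv + Xv) := by
      rw [eD']
      have h6 : 0 ≤ s2 / 2 * (Hw + Xw) := mul_nonneg hp2.le (by linarith)
      nlinarith [mul_nonneg hb (sub_nonneg.mpr w4), mul_nonneg (sub_nonneg.mpr hab) h6]
    have h7 := le_of_mul_le_mul_left h5 hp2
    linarith
  · have h5 : 1 - Hw ≤ β' * (1 - Hv) := by rw [eH]; linarith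
    calc (1 - Hw) * Xv ≤ β' * (1 - Hv) * Xv := mul_le_mul_of_nonneg_right h5 v1
      _ = (1 - Hv) * Xw := by rw [eX]; ring

end Pool.H47.Oc
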