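import Pool.Agent.H47.Oc.B3a

/-! # B3: order of the hexagons with vertices `ee k` (last paragraph)

`P = Gp (σ (th k))`, `Q = ee k - P`; `ν P = ν Q = 1` (`NV.one`, `ON.Gp_th`, `SN.neg`).
With `P = ee (k+1) * ((1 - b) + i y)` one has `Q = ee (k+7) * ((s2/2 + y) + i (s2/2 - 1 + b))`
(`ee k = ee (k+1) * conj w8`, `ee (k+7) = - i ee (k+1)`); so `1 - d = s2/2 + y`.
`order`: `lt_of_cr`: for `u, v ∈ [a, a+π)` with `0 < cr (Gp u) (Gp v)` : `u < v` (otherwise
`Gp_cr` with the roles exchanged gives a contradiction).  `σ x ∈ (x, x+π)`, `σ (σ x) - π ∈ (x-π, x)`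
(`NV.cube`, `NV.gt`); `Gp (σ (σ (th (k+3))) - π) = Q` of index `k+3`, and `ee (k+10) = ee (k+2)`.
`cr (P_k) (Q_{k+3}) > 0`: with `y, x ≤ x0`, `1-b, 1-d ≥ 15/16` the value is
`((1-b) Y - y x) - ((1-b) x + y Y)` over `s2`, `≥ 0.2/s2`. -/

set_option autoImplicit false

namespace Pool.H47.Oc

open Complex Finset Pool.H61.Rh

private lemma B3_dt_w8 (n x : ℂ) : dt (w8 * n) x = s2 / 2 * (dt n x + cr n x) := by
  simp only [dt, cr, mul_re, mul_im, w8_re, w8_im]
  ring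

private lemma B3_cr_w8 (n x : ℂ) : cr (w8 * n) x = s2 / 2 * (cr n x - dt n x) := by
  simp only [dt, cr, mul_re, mul_im, w8_re, w8_im]
  ring

private lemma B3_cr_frame (n x y : ℂ) (hn : normSq n = 1) :
    cr x y = dt n x * cr n y - cr n x * dt n y := by
  have h : cr x y = normSq n * cr x y := by rw [hn, one_mul]
  rw [h, normSq_apply]
  simp only [dt, cr]
  ring

private lemma B3_num (b d b' d' : ℝ) (_h1 : 0 ≤ b) (h2 : 0 ≤ d) (h3 : b + d ≤ 1 / 16)
    (h1' : 0 ≤ b') (h2' : 0 ≤ d') (h3' : b' + d' ≤ 1 / 16) :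
    0 < (1 - b) * ((1 - d') - (x0 - b')) - (x0 - d) * ((1 - d') + (x0 - b')) := by
  have e1 : 2928931 / 10000000 < x0 := by unfold x0; have := s2_lt; linarith
  have e2 : x0 < 2928933 / 10000000 := by unfold x0; have := s2_gt; linarith
  have a1 : 15 / 16 ≤ 1 - b := by linarith
  have a2 : 15 / 16 - 2928933 / 10000000 ≤ (1 - d') - (x0 - b') := by linarith
  have a3 : (15 / 16 : ℝ) * (15 / 16 - 2928933 / 10000000) ≤
      (1 - b) * ((1 - d') - (x0 - b')) := by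
    apply mul_le_mul a1 a2 (by norm_num) (by linarith)
  have a4 : (x0 - d) * ((1 - d') + (x0 - b')) ≤
      (2928933 / 10000000 : ℝ) * (1 + 2928933 / 10000000) := by
    apply mul_le_mul (by linarith) (by linarith) (by linarith) (by norm_num)
  have a5 : (2928933 / 10000000 : ℝ) * (1 + 2928933 / 10000000) <
      (15 / 16 : ℝ) * (15 / 16 - 2928933 / 10000000) := by norm_num
  linarith

theorem ON.order {ν : ℂ → ℝ} (h : ON ν) {σ : ℝ → ℝ} (hσ : NV ν σ) (m : ℝ)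
    (hm : 8702 / 10000 ≤ m) (hD : HD ν m) (k : ℕ) :
    th (k + 1) ≤ σ (th k) ∧ σ (th k) ≤ σ (σ (th (k + 3))) - Real.pi ∧
      σ (σ (th (k + 3))) - Real.pi ≤ th (k + 2) := by
  have hpi := Real.pi_pos
  have e1 : 2928931 / 10000000 < x0 := by unfold x0; have := s2_lt; linarith
  obtain ⟨hb, hd, hdt, hcr, -, -, -⟩ := h.data hσ k
  obtain ⟨-, -, hbd⟩ := h.data_m hσ m hm hD k
  obtain ⟨hb', hd', -, -, hdt', hcr', -⟩ := h.data hσ (k + 3)
  obtain ⟨-, -, hbd'⟩ := h.data_m hσ m hm hD (k + 3)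
  have t1 : th (k + 1) = th k + Real.pi / 4 := th_succ k
  have t2 : th (k + 2) = th k + 2 * (Real.pi / 4) := by
    have := th_succ (k + 1)
    rw [show k + 2 = (k + 1) + 1 from rfl, this, t1]
    ring
  have t3 : th (k + 3) = th k + 3 * (Real.pi / 4) := by
    have := th_succ (k + 2)
    rw [show k + 3 = (k + 2) + 1 from rfl, this, t2]
    ring
  have s1 := hσ.gt (th k)
  have s2' := hσ.lt (th k)
  have s3 := hσ.gt (th (k + 3))
  have s4 := hσ.gt (σ (th (k + 3)))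
  have s5 := hσ.gt (σ (σ (th (k + 3))))
  rw [hσ.cube] at s5
  have hQ : Gp ν (σ (σ (th (k + 3))) - Real.pi) = ee (k + 3) - Gp ν (σ (th (k + 3))) := by
    have h1 : Gp ν (σ (σ (th (k + 3)))) = - Gp ν (σ (σ (th (k + 3))) - Real.pi) := by
      rw [← h.sn.Gp_pi]
      congr 1
      ring
    have h2 := hσ.hex (th (k + 3))
    rw [h1, h.Gp_th] at h2
    rw [← neg_sub (Gp ν (σ (th (k + 3)))) (ee (k + 3)), ← h2, neg_neg]
  have hee : ee (k + 3 + 7) = ee (k + 2) := by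
    rw [show k + 3 + 7 = (k + 2) + 8 from by ring, ee_add_eight]
  rw [hee] at hdt' hcr'
  have hee2 : ee (k + 2) = w8 * ee (k + 1) := ee_succ (k + 1)
  have hee3 : ee (k + 3) = w8 * (w8 * ee (k + 1)) := by
    rw [← hee2]
    exact ee_succ (k + 2)
  -- first
  have g1 : th (k + 1) < σ (th k) := by
    apply lt_of_cr h.sn (th k) (th (k + 1)) (σ (th k)) (by linarith) (by linarith) (by linarith)
      s2'
    rw [h.Gp_th, hcr]
    linarith
  -- auxiliary
  have g0 : σ (th k) < th (k + 3) := by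
    apply lt_of_cr h.sn (th k) (σ (th k)) (th (k + 3)) (by linarith) (by linarith) (by linarith)
      (by linarith)
    rw [h.Gp_th, cr_swap, hee3, B3_cr_w8, B3_cr_w8, B3_dt_w8, hdt, hcr]
    have : s2 / 2 * (s2 / 2 * (x0 - dk ν σ k - (1 - bk ν σ k)) - s2 / 2 * (1 - bk ν σ k +
        (x0 - dk ν σ k))) = - (1 - bk ν σ k) * (s2 * s2) / 2 := by ring
    rw [this, s2_mul]
    linarith
  have g3 : σ (σ (th (k + 3))) - Real.pi < th (k + 2) := by
    apply lt_of_cr h.sn (th (k + 3) - Real.pi) _ _ (by linarith) (by linarith) (by linarith)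
      (by linarith)
    rw [h.Gp_th, hQ, hcr']
    linarith
  have g2 : σ (th k) < σ (σ (th (k + 3))) - Real.pi := by
    apply lt_of_cr h.sn (th (k + 3) - Real.pi) _ _ (by linarith) (by linarith) (by linarith)
      (by linarith)
    rw [hQ]
    rw [B3_cr_frame (ee (k + 1)) _ _ (normSq_ee _), hdt, hcr]
    have c1 : cr (ee (k + 2)) (ee (k + 3) - Gp ν (σ (th (k + 3)))) =
        -(x0 - bk ν σ (k + 3)) := by rw [cr_swap, hcr']
    rw [hee2, B3_cr_w8] at c1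
    rw [hee2, B3_dt_w8] at hdt'
    have hs := s2_pos
    have hmul := s2_mul
    obtain ⟨C, hC⟩ : ∃ C, C = cr (ee (k + 1)) (ee (k + 3) - Gp ν (σ (th (k + 3)))) := ⟨_, rfl⟩
    obtain ⟨D, hDD⟩ : ∃ D, D = dt (ee (k + 1)) (ee (k + 3) - Gp ν (σ (th (k + 3)))) := ⟨_, rfl⟩
    rw [← hC, ← hDD] at c1 hdt' ⊢
    have c2 : C = s2 / 2 * ((1 - dk ν σ (k + 3)) - (x0 - bk ν σ (k + 3))) := by
      rw [← hdt', show (x0 - bk ν σ (k + 3)) = - (s2 / 2 * (C - D)) from by rw [c1, neg_neg]]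
      have : s2 / 2 * (s2 / 2 * (D + C) - -(s2 / 2 * (C - D))) = C * (s2 * s2) / 2 := by ring
      rw [this, s2_mul]
      ring
    have c3 : D = s2 / 2 * ((1 - dk ν σ (k + 3)) + (x0 - bk ν σ (k + 3))) := by
      rw [← hdt', show (x0 - bk ν σ (k + 3)) = - (s2 / 2 * (C - D)) from by rw [c1, neg_neg]]
      have : s2 / 2 * (s2 / 2 * (D + C) + -(s2 / 2 * (C - D))) = D * (s2 * s2) / 2 := by ring
      rw [this, s2_mul]
      ring
    have hn := B3_num _ _ _ _ hb hd hbd hb' hd' hbd'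
    rw [c2, c3]
    have : (1 - bk ν σ k) * (s2 / 2 * ((1 - dk ν σ (k + 3)) - (x0 - bk ν σ (k + 3)))) -
        (x0 - dk ν σ k) * (s2 / 2 * ((1 - dk ν σ (k + 3)) + (x0 - bk ν σ (k + 3)))) =
        s2 / 2 * ((1 - bk ν σ k) * ((1 - dk ν σ (k + 3)) - (x0 - bk ν σ (k + 3))) -
        (x0 - dk ν σ k) * ((1 - dk ν σ (k + 3)) + (x0 - bk ν σ (k + 3)))) := by ring
    rw [this]
    exact mul_pos (by linarith) hn
  exact ⟨g1.le, g2.le, g3.le⟩

end Pool.H47.Oc
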