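import Pool.Agent.H47.Oc.Basic

/-! # B3a: the hexagon with vertex `ee k`

`P = Gp (σ (th k))`, `Q = ee k - P`; `ν P = ν Q = 1` (`NV.one`, `ON.Gp_th`, `SN.neg`).
With `P = ee (k+1) * ((1 - b) + i y)` one has `Q = ee (k+7) * ((s2/2 + y) + i (s2/2 - 1 + b))`
(`ee k = ee (k+1) * conj w8`, `ee (k+7) = - i ee (k+1)`); so `1 - d = s2/2 + y`.
`order`: `lt_of_cr`: for `u, v ∈ [a, a+π)` with `0 < cr (Gp u) (Gp v)` : `u < v` (otherwise
`Gp_cr` with the roles exchanged gives a contradiction).  `σ x ∈ (x, x+π)`, `σ (σ x) - π ∈ (x-π, x)`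
(`NV.cube`, `NV.gt`); `Gp (σ (σ (th (k+3))) - π) = Q` of index `k+3`, and `ee (k+10) = ee (k+2)`.
`cr (P_k) (Q_{k+3}) > 0`: with `y, x ≤ x0`, `1-b, 1-d ≥ 15/16` the value is
`((1-b) Y - y x) - ((1-b) x + y Y)` over `s2`, `≥ 0.2/s2`. -/

set_option autoImplicit false

namespace Pool.H47.Oc

open Complex Finset Pool.H61.Rh

theorem NV.add_pi {ν : ℂ → ℝ} {σ : ℝ → ℝ} (hσ : NV ν σ) (t : ℝ) :
    σ (t + Real.pi) = σ t + Real.pi := by
  rw [← hσ.cube t, hσ.cube (σ t)]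

theorem lt_of_cr {ν : ℂ → ℝ} (h : SN ν) (a u v : ℝ) (h1 : a ≤ u) (h2 : u < a + Real.pi)
    (h3 : a ≤ v) (h4 : v < a + Real.pi) (hc : 0 < cr (Gp ν u) (Gp ν v)) : u < v := by
  by_contra hcon
  push Not at hcon
  rcases hcon.lt_or_eq with hlt | heq
  · have h5 := h.Gp_cr v u hlt (by linarith)
    rw [cr_swap] at h5
    linarith
  · rw [heq, cr_self] at hc
    exact lt_irrefl _ hc

private lemma B3a_ee7 (k : ℕ) : ee (k + 7) = -(I * ee (k + 1)) := by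
  rw [show k + 7 = (k + 3) + 4 from rfl, ee_add_four]
  congr 1
  unfold ee
  rw [← w8_sq, ← pow_add]
  congr 1
  ring

private lemma B3a_n (k : ℕ) : (ee k).re * (ee k).re + (ee k).im * (ee k).im = 1 := by
  have := normSq_ee k
  rwa [normSq_apply] at this

private lemma B3a_re (k : ℕ) : (ee (k + 1)).re = s2 / 2 * (ee k).re - s2 / 2 * (ee k).im := by
  rw [ee_succ, mul_re, w8_re, w8_im]

private lemma B3a_im (k : ℕ) : (ee (k + 1)).im = s2 / 2 * (ee k).im + s2 / 2 * (ee k).re := by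
  rw [ee_succ, mul_im, w8_re, w8_im]

private lemma B3a_re' (k : ℕ) : (ee k).re = s2 / 2 * ((ee (k + 1)).re + (ee (k + 1)).im) := by
  rw [B3a_re, B3a_im]
  have h := s2_mul
  linear_combination (-(ee k).re / 2) * h

private lemma B3a_im' (k : ℕ) : (ee k).im = s2 / 2 * ((ee (k + 1)).im - (ee (k + 1)).re) := by
  rw [B3a_re, B3a_im]
  have h := s2_mul
  linear_combination (-(ee k).im / 2) * h

/-- the algebraic identities, for an arbitrary point `P` -/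
private lemma B3a_alg (k : ℕ) (P : ℂ) :
    dt (ee (k + 7)) (ee k - P) = s2 / 2 + cr (ee (k + 1)) P ∧
    cr (ee k - P) (ee (k + 7)) = dt (ee (k + 1)) P - s2 / 2 ∧
    cr (ee k) P = s2 / 2 * (cr (ee (k + 1)) P + dt (ee (k + 1)) P) := by
  have hn := B3a_n (k + 1)
  have hr := B3a_re' k
  have hi := B3a_im' k
  have h7r : (ee (k + 7)).re = (ee (k + 1)).im := by
    rw [B3a_ee7, neg_re, mul_re, I_re, I_im]; ring
  have h7i : (ee (k + 7)).im = -(ee (k + 1)).re := by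
    rw [B3a_ee7, neg_im, mul_im, I_re, I_im]; ring
  refine ⟨?_, ?_, ?_⟩
  · simp only [dt, cr, sub_re, sub_im]
    rw [h7r, h7i, hr, hi]
    linear_combination (s2 / 2) * hn
  · simp only [dt, cr, sub_re, sub_im]
    rw [h7r, h7i, hr, hi]
    linear_combination (-(s2 / 2)) * hn
  · simp only [dt, cr]
    rw [hr, hi]
    ring

private lemma B3a_one {ν : ℂ → ℝ} (h : ON ν) {σ : ℝ → ℝ} (hσ : NV ν σ) (k : ℕ) :
    ν (Gp ν (σ (th k)) - ee k) = 1 := by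
  have := hσ.one (th k)
  rwa [h.Gp_th] at this

private lemma B3a_one' {ν : ℂ → ℝ} (h : ON ν) {σ : ℝ → ℝ} (hσ : NV ν σ) (k : ℕ) :
    ν (ee k - Gp ν (σ (th k))) = 1 := by
  rw [← neg_sub, h.sn.neg]
  exact B3a_one h hσ k

private lemma B3a_Dd (b d : ℝ) : Dd b d = s2 / 2 * (1 + x0 - b - d) := by
  have h := s2_mul
  have hp := s2_pos
  unfold Dd
  rw [div_eq_iff hp.ne']
  linear_combination (-(1 + x0 - b - d) / 2) * h

theorem ON.data {ν : ℂ → ℝ} (h : ON ν) {σ : ℝ → ℝ} (hσ : NV ν σ) (k : ℕ) :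
    0 ≤ bk ν σ k ∧ 0 ≤ dk ν σ k ∧
    dt (ee (k + 1)) (Gp ν (σ (th k))) = 1 - bk ν σ k ∧
    cr (ee (k + 1)) (Gp ν (σ (th k))) = x0 - dk ν σ k ∧
    dt (ee (k + 7)) (ee k - Gp ν (σ (th k))) = 1 - dk ν σ k ∧
    cr (ee k - Gp ν (σ (th k))) (ee (k + 7)) = x0 - bk ν σ k ∧
    cr (ee k) (Gp ν (σ (th k))) = Dd (bk ν σ k) (dk ν σ k) := by
  obtain ⟨a1, a2, a3⟩ := B3a_alg k (Gp ν (σ (th k)))
  have l1 := h.low (k + 1) (Gp ν (σ (th k)))
  rw [h.sn.Gp_norm] at l1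
  have l2 := h.low (k + 7) (ee k - Gp ν (σ (th k)))
  rw [B3a_one' h hσ k] at l2
  have hb : bk ν σ k = 1 - dt (ee (k + 1)) (Gp ν (σ (th k))) := rfl
  have hd : dk ν σ k = 1 - dt (ee (k + 7)) (ee k - Gp ν (σ (th k))) := rfl
  refine ⟨?_, ?_, ?_, ?_, ?_, ?_, ?_⟩
  · rw [hb]; linarith
  · rw [hd]; linarith
  · rw [hb]; ring
  · rw [hd, a1]; unfold x0; ring
  · rw [hd]; ring
  · rw [hb, a2]; unfold x0; ring
  · rw [a3, B3a_Dd, hb, hd, a1]; unfold x0; ring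

theorem ON.data_m {ν : ℂ → ℝ} (h : ON ν) {σ : ℝ → ℝ} (hσ : NV ν σ) (m : ℝ)
    (hm : 8702 / 10000 ≤ m) (hD : HD ν m) (k : ℕ) :
    m ≤ Dd (bk ν σ k) (dk ν σ k) ∧ m ≤ mO ∧ bk ν σ k + dk ν σ k ≤ 1 / 16 := by
  obtain ⟨h1, h2, -, -, -, -, h7⟩ := ON.data h hσ k
  have hs1 := s2_gt
  have hs2 := s2_lt
  have hs := s2_mul
  have hp := s2_pos
  have hcr : 0 < cr (ee k) (Gp ν (σ (th k))) := by
    have := h.sn.Gp_cr (th k) (σ (th k)) (hσ.gt _) (hσ.lt _)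
    rwa [h.Gp_th] at this
  have hmD : m ≤ Dd (bk ν σ k) (dk ν σ k) := by
    rw [← h7]
    exact hD (ee k) (Gp ν (σ (th k))) (h.up k) (h.sn.Gp_norm _) (B3a_one h hσ k) hcr
  have hmD' := hmD
  rw [B3a_Dd] at hmD'
  refine ⟨hmD, ?_, ?_⟩
  · refine hmD'.trans ?_
    unfold mO
    have e : s2 - 1 / 2 = s2 / 2 * (1 + x0) := by
      unfold x0
      linear_combination (1 / 4) * hs
    rw [e]
    have : 0 ≤ s2 / 2 * (bk ν σ k + dk ν σ k) := by positivity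
    nlinarith
  · have e : s2 * (8702 / 10000) ≤ 1 + x0 - bk ν σ k - dk ν σ k := by
      have h8 : 8702 / 10000 ≤ s2 / 2 * (1 + x0 - bk ν σ k - dk ν σ k) := hm.trans hmD'
      have h9 := mul_le_mul_of_nonneg_left h8 hp.le
      have e2 : s2 * (s2 / 2 * (1 + x0 - bk ν σ k - dk ν σ k)) =
          1 + x0 - bk ν σ k - dk ν σ k := by
        linear_combination ((1 + x0 - bk ν σ k - dk ν σ k) / 2) * hs
      rwa [e2] at h9
    unfold x0 at e
    linarith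

theorem ON.data_per {ν : ℂ → ℝ} (h : ON ν) {σ : ℝ → ℝ} (hσ : NV ν σ) (k : ℕ) :
    bk ν σ (k + 4) = bk ν σ k ∧ dk ν σ (k + 4) = dk ν σ k := by
  have e1 : Gp ν (σ (th (k + 4))) = -Gp ν (σ (th k)) := by
    rw [th_add_four, NV.add_pi hσ, h.sn.Gp_pi]
  have e2 : ee (k + 4 + 1) = -ee (k + 1) := by
    rw [show k + 4 + 1 = k + 1 + 4 from by ring, ee_add_four]
  have e3 : ee (k + 4 + 7) = -ee (k + 7) := by
    rw [show k + 4 + 7 = k + 7 + 4 from by ring, ee_add_four]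
  constructor
  · unfold bk
    rw [e1, e2]
    simp only [dt, neg_re, neg_im]
    ring
  · unfold dk
    rw [e1, e3, ee_add_four k]
    simp only [dt, neg_re, neg_im, sub_re, sub_im]
    ring

end Pool.H47.Oc
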