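import Pool.Agent.H47.Oc.Basic

/-! # B4a: TT_eq and det_eq. The phase of the corner between `ee 1` and `ee 2`

`t ∈ [σ 0, σ (σ (th 3)) - π]`, `p = Gp t`, `q = Gp (σ t)`, `r = Gp (σ (σ t)) = q - p`.
`σ t ∈ [σ (σ (th 0)), th 3] ⊆ [th 2, th 3]` (`order` with `k = 1`: `σ (σ (th 4)) - π ≥ σ (th 1)
≥ th 2` and `th 4 = th 0 + π`), `σ (σ t) ∈ [th 4, σ (th 3)] ⊆ [th 4, th 5]` (`order`, `k = 3`).
`xq, Yq, yr, Zr`: coordinates `q = ee 3 (Yq - i xq)`, `r = ee 4 (Zr + i yr)`.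
`TT_eq`: ring identity: `q = ((xq - Yq) + i (xq + Yq))/s2`, `r = -(Zr + i yr)`, `p = q - r`.
`partition`: `u(t) = yr t - xq t` is continuous; take `t i = b - (b - a) i / n` for large `n`
(uniform continuity on `[a, b]`), constant after `n`.
`phd`: `side_q` (k = 2), `side_r` (k = 4) between the points, `data` for the endpoints
(`t = σ 0`: `q = Gp (σ (σ 0)) = P_0 - ee 0 = -Q_0`, `ee 3 = - ee 7`; `r = Gp (π) = ee 4`;
`t = σ (σ (th 3)) - π`: `σ t = th 3` and `σ (σ t) = σ (th 3)`), chord inequalities: `side_q` with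
`s = σ (σ 0)`, `side_r` with `t = σ (th 3)`; determinant: `cr p q = Dst`, `HD`. -/

set_option autoImplicit false

namespace Pool.H47.Oc

open Complex Finset Pool.H61.Rh

noncomputable def xq (ν : ℂ → ℝ) (σ : ℝ → ℝ) (t : ℝ) : ℝ := cr (Gp ν (σ t)) (ee 3)
noncomputable def Yq (ν : ℂ → ℝ) (σ : ℝ → ℝ) (t : ℝ) : ℝ := dt (ee 3) (Gp ν (σ t))
noncomputable def yr (ν : ℂ → ℝ) (σ : ℝ → ℝ) (t : ℝ) : ℝ := cr (ee 4) (Gp ν (σ (σ t)))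
noncomputable def Zr (ν : ℂ → ℝ) (σ : ℝ → ℝ) (t : ℝ) : ℝ := dt (ee 4) (Gp ν (σ (σ t)))

private theorem B4a_ee3_re : (ee 3).re = -(s2 / 2) := by
  have e : ee 3 = I * w8 := by
    unfold ee
    rw [show (3 : ℕ) = 2 + 1 from rfl, pow_succ, w8_sq]
  rw [e, mul_re, I_re, I_im, w8_re, w8_im]
  ring

private theorem B4a_ee3_im : (ee 3).im = s2 / 2 := by
  have e : ee 3 = I * w8 := by
    unfold ee
    rw [show (3 : ℕ) = 2 + 1 from rfl, pow_succ, w8_sq]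
  rw [e, mul_im, I_re, I_im, w8_re, w8_im]
  ring

private theorem B4a_ee4 : ee 4 = -1 := by
  unfold ee
  exact w8_four

private theorem B4a_xq (ν : ℂ → ℝ) (σ : ℝ → ℝ) (t : ℝ) :
    xq ν σ t = s2 / 2 * ((Gp ν (σ t)).re + (Gp ν (σ t)).im) := by
  unfold xq cr
  rw [B4a_ee3_re, B4a_ee3_im]
  ring

private theorem B4a_Yq (ν : ℂ → ℝ) (σ : ℝ → ℝ) (t : ℝ) :
    Yq ν σ t = s2 / 2 * ((Gp ν (σ t)).im - (Gp ν (σ t)).re) := by
  unfold Yq dt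
  rw [B4a_ee3_re, B4a_ee3_im]
  ring

private theorem B4a_yr (ν : ℂ → ℝ) (σ : ℝ → ℝ) (t : ℝ) :
    yr ν σ t = -(Gp ν (σ (σ t))).im := by
  unfold yr cr
  rw [B4a_ee4, neg_re, neg_im, one_re, one_im]
  ring

private theorem B4a_Zr (ν : ℂ → ℝ) (σ : ℝ → ℝ) (t : ℝ) :
    Zr ν σ t = -(Gp ν (σ (σ t))).re := by
  unfold Zr dt
  rw [B4a_ee4, neg_re, neg_im, one_re, one_im]
  ring

private theorem B4a_Gp {ν : ℂ → ℝ} {σ : ℝ → ℝ} (hσ : NV ν σ) (t : ℝ) :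
    Gp ν t = Gp ν (σ t) - Gp ν (σ (σ t)) := by
  rw [hσ.hex t]
  ring

private theorem B4a_add (a b : ℝ) : (s2 / 2 * (b - a) + s2 / 2 * (a + b)) / s2 = b := by
  have h := s2_pos.ne'
  field_simp
  ring

private theorem B4a_sub (a b : ℝ) : (s2 / 2 * (b - a) - s2 / 2 * (a + b)) / s2 = -a := by
  have h := s2_pos.ne'
  field_simp
  ring

theorem TT_eq {ν : ℂ → ℝ} {σ : ℝ → ℝ} (hσ : NV ν σ) (t t' : ℝ) :
    2 * TT (xq ν σ t) (Yq ν σ t) (yr ν σ t) (Zr ν σ t)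
      (xq ν σ t') (Yq ν σ t') (yr ν σ t') (Zr ν σ t') =
    cr (Gp ν t') (Gp ν t) + cr (Gp ν (σ t')) (Gp ν (σ t))
      + cr (Gp ν (σ (σ t'))) (Gp ν (σ (σ t))) := by
  rw [B4a_Gp hσ t, B4a_Gp hσ t']
  unfold TT
  rw [B4a_xq, B4a_Yq, B4a_yr, B4a_Zr, B4a_xq, B4a_Yq, B4a_yr, B4a_Zr]
  generalize Gp ν (σ t) = q
  generalize Gp ν (σ t') = q'
  generalize Gp ν (σ (σ t)) = r
  generalize Gp ν (σ (σ t')) = r'
  rw [B4a_add, B4a_sub, B4a_add, B4a_sub]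
  unfold cr
  rw [sub_re, sub_im, sub_re, sub_im]
  have h := s2_mul
  linear_combination (1 / 2 * (q.im * q'.re - q.re * q'.im)) * h

theorem det_eq {ν : ℂ → ℝ} {σ : ℝ → ℝ} (hσ : NV ν σ) (t : ℝ) :
    cr (Gp ν t) (Gp ν (σ t)) = Dst (xq ν σ t) (Yq ν σ t) (yr ν σ t) (Zr ν σ t) := by
  rw [B4a_Gp hσ t]
  unfold Dst
  rw [B4a_xq, B4a_Yq, B4a_yr, B4a_Zr]
  generalize Gp ν (σ t) = q
  generalize Gp ν (σ (σ t)) = r
  have h := s2_pos.ne'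
  unfold cr
  rw [sub_re, sub_im]
  field_simp
  ring

end Pool.H47.Oc
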