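import Pool.Agent.H47.Oc.A3
import Pool.Agent.H47.Oc.B1
import Pool.Agent.H47.Oc.B2
import Pool.Agent.H47.Oc.B3
import Pool.Agent.H47.Oc.B4a

/-! # B4: the phase of the corner between `ee 1` and `ee 2`

`t ∈ [σ 0, σ (σ (th 3)) - π]`, `p = Gp t`, `q = Gp (σ t)`, `r = Gp (σ (σ t)) = q - p`.
`σ t ∈ [σ (σ (th 0)), th 3] ⊆ [th 2, th 3]` (`order` with `k = 1`: `σ (σ (th 4)) - π ≥ σ (th 1)
≥ th 2` and `th 4 = th 0 + π`), `σ (σ t) ∈ [th 4, σ (th 3)] ⊆ [th 4, th 5]` (`order`, `k = 3`).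
`xq, Yq, yr, Zr`: coordinates `q = ee 3 (Yq - i xq)`, `r = ee 4 (Zr + i yr)`.
`TT_eq`: ring identity: `q = ((xq - Yq) + i (xq + Yq))/s2`, `r = -(Zr + i yr)`, `p = q - r`.
`partition`: `u(t) = yr t - xq t` is continuous; take `t i = b - (b - a) i / n` for large `n`
(uniform continuity on `[a, b]`), constant after `n`.
`phd`: `side_q` (k = 2), `side_r` (k = 4) between the points, `data` for the endpoints
(`t = σ 0`: `q = Gp (σ (σ 0)) = P_0 - ee 0 = -Q_0`, `ee 3 = - ee 7`; `r = Gp (π) = ee 4`;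
`t = σ (σ (th 3)) - π`: `σ t = th 3` and `σ (σ t) = σ (th 3)`), chord inequalities: `side_q` with
`s = σ (σ 0)`, `side_r` with `t = σ (th 3)`; determinant: `cr p q = Dst`, `HD`. -/

set_option autoImplicit false

namespace Pool.H47.Oc

open Complex Finset Pool.H61.Rh

private lemma B4_cont_cr_l {f : ℝ → ℂ} (hf : Continuous f) (w : ℂ) :
    Continuous fun t => cr (f t) w := by
  unfold cr
  exact ((continuous_re.comp hf).mul continuous_const).sub
    ((continuous_im.comp hf).mul continuous_const)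

private lemma B4_cont_cr_r {f : ℝ → ℂ} (hf : Continuous f) (w : ℂ) :
    Continuous fun t => cr w (f t) := by
  unfold cr
  exact (continuous_const.mul (continuous_im.comp hf)).sub
    (continuous_const.mul (continuous_re.comp hf))

/-- partitions with small steps -/
private lemma B4_part (u : ℝ → ℝ) (hu : Continuous u) (a b : ℝ) (hab : a ≤ b) (δ : ℝ)
    (hδ : 0 < δ) :
    ∃ (n : ℕ) (t : ℕ → ℝ), Monotone t ∧ t 0 = a ∧ t n = b ∧ (∀ i, a ≤ t i ∧ t i ≤ b) ∧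
      ∀ i, u (t (i + 1)) - u (t i) ≤ δ := by
  have huc : UniformContinuousOn u (Set.Icc a b) :=
    isCompact_Icc.uniformContinuousOn_of_continuous hu.continuousOn
  rw [Metric.uniformContinuousOn_iff] at huc
  obtain ⟨ε, hε, huε⟩ := huc δ hδ
  obtain ⟨n, hn⟩ := exists_nat_gt ((b - a) / ε)
  have hn0 : (0 : ℝ) < n := lt_of_le_of_lt (div_nonneg (by linarith) hε.le) hn
  have hstep : (b - a) / n < ε := by
    rw [div_lt_iff₀ hn0]
    rw [div_lt_iff₀ hε] at hn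
    linarith
  have hba : 0 ≤ (b - a) / n := div_nonneg (by linarith) hn0.le
  have hle : ∀ i : ℕ, ((min i n : ℕ) : ℝ) ≤ n := fun i => by exact_mod_cast min_le_right i n
  have hfull : (b - a) / n * n = b - a := div_mul_cancel₀ _ hn0.ne'
  have hrange : ∀ i : ℕ, a ≤ a + (b - a) / n * ((min i n : ℕ) : ℝ) ∧
      a + (b - a) / n * ((min i n : ℕ) : ℝ) ≤ b := by
    intro i
    constructor
    · have := mul_nonneg hba (Nat.cast_nonneg (α := ℝ) (min i n))
      linarith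
    · have := mul_le_mul_of_nonneg_left (hle i) hba
      linarith
  refine ⟨n, fun i => a + (b - a) / n * ((min i n : ℕ) : ℝ), ?_, ?_, ?_, hrange, ?_⟩
  · intro i j hij
    have h1 : ((min i n : ℕ) : ℝ) ≤ ((min j n : ℕ) : ℝ) := by
      exact_mod_cast min_le_min_right n hij
    have := mul_le_mul_of_nonneg_left h1 hba
    show a + (b - a) / n * ((min i n : ℕ) : ℝ) ≤ a + (b - a) / n * ((min j n : ℕ) : ℝ)
    linarith
  · simp
  · show a + (b - a) / n * ((min n n : ℕ) : ℝ) = b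
    rw [min_self, hfull]; ring
  · intro i
    show u (a + (b - a) / n * ((min (i + 1) n : ℕ) : ℝ)) -
      u (a + (b - a) / n * ((min i n : ℕ) : ℝ)) ≤ δ
    have h1 : ((min i n : ℕ) : ℝ) ≤ ((min (i + 1) n : ℕ) : ℝ) := by
      exact_mod_cast min_le_min_right n (Nat.le_succ i)
    have h2 : ((min (i + 1) n : ℕ) : ℝ) ≤ ((min i n : ℕ) : ℝ) + 1 := by
      have : min (i + 1) n ≤ min i n + 1 := by omega
      exact_mod_cast this
    have h3 := mul_le_mul_of_nonneg_left h1 hba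
    have h4 := mul_le_mul_of_nonneg_left h2 hba
    have h5 := huε _ (hrange (i + 1)) _ (hrange i) (by
      rw [Real.dist_eq, abs_of_nonneg (by linarith)]
      linarith)
    rw [Real.dist_eq] at h5
    exact (le_abs_self _).trans h5.le

theorem exists_phd {ν : ℂ → ℝ} (h : ON ν) {σ : ℝ → ℝ} (hσ : NV ν σ) (m : ℝ)
    (hm : 8702 / 10000 ≤ m) (hD : HD ν m) (δ : ℝ) (hδ : 0 < δ) :
    ∃ (n : ℕ) (t : ℕ → ℝ), Monotone t ∧ t 0 = σ (th 0) ∧ t n = σ (σ (th 3)) - Real.pi ∧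
      PhD m (bk ν σ 3) (dk ν σ 3) (bk ν σ 0) (dk ν σ 0) δ n
        (fun i => xq ν σ (t (n - i))) (fun i => Yq ν σ (t (n - i)))
        (fun i => yr ν σ (t (n - i))) (fun i => Zr ν σ (t (n - i))) := by
  obtain ⟨o1, o2, o3⟩ := h.order hσ m hm hD 0
  have hsub : ∀ t, σ (t - Real.pi) = σ t - Real.pi := by
    intro t
    have := NV.add_pi hσ (t - Real.pi)
    rw [sub_add_cancel] at this
    linarith
  have hσb : σ (σ (σ (th 3)) - Real.pi) = th 3 := by
    rw [hsub, hσ.cube]; ring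
  have hσσa : σ (σ (σ (th 0))) = th 4 := by
    rw [hσ.cube, show (4 : ℕ) = 0 + 4 from rfl, th_add_four]
  have hσa : th 2 ≤ σ (σ (th 0)) := by
    obtain ⟨p1, p2, _⟩ := h.order hσ m hm hD 1
    have e : σ (σ (th (1 + 3))) = σ (σ (th 0)) + Real.pi := by
      rw [show (1 + 3 : ℕ) = 0 + 4 from rfl, th_add_four, NV.add_pi hσ, NV.add_pi hσ]
    rw [e] at p2
    have p1' : th 2 ≤ σ (th 1) := p1
    linarith
  have hσσb : σ (th 3) ≤ th 5 := by
    obtain ⟨_, p2, p3⟩ := h.order hσ m hm hD 3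
    exact p2.trans p3
  obtain ⟨_, _, d1, d2, _, _, _⟩ := h.data hσ 3
  obtain ⟨_, _, _, _, e1, e2, _⟩ := h.data hσ 0
  have e7 : ee (0 + 7) = - ee 3 := by
    rw [show (0 + 7 : ℕ) = 3 + 4 from rfl, ee_add_four]
  have hG : Gp ν (σ (σ (th 0))) = -(ee 0 - Gp ν (σ (th 0))) := by
    rw [hσ.hex, h.Gp_th]; ring
  have hXa : cr (Gp ν (σ (σ (th 0)))) (ee 3) = x0 - bk ν σ 0 := by
    rw [hG, cr_neg_left, ← e2, e7, cr_neg_right]
  have hYa : dt (ee 3) (Gp ν (σ (σ (th 0)))) = 1 - dk ν σ 0 := by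
    rw [hG, ← e1, e7]
    simp only [dt, neg_re, neg_im]; ring
  have hyb : cr (ee 4) (Gp ν (σ (th 3))) = x0 - dk ν σ 3 := d2
  have hZb : dt (ee 4) (Gp ν (σ (th 3))) = 1 - bk ν σ 3 := d1
  have hdt1 : ∀ k, dt (ee k) (ee k) = 1 := by
    intro k
    have := normSq_ee k
    rw [normSq_apply] at this
    simpa only [dt] using this
  have hcq : Continuous (xq ν σ) :=
    B4_cont_cr_l (h.sn.Gp_cont.comp hσ.cont) (ee 3)
  have hcr : Continuous (yr ν σ) :=
    B4_cont_cr_r (h.sn.Gp_cont.comp (hσ.cont.comp hσ.cont)) (ee 4)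
  obtain ⟨n, t, tm, t0, tn, tr, ts⟩ := B4_part (fun s => yr ν σ s - xq ν σ s) (hcr.sub hcq)
    (σ (th 0)) (σ (σ (th 3)) - Real.pi) o2 δ hδ
  -- ranges
  have r1 : ∀ i, σ (σ (th 0)) ≤ σ (t i) := fun i => hσ.mono.monotone (tr i).1
  have r2 : ∀ i, σ (t i) ≤ th 3 := fun i => by
    rw [← hσb]; exact hσ.mono.monotone (tr i).2
  have r3 : ∀ i, th 4 ≤ σ (σ (t i)) := fun i => by
    rw [← hσσa]; exact hσ.mono.monotone (r1 i)
  have r4 : ∀ i, σ (σ (t i)) ≤ σ (th 3) := fun i => hσ.mono.monotone (r2 i)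
  have hq : ∀ i j, i ≤ j → _ := fun i j (hij : i ≤ j) => h.side_q 2 (σ (t i)) (σ (t j))
    (hσa.trans (r1 i)) (hσ.mono.monotone (tm hij)) (r2 j)
  have hr : ∀ i j, i ≤ j → _ := fun i j (hij : i ≤ j) => h.side_r 4 (σ (σ (t i))) (σ (σ (t j)))
    (r3 i) (hσ.mono.monotone (hσ.mono.monotone (tm hij))) ((r4 j).trans hσσb)
  refine ⟨n, t, tm, t0, tn, ?_⟩
  constructor
  · show cr (Gp ν (σ (t (n - 0)))) (ee 3) = 0
    rw [Nat.sub_zero, tn, hσb, h.Gp_th, cr_self]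
  · show dt (ee 3) (Gp ν (σ (t (n - 0)))) = 1
    rw [Nat.sub_zero, tn, hσb, h.Gp_th, hdt1]
  · show cr (ee 4) (Gp ν (σ (σ (t (n - 0))))) = _
    rw [Nat.sub_zero, tn, hσb, hyb]
  · show dt (ee 4) (Gp ν (σ (σ (t (n - 0))))) = _
    rw [Nat.sub_zero, tn, hσb, hZb]
  · show cr (Gp ν (σ (t (n - n)))) (ee 3) = _
    rw [Nat.sub_self, t0, hXa]
  · show dt (ee 3) (Gp ν (σ (t (n - n)))) = _
    rw [Nat.sub_self, t0, hYa]
  · show cr (ee 4) (Gp ν (σ (σ (t (n - n))))) = 0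
    rw [Nat.sub_self, t0, hσσa, h.Gp_th, cr_self]
  · show dt (ee 4) (Gp ν (σ (σ (t (n - n))))) = 1
    rw [Nat.sub_self, t0, hσσa, h.Gp_th, hdt1]
  · intro i _
    exact (hq (n - (i + 1)) (n - i) (by omega)).2.1
  · intro i _
    exact (hq (n - (i + 1)) (n - i) (by omega)).1
  · intro i _
    exact (hr (n - (i + 1)) (n - i) (by omega)).2.1
  · intro i _
    exact (hr (n - (i + 1)) (n - i) (by omega)).1
  · intro i _
    exact (hq (n - (i + 1)) (n - i) (by omega)).2.2.1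
  · intro i _
    exact (hr (n - (i + 1)) (n - i) (by omega)).2.2.1
  · intro i _
    have hh := (hq 0 (n - i) (Nat.zero_le _)).2.2.2.1
    rw [t0] at hh
    have hX : cr (Gp ν (σ (σ (th 0)))) (ee (2 + 1)) = x0 - bk ν σ 0 := hXa
    have hY : dt (ee (2 + 1)) (Gp ν (σ (σ (th 0)))) = 1 - dk ν σ 0 := hYa
    rw [hX, hY, sub_sub_cancel] at hh
    exact hh
  · intro i _
    have hh := (hr (n - i) n (Nat.sub_le _ _)).2.2.2.1
    rw [tn, hσb, hyb, hZb, sub_sub_cancel] at hh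
    exact hh
  · intro i _
    show m ≤ Dst (xq ν σ (t (n - i))) (Yq ν σ (t (n - i))) (yr ν σ (t (n - i)))
      (Zr ν σ (t (n - i)))
    rw [← det_eq hσ]
    exact hD _ _ (h.sn.Gp_norm _) (h.sn.Gp_norm _) (hσ.one _)
      (h.sn.Gp_cr _ _ (hσ.gt _) (hσ.lt _))
  · intro i hi
    show (xq ν σ (t (n - (i + 1))) - xq ν σ (t (n - i))) +
      (yr ν σ (t (n - i)) - yr ν σ (t (n - (i + 1)))) ≤ δ
    have hh := ts (n - (i + 1))
    have e : n - (i + 1) + 1 = n - i := by omega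
    rw [e] at hh
    have hh' : (yr ν σ (t (n - i)) - xq ν σ (t (n - i))) -
      (yr ν σ (t (n - (i + 1))) - xq ν σ (t (n - (i + 1)))) ≤ δ := hh
    linarith

end Pool.H47.Oc
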