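import Pool.Agent.H47.Oc.B4

/-! # B5: the phase theorem

For every `δ > 0` take the partition of `exists_phd`; `phase_real` (its constant `C` does not
depend on `δ`), `TT_eq`, reversal of the sum (`Finset.sum_range_reflect`), and `le_Ar` for the
three partitions `t`, `σ ∘ t`, `σ ∘ σ ∘ t` (`σ` monotone; endpoints by `NV.cube`, `NV.add_pi`:
`σ (σ (σ (th 3)) - π) = th 3`, `σ (σ (σ (th 0))) = π = th 4`).  Let `δ → 0`. -/

set_option autoImplicit false

namespace Pool.H47.Oc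

open Complex Finset Pool.H61.Rh

private lemma B5_sum {ν : ℂ → ℝ} {σ : ℝ → ℝ} (hσ : NV ν σ) (n : ℕ) (t : ℕ → ℝ) :
    2 * ∑ i ∈ range n, TT (xq ν σ (t (n - i))) (Yq ν σ (t (n - i))) (yr ν σ (t (n - i)))
      (Zr ν σ (t (n - i))) (xq ν σ (t (n - (i + 1)))) (Yq ν σ (t (n - (i + 1))))
      (yr ν σ (t (n - (i + 1)))) (Zr ν σ (t (n - (i + 1)))) =
    Sm ν n t + Sm ν n (fun i => σ (t i)) + Sm ν n (fun i => σ (σ (t i))) := by
  unfold Sm
  rw [← Finset.sum_add_distrib, ← Finset.sum_add_distrib, Finset.mul_sum]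
  rw [← Finset.sum_range_reflect (fun i => cr (Gp ν (t i)) (Gp ν (t (i + 1)))
    + cr (Gp ν (σ (t i))) (Gp ν (σ (t (i + 1))))
    + cr (Gp ν (σ (σ (t i)))) (Gp ν (σ (σ (t (i + 1)))))) n]
  refine Finset.sum_congr rfl ?_
  intro i hi
  rw [Finset.mem_range] at hi
  rw [TT_eq hσ]
  have e1 : n - (i + 1) = n - 1 - i := by omega
  have e2 : n - i = n - 1 - i + 1 := by omega
  rw [e1, e2]

theorem ON.phase {ν : ℂ → ℝ} (h : ON ν) {σ : ℝ → ℝ} (hσ : NV ν σ) (m : ℝ)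
    (hm : 8702 / 10000 ≤ m) (hD : HD ν m) :
    2 * (Fq m (bk ν σ 0) (dk ν σ 0) + Fr m (bk ν σ 3) (dk ν σ 3)) ≤
      Ar ν (σ (th 0)) (σ (σ (th 3)) - Real.pi) + Ar ν (σ (σ (th 0))) (th 3)
        + Ar ν (th 4) (σ (th 3)) := by
  have hd0 := h.data hσ 0
  have hd3 := h.data hσ 3
  have hm0 := h.data_m hσ m hm hD 0
  have hm3 := h.data_m hσ m hm hD 3
  obtain ⟨C, hC⟩ := phase_real m (bk ν σ 3) (dk ν σ 3) (bk ν σ 0) (dk ν σ 0) (by linarith)
    hm0.2.1 hd3.1 hd3.2.1 hm3.2.2 hd0.1 hd0.2.1 hm0.2.2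
  have hcube0 : σ (σ (σ (th 0))) = th 4 := by
    rw [hσ.cube, ← th_add_four]
  have hcube3 : σ (σ (σ (th 3)) - Real.pi) = th 3 := by
    have h1 := NV.add_pi hσ (σ (σ (th 3)) - Real.pi)
    rw [sub_add_cancel, hσ.cube] at h1
    linarith
  have hpi := Real.pi_pos
  have key : ∀ δ : ℝ, 0 < δ →
      2 * (Fq m (bk ν σ 0) (dk ν σ 0) + Fr m (bk ν σ 3) (dk ν σ 3) - C * δ) ≤
      Ar ν (σ (th 0)) (σ (σ (th 3)) - Real.pi) + Ar ν (σ (σ (th 0))) (th 3)
        + Ar ν (th 4) (σ (th 3)) := by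
    intro δ hδ
    obtain ⟨n, t, ht, ht0, htn, hph⟩ := exists_phd h hσ m hm hD δ hδ
    have h1 := hC δ n _ _ _ _ hδ.le hph
    have h2 := B5_sum hσ n t
    have hs1 : Sm ν n t ≤ Ar ν (σ (th 0)) (σ (σ (th 3)) - Real.pi) := by
      have h3 := le_Ar h.sn n t ht (by
        rw [ht0, htn]
        have h4 := h.order hσ m hm hD 0
        have h5 := th_succ 1
        have h6 : th (0 + 1) = th 1 := rfl
        have h7 : th (0 + 2) = th (1 + 1) := rfl
        have h8 : σ (σ (th (0 + 3))) = σ (σ (th 3)) := rfl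
        rw [h6, h7, h8] at h4
        linarith [h4.1, h4.2.1, h4.2.2])
      rwa [ht0, htn] at h3
    have hs2 : Sm ν n (fun i => σ (t i)) ≤ Ar ν (σ (σ (th 0))) (th 3) := by
      have h3 := le_Ar h.sn n (fun i => σ (t i)) (hσ.mono.monotone.comp ht) (by
        show σ (t n) ≤ σ (t 0) + Real.pi
        rw [ht0, htn, hcube3]
        have h4 := hσ.gt (th 0)
        have h5 := hσ.gt (σ (th 0))
        have h6 : th 3 < th 4 := th_lt (by norm_num)
        have h7 := th_add_four 0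
        rw [zero_add] at h7
        linarith)
      have h4 : Ar ν (σ (t 0)) (σ (t n)) = Ar ν (σ (σ (th 0))) (th 3) := by
        rw [ht0, htn, hcube3]
      exact h3.trans (le_of_eq h4)
    have hs3 : Sm ν n (fun i => σ (σ (t i))) ≤ Ar ν (th 4) (σ (th 3)) := by
      have h3 := le_Ar h.sn n (fun i => σ (σ (t i)))
        (hσ.mono.monotone.comp (hσ.mono.monotone.comp ht)) (by
        show σ (σ (t n)) ≤ σ (σ (t 0)) + Real.pi
        rw [ht0, htn, hcube3, hcube0]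
        have h4 := hσ.lt (th 3)
        have h6 : th 3 < th 4 := th_lt (by norm_num)
        linarith)
      have h4 : Ar ν (σ (σ (t 0))) (σ (σ (t n))) = Ar ν (th 4) (σ (th 3)) := by
        rw [ht0, htn, hcube3, hcube0]
      exact h3.trans (le_of_eq h4)
    linarith
  by_contra hcon
  push Not at hcon
  obtain ⟨R, hR⟩ : ∃ R, R = Ar ν (σ (th 0)) (σ (σ (th 3)) - Real.pi) + Ar ν (σ (σ (th 0))) (th 3)
        + Ar ν (th 4) (σ (th 3)) := ⟨_, rfl⟩
  obtain ⟨Fv, hFv⟩ : ∃ Fv, Fv = Fq m (bk ν σ 0) (dk ν σ 0) + Fr m (bk ν σ 3) (dk ν σ 3) :=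
    ⟨_, rfl⟩
  rw [← hR, ← hFv] at hcon
  rw [← hR, ← hFv] at key
  have hC0 := abs_nonneg C
  have hC1 := le_abs_self C
  have hg : 0 < 2 * Fv - R := by linarith
  have h1 := key ((2 * Fv - R) / (4 * (|C| + 1))) (div_pos hg (by linarith))
  have h2 : C * ((2 * Fv - R) / (4 * (|C| + 1))) ≤ (2 * Fv - R) / 4 := by
    rw [← mul_div_assoc, div_le_div_iff₀ (by linarith) (by norm_num)]
    nlinarith
  linarith

end Pool.H47.Oc
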