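import Pool.Agent.H47.Oc.B5

/-! # B6: rotations -/

set_option autoImplicit false

namespace Pool.H47.Oc

open Complex Finset Pool.H61.Rh

/-- rotated norm -/
noncomputable def rot (j : ℕ) (ν : ℂ → ℝ) : ℂ → ℝ := fun z => ν (ee j * z)

/-- rotated next vertex map -/
noncomputable def rots (j : ℕ) (σ : ℝ → ℝ) : ℝ → ℝ := fun t => σ (t + th j) - th j

private lemma B6_ee_add (i j : ℕ) : ee (i + j) = ee i * ee j := by
  unfold ee
  rw [pow_add]

private lemma B6_th_add (i j : ℕ) : th (i + j) = th i + th j := by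
  unfold th
  push_cast
  ring

private lemma B6_ee_ne (j : ℕ) : ee j ≠ 0 := by
  intro h0
  have := norm_ee j
  rw [h0, norm_zero] at this
  norm_num at this

private lemma B6_cr (j : ℕ) (z w : ℂ) : cr (ee j * z) (ee j * w) = cr z w := by
  have h1 : cr (ee j * z) (ee j * w) = normSq (ee j) * cr z w := by
    simp only [cr, normSq_apply, mul_re, mul_im]
    ring
  rw [h1, normSq_ee, one_mul]

private lemma B6_dt (j : ℕ) (z w : ℂ) : dt (ee j * z) (ee j * w) = dt z w := by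
  have h1 : dt (ee j * z) (ee j * w) = normSq (ee j) * dt z w := by
    simp only [dt, normSq_apply, mul_re, mul_im]
    ring
  rw [h1, normSq_ee, one_mul]

private lemma B6_exp (j : ℕ) (t : ℝ) :
    ee j * exp ((t : ℂ) * I) = exp (((t + th j : ℝ) : ℂ) * I) := by
  rw [ee_eq_exp, ← Complex.exp_add]
  congr 1
  push_cast
  ring

private lemma B6_Gp (ν : ℂ → ℝ) (j : ℕ) (t : ℝ) :
    ee j * Gp (rot j ν) t = Gp ν (t + th j) := by
  show ee j * (((1 / ν (ee j * exp ((t : ℂ) * I)) : ℝ) : ℂ) * exp ((t : ℂ) * I)) = _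
  rw [B6_exp]
  show _ = ((1 / ν (exp (((t + th j : ℝ) : ℂ) * I)) : ℝ) : ℂ) * exp (((t + th j : ℝ) : ℂ) * I)
  rw [mul_left_comm, B6_exp]

private lemma B6_Sm (ν : ℂ → ℝ) (j n : ℕ) (t : ℕ → ℝ) :
    Sm (rot j ν) n t = Sm ν n (fun i => t i + th j) := by
  unfold Sm
  refine Finset.sum_congr rfl fun i _ => ?_
  rw [← B6_Gp, ← B6_Gp, B6_cr]

theorem Gp_rot (ν : ℂ → ℝ) (j : ℕ) (t : ℝ) : ee j * Gp (rot j ν) t = Gp ν (t + th j) := by
  exact B6_Gp ν j t

theorem ON.rot {ν : ℂ → ℝ} (h : ON ν) (j : ℕ) : ON (rot j ν) := by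
  refine ⟨⟨?_, ?_, ?_, ?_⟩, ?_, ?_⟩
  · intro x hx
    exact h.sn.pos _ (mul_ne_zero (B6_ee_ne j) hx)
  · intro t x
    show ν (ee j * (t * x)) = |t| * ν (ee j * x)
    rw [mul_left_comm, h.sn.hom]
  · intro x y
    show ν (ee j * (x + y)) ≤ ν (ee j * x) + ν (ee j * y)
    rw [mul_add]
    exact h.sn.tri _ _
  · intro x y hxy
    show ν (ee j * (x + y)) < ν (ee j * x) + ν (ee j * y)
    rw [mul_add]
    refine h.sn.strict _ _ ?_
    rw [B6_cr]
    exact hxy
  · intro k
    show ν (ee j * ee k) = 1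
    rw [← B6_ee_add]
    exact h.up _
  · intro k z
    show dt (ee k) z ≤ ν (ee j * z)
    rw [← B6_dt j, ← B6_ee_add]
    exact h.low _ _

theorem NV_rot {ν : ℂ → ℝ} {σ : ℝ → ℝ} (hσ : NV ν σ) (j : ℕ) : NV (rot j ν) (rots j σ) := by
  have hth : ∀ t, rots j σ t + th j = σ (t + th j) := fun t => by
    unfold rots
    ring
  refine ⟨?_, ?_, ?_, ?_, ?_, ?_, ?_⟩
  · intro s t hst
    show σ (s + th j) - th j < σ (t + th j) - th j
    have := hσ.mono (show s + th j < t + th j by linarith)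
    linarith
  · exact (hσ.cont.comp (continuous_id.add continuous_const)).sub continuous_const
  · intro t
    show t < σ (t + th j) - th j
    have := hσ.gt (t + th j)
    linarith
  · intro t
    show σ (t + th j) - th j < t + Real.pi
    have := hσ.lt (t + th j)
    linarith
  · intro t
    show ν (ee j * (Gp (rot j ν) (rots j σ t) - Gp (rot j ν) t)) = 1
    rw [mul_sub, B6_Gp, B6_Gp, hth]
    exact hσ.one _
  · intro t
    apply mul_left_cancel₀ (B6_ee_ne j)
    rw [mul_sub, B6_Gp, B6_Gp, B6_Gp, hth, hth]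
    exact hσ.hex _
  · intro t
    have h1 := hσ.cube (t + th j)
    rw [← hth, ← hth, ← hth] at h1
    linarith

theorem HD_rot {ν : ℂ → ℝ} {m : ℝ} (h : HD ν m) (j : ℕ) : HD (rot j ν) m := by
  intro p q hp hq hpq hcr
  have hpq' : ν (ee j * q - ee j * p) = 1 := by
    rw [← mul_sub]
    exact hpq
  have h1 := h (ee j * p) (ee j * q) hp hq hpq' (by rw [B6_cr]; exact hcr)
  rwa [B6_cr] at h1

theorem Ar_rot (ν : ℂ → ℝ) (j : ℕ) (a b : ℝ) : Ar (rot j ν) a b = Ar ν (a + th j) (b + th j) := by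
  unfold Ar
  congr 1
  ext S
  constructor
  · rintro ⟨n, t, ht, h0, hn, hS⟩
    refine ⟨n, fun i => t i + th j, fun x y hxy => by
      have := ht hxy
      show t x + th j ≤ t y + th j
      linarith, ?_, ?_, ?_⟩
    · show t 0 + th j = a + th j
      rw [h0]
    · show t n + th j = b + th j
      rw [hn]
    · rw [hS, B6_Sm]
  · rintro ⟨n, t, ht, h0, hn, hS⟩
    refine ⟨n, fun i => t i - th j, fun x y hxy => by
      have := ht hxy
      show t x - th j ≤ t y - th j
      linarith, ?_, ?_, ?_⟩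
    · show t 0 - th j = a
      rw [h0]
      ring
    · show t n - th j = b
      rw [hn]
      ring
    · rw [hS, B6_Sm]
      congr 1
      funext i
      ring

theorem bk_rot (ν : ℂ → ℝ) (σ : ℝ → ℝ) (j k : ℕ) : bk (rot j ν) (rots j σ) k = bk ν σ (k + j) := by
  unfold bk
  rw [B6_th_add, show k + j + 1 = j + (k + 1) by ring, B6_ee_add j (k + 1)]
  have h1 : Gp ν (σ (th k + th j)) = ee j * Gp (rot j ν) (rots j σ (th k)) := by
    rw [B6_Gp]
    congr 1
    unfold rots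
    ring
  rw [h1, B6_dt]

theorem dk_rot (ν : ℂ → ℝ) (σ : ℝ → ℝ) (j k : ℕ) : dk (rot j ν) (rots j σ) k = dk ν σ (k + j) := by
  unfold dk
  rw [B6_th_add, show k + j + 7 = j + (k + 7) by ring, B6_ee_add j (k + 7),
    show k + j = j + k by ring, B6_ee_add j k]
  have h1 : Gp ν (σ (th k + th j)) = ee j * Gp (rot j ν) (rots j σ (th k)) := by
    rw [B6_Gp]
    congr 1
    unfold rots
    ring
  rw [h1, ← mul_sub, B6_dt]

/-- the phase theorem for every corner -/
theorem ON.phase_j {ν : ℂ → ℝ} (h : ON ν) {σ : ℝ → ℝ} (hσ : NV ν σ) (m : ℝ)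
    (hm : 8702 / 10000 ≤ m) (hD : HD ν m) (j : ℕ) :
    2 * (Fq m (bk ν σ j) (dk ν σ j) + Fr m (bk ν σ (j + 3)) (dk ν σ (j + 3))) ≤
      Ar ν (σ (th j)) (σ (σ (th (j + 3))) - Real.pi) + Ar ν (σ (σ (th j))) (th (j + 3))
        + Ar ν (th (j + 4)) (σ (th (j + 3))) := by
  have h1 := (h.rot j).phase (NV_rot hσ j) m hm (HD_rot hD j)
  rw [bk_rot, dk_rot, bk_rot, dk_rot, Ar_rot, Ar_rot, Ar_rot, Nat.zero_add] at h1
  have hth : ∀ t, rots j σ t + th j = σ (t + th j) := fun t => by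
    unfold rots
    ring
  have e0 : th 0 + th j = th j := by rw [th_zero, zero_add]
  have e3 : th 3 + th j = th (j + 3) := by rw [B6_th_add, add_comm]
  have e4 : th 4 + th j = th (j + 4) := by rw [B6_th_add, add_comm]
  have e5 : rots j σ (rots j σ (th 3)) - Real.pi + th j = σ (σ (th (j + 3))) - Real.pi := by
    have : rots j σ (rots j σ (th 3)) + th j = σ (σ (th (j + 3))) := by
      rw [hth, hth, e3]
    linarith
  rw [e5, hth, hth, hth, hth, e0, e3, e4, Nat.add_comm 3 j] at h1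
  exact h1

end Pool.H47.Oc
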