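import Pool.Agent.H47.Oc.A5
import Pool.Agent.H47.Oc.B6

/-! # B7: the main inequality

Sum `phase_j` over `j = 0, 1, 2, 3`.  Left side: by `data_per` it is
`2 ∑_{j<4} (Fq m b_j d_j + Fr m b_j d_j) ≥ 2 * 4 * (cR/2) m` (`fin_of_G1`, `G1_nonneg`, `data_m`).
Right side: the interval `[th 4, th 8]` is divided by
`th k ≤ σ (th (k-1)) ≤ τ (th (k+2)) ≤ th (k+1)` (`k = 4..7`, `τ x = σ (σ x) - π`; `order` with
index `k-1`).  Match: `Ar (th k) (σ (th (k-1)))` is the third term of `j = k-4`;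
`Ar (σ (th (k-1))) (τ (th (k+2)))` is the first term of `j = 3` (`k = 4`), and of `j = k - 5`
shifted by `π` (`k = 5,6,7`; `Ar_pi`, `th_add_four`, `NV.add_pi`);
`Ar (τ (th (k+2))) (th (k+1))` is the second term of `j = 2, 3` (`k = 4, 5`:
`σ (σ (th j)) = τ (th (j+4))`) and of `j = 0, 1` shifted by `π` (`k = 6, 7`).
`Ar_add` eleven times, `Ar_le_vol` for `[th 4, th 8]`. -/

set_option autoImplicit false

namespace Pool.H47.Oc

open Complex Finset MeasureTheory Pool.H61.Rh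

private lemma B7_ss {ν : ℂ → ℝ} {σ : ℝ → ℝ} (hσ : NV ν σ) (k : ℕ) :
    σ (th (k + 4)) = σ (th k) + Real.pi := by
  rw [th_add_four, NV.add_pi hσ]

private lemma B7_uu {ν : ℂ → ℝ} {σ : ℝ → ℝ} (hσ : NV ν σ) (k : ℕ) :
    σ (σ (th (k + 4))) = σ (σ (th k)) + Real.pi := by
  rw [B7_ss hσ, NV.add_pi hσ]

private lemma B7_low {ν : ℂ → ℝ} (h : ON ν) {σ : ℝ → ℝ} (hσ : NV ν σ) (m : ℝ)
    (hm : 8702 / 10000 ≤ m) (hD : HD ν m) (k : ℕ) :
    cR / 2 * m ≤ Fq m (bk ν σ k) (dk ν σ k) + Fr m (bk ν σ k) (dk ν σ k) := by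
  obtain ⟨h1, h2, h3⟩ := h.data_m hσ m hm hD k
  obtain ⟨hb, hd, -⟩ := h.data hσ k
  have h4 := fin_of_G1 m (bk ν σ k) (dk ν σ k) (by linarith) h1 hb hd h3
  have h5 := G1_nonneg (bk ν σ k) (dk ν σ k) hb hd h3
  linarith

private lemma B7_block {ν : ℂ → ℝ} (h : ON ν) {σ : ℝ → ℝ} (hσ : NV ν σ) (m : ℝ)
    (hm : 8702 / 10000 ≤ m) (hD : HD ν m) (k : ℕ) :
    Ar ν (th (k + 1)) (σ (th k)) + Ar ν (σ (th k)) (σ (σ (th (k + 3))) - Real.pi)
      + Ar ν (σ (σ (th (k + 3))) - Real.pi) (th (k + 2)) ≤ Ar ν (th (k + 1)) (th (k + 2)) := by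
  obtain ⟨h1, h2, h3⟩ := h.order hσ m hm hD k
  have hp := Real.pi_pos
  have h4 : th (k + 2) ≤ th (k + 1) + Real.pi := by
    have := th_succ (k + 1)
    linarith
  have h5 := Ar_add h.sn (th (k + 1)) (σ (th k)) (σ (σ (th (k + 3))) - Real.pi) h1 h2 (by linarith)
  have h6 := Ar_add h.sn (th (k + 1)) (σ (σ (th (k + 3))) - Real.pi) (th (k + 2)) (by linarith) h3 h4
  linarith

theorem ON.main {ν : ℂ → ℝ} (h : ON ν) (m : ℝ) (hm : 8702 / 10000 ≤ m) (hD : HD ν m) :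
    4 * cR * m ≤ (volume {z : ℂ | ν z ≤ 1}).toReal := by
  obtain ⟨σ, hσ⟩ := h.sn.exists_nv
  have hp := Real.pi_pos
  have hsn := h.sn
  -- matching of the pieces
  have A1 : ∀ j : ℕ, Ar ν (σ (th (j + 4))) (σ (σ (th (j + 7))) - Real.pi)
      = Ar ν (σ (th j)) (σ (σ (th (j + 3))) - Real.pi) := by
    intro j
    have e1 : σ (σ (th (j + 7))) = σ (σ (th (j + 3))) + Real.pi := B7_uu hσ (j + 3)
    rw [B7_ss hσ, e1, ← Ar_pi hsn (σ (th j)) (σ (σ (th (j + 3))) - Real.pi)]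
    congr 1
    ring
  have A2 : ∀ j : ℕ, Ar ν (σ (σ (th (j + 4))) - Real.pi) (th (j + 3))
      = Ar ν (σ (σ (th j))) (th (j + 3)) := by
    intro j
    rw [B7_uu hσ]
    congr 1
    ring
  have A3 : ∀ j : ℕ, Ar ν (σ (σ (th (j + 8))) - Real.pi) (th (j + 7))
      = Ar ν (σ (σ (th j))) (th (j + 3)) := by
    intro j
    have e1 : σ (σ (th (j + 8))) = σ (σ (th (j + 4))) + Real.pi := B7_uu hσ (j + 4)
    have e2 : th (j + 7) = th (j + 3) + Real.pi := th_add_four (j + 3)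
    rw [e1, B7_uu hσ, e2, ← Ar_pi hsn (σ (σ (th j))) (th (j + 3))]
    congr 1
    ring
  have a10 := A1 0
  have a11 := A1 1
  have a12 := A1 2
  have a22 := A2 2
  have a23 := A2 3
  have a30 := A3 0
  have a31 := A3 1
  have k3 := B7_block h hσ m hm hD 3
  have k4 := B7_block h hσ m hm hD 4
  have k5 := B7_block h hσ m hm hD 5
  have k6 := B7_block h hσ m hm hD 6
  have p0 := h.phase_j hσ m hm hD 0
  have p1 := h.phase_j hσ m hm hD 1
  have p2 := h.phase_j hσ m hm hD 2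
  have p3 := h.phase_j hσ m hm hD 3
  have l0 := B7_low h hσ m hm hD 0
  have l1 := B7_low h hσ m hm hD 1
  have l2 := B7_low h hσ m hm hD 2
  have l3 := B7_low h hσ m hm hD 3
  obtain ⟨b0, d0⟩ := h.data_per hσ 0
  obtain ⟨b1, d1⟩ := h.data_per hσ 1
  obtain ⟨b2, d2⟩ := h.data_per hσ 2
  have t45 : th 4 ≤ th 5 := th_le (by norm_num)
  have t56 : th 5 ≤ th 6 := th_le (by norm_num)
  have t67 : th 6 ≤ th 7 := th_le (by norm_num)
  have t78 : th 7 ≤ th 8 := th_le (by norm_num)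
  have t8 : th 8 = th 4 + Real.pi := th_add_four 4
  have s1 := Ar_add hsn (th 4) (th 5) (th 6) t45 t56 (by linarith)
  have s2' := Ar_add hsn (th 4) (th 6) (th 7) (by linarith) t67 (by linarith)
  have s3' := Ar_add hsn (th 4) (th 7) (th 8) (by linarith) t78 (by linarith)
  have v := Ar_le_vol hsn (th 4) (th 8) (by linarith) (by linarith)
  norm_num only [Nat.zero_add] at a10 a11 a12 a22 a23 a30 a31 k3 k4 k5 k6 p0 p1 p2 p3 b0 b1 b2 d0 d1 d2
  rw [b0, d0] at p1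
  rw [b1, d1] at p2
  rw [b2, d2] at p3
  linarith

end Pool.H47.Oc
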