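import Pool.Agent.H61.Rh.G3
import Pool.Agent.H61.Rh.G5b
import Pool.Agent.H61.Rh.H1a

/-!
# Reinhardt's conjecture for disks in an octagon: definitions

The plane is `ℂ`.  `ee k = e^{ikπ/4}`.  `O` is the regular octagon `{z : ∀ k, dt (ee k) z ≤ 1}`
(inradius `1`), the points `ee k` are the midpoints of its sides.
`ON ν`: `ν` is a strictly convex norm whose unit ball is contained in `O` and contains the
points `ee k`.
-/

set_option autoImplicit false

namespace Pool.H47.Oc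

open Complex Pool.H61.Rh

/-- `√2` -/
noncomputable def s2 : ℝ := Real.sqrt 2

/-- `1 - 1/√2` -/
noncomputable def x0 : ℝ := 1 - s2 / 2

/-- `e^{iπ/4}` -/
noncomputable def w8 : ℂ := ⟨s2 / 2, s2 / 2⟩

/-- `e^{ikπ/4}` -/
noncomputable def ee (k : ℕ) : ℂ := w8 ^ k

/-- the conjectured constant of Reinhardt -/
noncomputable def cR : ℝ := (8 - Real.sqrt 32 - Real.log 2) / (Real.sqrt 8 - 1)

/-- the least determinant of a hexagon inscribed in the octagon `O` -/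
noncomputable def mO : ℝ := s2 - 1 / 2

/-- strictly convex norm, `ee k ∈ {ν ≤ 1} ⊆ O` -/
structure ON (ν : ℂ → ℝ) : Prop where
  sn : SN ν
  up : ∀ k : ℕ, ν (ee k) = 1
  low : ∀ (k : ℕ) (z : ℂ), dt (ee k) z ≤ ν z

/-- the angle `kπ/4` -/
noncomputable def th (k : ℕ) : ℝ := k * (Real.pi / 4)

/-! ### states

A hexagon `p = q - r` with `q = ee 3 * (Y - i x)`, `r = ee 4 * (Z + i y)`. -/

/-- determinant of the hexagon of the state `(x, Y, y, Z)` -/
noncomputable def Dst (x Y y Z : ℝ) : ℝ := ((Y - x) * y + (Y + x) * Z) / s2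

/-- half of the area swept between two states -/
noncomputable def TT (x Y y Z x' Y' y' Z' : ℝ) : ℝ :=
  ((Y * x' - x * Y') + (y * Z' - Z * y')
    + ((y + (Y + x) / s2) * (Z' - (Y' - x') / s2)
      - (Z - (Y - x) / s2) * (y' + (Y' + x') / s2))) / 2

/-- potential -/
noncomputable def Pot (m x Y y Z : ℝ) : ℝ :=
  x * Y - y * Z + Dst x Y y Z / 2 - m * Real.log (Y - x)
    - s2 * Z * Y * Real.log (Y / (Y - x))

/-- lower bound of the coefficient of `|dY|` at `Y = 1 - t` -/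
noncomputable def phq (b d t : ℝ) : ℝ :=
  (2 - s2) * (t * (x0 - b) / d) - 89 / 100 * (t * (x0 - b) / d) ^ 2
    - 2 * (t * (x0 - b) / d) * t - 9 / 10 * t ^ 2 - 8 / 5 * (b - d) ^ 2

/-- lower bound of the coefficient of `dZ` at `Z = 1 - t` -/
noncomputable def phr (m b d t : ℝ) : ℝ :=
  (2 - s2) * (t * (x0 - d) / b) - 89 / 100 * (t * (x0 - d) / b) ^ 2
    - s2 * t - 2 * (t * (x0 - d) / b) * t - s2 * Real.log (2 - s2 * m)
    + 2 * s2 * t / (2 - s2 * m) + 3 * t ^ 2 - 8 / 5 * (b - d) ^ 2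

/-- primitive of `phq` -/
noncomputable def Psq (b d t : ℝ) : ℝ :=
  (2 - s2) * ((x0 - b) / d) * t ^ 2 / 2 - 89 / 100 * ((x0 - b) / d) ^ 2 * t ^ 3 / 3
    - 2 / 3 * ((x0 - b) / d) * t ^ 3 - 3 / 10 * t ^ 3 - 8 / 5 * (b - d) ^ 2 * t

/-- primitive of `phr` -/
noncomputable def Psr (m b d t : ℝ) : ℝ :=
  (2 - s2) * ((x0 - d) / b) * t ^ 2 / 2 - 89 / 100 * ((x0 - d) / b) ^ 2 * t ^ 3 / 3
    - s2 * t ^ 2 / 2 - 2 / 3 * ((x0 - d) / b) * t ^ 3 - s2 * Real.log (2 - s2 * m) * t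
    + s2 * t ^ 2 / (2 - s2 * m) + t ^ 3 - 8 / 5 * (b - d) ^ 2 * t

/-- determinant of the hexagon with vertex `ee k` and deficits `b, d` -/
noncomputable def Dd (b d : ℝ) : ℝ := (1 + x0 - b - d) / s2

/-- contribution of the end of a phase -/
noncomputable def Fq (m b d : ℝ) : ℝ :=
  (x0 - b) * (1 - d) - (m - s2 * (1 - d)) * Real.log (1 - d - x0 + b)
    - s2 * (1 - d) * Real.log (1 - d)
    + ((2 - s2) * d * (x0 - b) / 2 - 89 / 100 * d * (x0 - b) ^ 2 / 3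
      - 2 / 3 * (x0 - b) * d ^ 2 - 3 / 10 * d ^ 3 - 8 / 5 * (b - d) ^ 2 * d)
    + Dd b d / 2

/-- contribution of the start of a phase -/
noncomputable def Fr (m b d : ℝ) : ℝ :=
  (x0 - d) * (1 - b)
    + ((2 - s2) * b * (x0 - d) / 2 - 89 / 100 * b * (x0 - d) ^ 2 / 3
      - 2 / 3 * (x0 - d) * b ^ 2 - s2 * b ^ 2 / 2 - s2 * b * Real.log (2 - s2 * m)
      + s2 * b ^ 2 / (2 - s2 * m) + b ^ 3 - 8 / 5 * (b - d) ^ 2 * b)
    - Dd b d / 2

/-- the value of `Fq m b d + Fr m b d - cR / 2 * m` at `m = Dd b d` -/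
noncomputable def G1 (b d : ℝ) : ℝ :=
  -(1 + x0) * (b + d) + 2 * b * d + Real.log 2 / 4 * (s2 * (b + d))
    + (1 + s2 * (b - d)) / 2 * Real.log (1 + s2 * (b - d)) - s2 * (1 - d) * Real.log (1 - d)
    + ((2 - s2) * (d * (x0 - b) + b * (x0 - d)) / 2
      - 89 / 100 * (d * (x0 - b) ^ 2 + b * (x0 - d) ^ 2) / 3
      - 2 / 3 * ((x0 - b) * d ^ 2 + (x0 - d) * b ^ 2) - s2 * b ^ 2 / 2 - 3 / 10 * d ^ 3 + b ^ 3
      - 8 / 5 * (b - d) ^ 2 * (b + d))
    - s2 * b * Real.log (1 + s2 * (b + d)) + 2 * b ^ 2 / (1 + s2 * (b + d))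
    + cR / 4 * (s2 * (b + d))

/-- sum of the cross products along a partition -/
noncomputable def Sm (ν : ℂ → ℝ) (n : ℕ) (t : ℕ → ℝ) : ℝ :=
  ∑ i ∈ Finset.range n, cr (Gp ν (t i)) (Gp ν (t (i + 1)))

/-- twice the area of the sector `[a, b]` of `{ν ≤ 1}` (supremum over inscribed polygons) -/
noncomputable def Ar (ν : ℂ → ℝ) (a b : ℝ) : ℝ :=
  sSup {S : ℝ | ∃ (n : ℕ) (t : ℕ → ℝ), Monotone t ∧ t 0 = a ∧ t n = b ∧ S = Sm ν n t}

/-- deficits of the hexagon with vertex `ee k`: the vertices are `ee k`, `P = Gp (σ (th k))` and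
`Q = ee k - P`; `P = ee (k+1) * ((1 - b) + i (x0 - d))`, `Q = ee (k+7) * ((1 - d) - i (x0 - b))` -/
noncomputable def bk (ν : ℂ → ℝ) (σ : ℝ → ℝ) (k : ℕ) : ℝ :=
  1 - dt (ee (k + 1)) (Gp ν (σ (th k)))

noncomputable def dk (ν : ℂ → ℝ) (σ : ℝ → ℝ) (k : ℕ) : ℝ :=
  1 - dt (ee (k + 7)) (ee k - Gp ν (σ (th k)))

/-- all inscribed hexagons have determinant at least `m` -/
def HD (ν : ℂ → ℝ) (m : ℝ) : Prop :=
  ∀ p q : ℂ, ν p = 1 → ν q = 1 → ν (q - p) = 1 → 0 < cr p q → m ≤ cr p q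

/-! ### elementary lemmas -/

lemma s2_sq : s2 ^ 2 = 2 := by
  unfold s2; exact Real.sq_sqrt (by norm_num)

lemma s2_mul : s2 * s2 = 2 := by
  have := s2_sq; nlinarith

lemma s2_pos : 0 < s2 := by
  unfold s2; exact Real.sqrt_pos.mpr (by norm_num)

lemma s2_gt : (14142135 / 10000000 : ℝ) < s2 := by
  unfold s2; rw [Real.lt_sqrt (by norm_num)]; norm_num

lemma s2_lt : s2 < (14142136 / 10000000 : ℝ) := by
  unfold s2; rw [Real.sqrt_lt' (by norm_num)]; norm_num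

lemma w8_re : w8.re = s2 / 2 := rfl

lemma w8_im : w8.im = s2 / 2 := rfl

lemma w8_sq : w8 ^ 2 = I := by
  have h := s2_mul
  apply Complex.ext
  · simp only [pow_two, mul_re, w8_re, w8_im, I_re]; ring
  · simp only [pow_two, mul_im, w8_re, w8_im, I_im]; nlinarith

lemma w8_four : w8 ^ 4 = -1 := by
  rw [show (4 : ℕ) = 2 * 2 from rfl, pow_mul, w8_sq, I_sq]

lemma ee_zero : ee 0 = 1 := by simp [ee]

lemma ee_add_four (k : ℕ) : ee (k + 4) = - ee k := by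
  unfold ee; rw [pow_add, w8_four]; ring

lemma ee_add_eight (k : ℕ) : ee (k + 8) = ee k := by
  rw [show k + 8 = (k + 4) + 4 from rfl, ee_add_four, ee_add_four, neg_neg]

lemma ee_succ (k : ℕ) : ee (k + 1) = w8 * ee k := by
  unfold ee; rw [pow_succ]; ring

lemma normSq_w8 : normSq w8 = 1 := by
  have h := s2_mul
  rw [normSq_apply, w8_re, w8_im]; nlinarith

lemma norm_w8 : ‖w8‖ = 1 := by
  have := normSq_w8
  rw [normSq_eq_norm_sq] at this
  nlinarith [norm_nonneg w8]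

lemma norm_ee (k : ℕ) : ‖ee k‖ = 1 := by
  unfold ee; rw [norm_pow, norm_w8, one_pow]

lemma normSq_ee (k : ℕ) : normSq (ee k) = 1 := by
  rw [normSq_eq_norm_sq, norm_ee, one_pow]

lemma w8_eq_exp : w8 = exp (((Real.pi / 4 : ℝ) : ℂ) * I) := by
  rw [exp_mul_I]
  apply Complex.ext
  · rw [← ofReal_cos, ← ofReal_sin]
    simp [w8_re, Real.cos_pi_div_four, s2]
  · rw [← ofReal_cos, ← ofReal_sin]
    simp [w8_im, Real.sin_pi_div_four, s2]

lemma ee_eq_exp (k : ℕ) : ee k = exp ((th k : ℂ) * I) := by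
  unfold ee th
  rw [w8_eq_exp, ← Complex.exp_nat_mul]
  congr 1
  push_cast
  ring

lemma th_succ (k : ℕ) : th (k + 1) = th k + Real.pi / 4 := by
  unfold th; push_cast; ring

lemma th_add_four (k : ℕ) : th (k + 4) = th k + Real.pi := by
  unfold th; push_cast; ring

lemma th_zero : th 0 = 0 := by simp [th]

lemma th_lt {i j : ℕ} (h : i < j) : th i < th j := by
  unfold th
  have : (i : ℝ) < j := by exact_mod_cast h
  have hp := Real.pi_pos
  nlinarith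

lemma th_le {i j : ℕ} (h : i ≤ j) : th i ≤ th j := by
  unfold th
  have : (i : ℝ) ≤ j := by exact_mod_cast h
  have hp := Real.pi_pos
  nlinarith

/-- the boundary point of angle `kπ/4` is `ee k` -/
lemma ON.Gp_th {ν : ℂ → ℝ} (h : ON ν) (k : ℕ) : Gp ν (th k) = ee k := by
  unfold Gp
  rw [← ee_eq_exp, h.up]
  simp

end Pool.H47.Oc
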