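import Pool.Agent.H47.Oc.A4
import Pool.Agent.H47.Oc.B7

/-! # C1: a good inscribed hexagon

By contradiction with `m = (1 + ε) V / (4 cR)`, `V` the volume: `cr p q > m` for all inscribed
hexagons, so `HD ν m`; `m ≥ 8702/10000` by `hV` and `cR_bd` (`3.1412 / 3.60965680 = .87022`);
`ON.main` gives `(1 + ε) V ≤ V`, but `0 < V`. -/

set_option autoImplicit false

namespace Pool.H47.Oc

open Complex Finset MeasureTheory Pool.H61.Rh

theorem ON.hexagon {ν : ℂ → ℝ} (h : ON ν) (ε : ℝ) (hε : 0 < ε)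
    (hV : 31412 / 10000 ≤ (volume {z : ℂ | ν z ≤ 1}).toReal) :
    ∃ p q : ℂ, ν p = 1 ∧ ν q = 1 ∧ ν (q - p) = 1 ∧ 0 < cr p q ∧
      4 * cR * cr p q ≤ (1 + ε) * (volume {z : ℂ | ν z ≤ 1}).toReal := by
  by_contra hcon
  push Not at hcon
  obtain ⟨hc1, hc2⟩ := cR_bd
  have hmain0 := fun m => h.main m
  generalize (volume {z : ℂ | ν z ≤ 1}).toReal = V at hV hcon hmain0
  have hpos : (0 : ℝ) < 4 * cR := by linarith
  have hVpos : 0 < V := by linarith
  have hD : HD ν ((1 + ε) * V / (4 * cR)) := by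
    intro p q hp hq hpq hcr
    have h1 := hcon p q hp hq hpq hcr
    rw [div_le_iff₀ hpos]
    linarith
  have hm : 8702 / 10000 ≤ (1 + ε) * V / (4 * cR) := by
    rw [le_div_iff₀ hpos]
    nlinarith
  have hmain := hmain0 _ hm hD
  rw [mul_div_cancel₀ _ (ne_of_gt hpos)] at hmain
  nlinarith

end Pool.H47.Oc
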