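import Pool.Agent.H47.Oc.Basic

/-! # C2: strictly convex approximation of a body between the eight points and the octagon

`ν z = (1 - ε) * gauge K z + ε * ‖z‖`.  `K` is a neighbourhood of `0` (symmetric, convex, interior
nonempty; see the proof of `Pool.H61.Rh.sn_of_body` in `Pool/Agent/H61/Rh/H1b.lean`, whose private
lemmas you can copy).  `dt (ee k) z ≤ gauge K z`: `gauge K z < a` implies `z ∈ a K`, so
`dt (ee k) z ≤ a`.  `dt (ee k) z ≤ ‖z‖` by Cauchy-Schwarz (`norm_ee`).  `gauge K (ee k) = 1`: `≤ 1`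
because `ee k ∈ K`, `≥ dt (ee k) (ee k) = 1`.  `ν z ≤ 1` implies `gauge K ((1 - ε) z) ≤ 1`, and `K`
is closed.  For `z ∈ K`: `gauge K z ≤ 1`, `|re z|, |im z| ≤ 1` (`ee 0 = 1`, `ee 2 = I` and
symmetry), so `‖z‖ ≤ 2` and `ν z ≤ 1 - ε + 2 ε`. -/

set_option autoImplicit false

namespace Pool.H47.Oc

open Complex Finset MeasureTheory Pool.H61.Rh

private lemma C2_zero_mem (K : Set ℂ) (hc : Convex ℝ K) (hi : (interior K).Nonempty)
    (hs : ∀ x ∈ K, -x ∈ K) : K ∈ nhds (0 : ℂ) := by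
  obtain ⟨x, hx⟩ := hi
  have hneg : -x ∈ interior K := by
    rw [mem_interior] at hx ⊢
    obtain ⟨t, ht, hto, hxt⟩ := hx
    refine ⟨-t, ?_, hto.neg, by simpa using hxt⟩
    intro y hy
    have h1 : -y ∈ K := ht (by simpa using hy)
    have h2 := hs _ h1
    simpa using h2
  have h0 : (0 : ℂ) ∈ interior K := by
    have h := hc.interior hx hneg (by norm_num : (0 : ℝ) ≤ 1 / 2) (by norm_num : (0 : ℝ) ≤ 1 / 2)
      (by norm_num)
    have h2 : ((1 / 2 : ℝ) • x + (1 / 2 : ℝ) • (-x)) = 0 := by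
      rw [smul_neg, add_neg_cancel]
    rwa [h2] at h
  exact mem_interior_iff_mem_nhds.mp h0

private lemma C2_gauge_hom (K : Set ℂ) (hs : ∀ x ∈ K, -x ∈ K) (t : ℝ) (x : ℂ) :
    gauge K (t * x) = |t| * gauge K x := by
  have hx : ((t : ℂ) * x) = t • x := by rw [real_smul]
  rw [hx]
  rcases le_total 0 t with h | h
  · rw [gauge_smul_of_nonneg h, abs_of_nonneg h, smul_eq_mul]
  · have h2 : t • x = -((-t) • x) := by rw [neg_smul, neg_neg]
    rw [h2, gauge_neg hs, gauge_smul_of_nonneg (by linarith), abs_of_nonpos h, smul_eq_mul]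

private lemma C2_cs (x y : ℂ) : dt x y ^ 2 + cr x y ^ 2 = (‖x‖ * ‖y‖) ^ 2 := by
  rw [mul_pow]
  simp only [← normSq_eq_norm_sq, normSq_apply, dt, cr]
  ring

private lemma C2_norm_lt (x y : ℂ) (h : cr x y ≠ 0) : ‖x + y‖ < ‖x‖ + ‖y‖ := by
  have h1 : ‖x + y‖ ^ 2 = ‖x‖ ^ 2 + ‖y‖ ^ 2 + 2 * dt x y := by
    simp only [← normSq_eq_norm_sq, normSq_apply, dt, add_re, add_im]; ring
  have h2 := C2_cs x y
  have h3 : 0 < cr x y ^ 2 := by positivity
  have h4 : 0 ≤ ‖x‖ * ‖y‖ := by positivity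
  have h5 : dt x y < ‖x‖ * ‖y‖ := by nlinarith
  have h6 : 0 ≤ ‖x‖ + ‖y‖ := by positivity
  nlinarith [norm_nonneg (x + y)]

private lemma C2_dt_norm (k : ℕ) (z : ℂ) : dt (ee k) z ≤ ‖z‖ := by
  have h2 := C2_cs (ee k) z
  rw [norm_ee, one_mul] at h2
  have h3 := sq_nonneg (cr (ee k) z)
  have h4 := norm_nonneg z
  exact le_of_abs_le (abs_le_of_sq_le_sq (by linarith) h4)

private lemma C2_dt_gauge (K : Set ℂ) (habs : Absorbent ℝ K) (hO : ∀ z ∈ K, ∀ k, dt (ee k) z ≤ 1)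
    (k : ℕ) (z : ℂ) : dt (ee k) z ≤ gauge K z := by
  refine le_of_forall_gt_imp_ge_of_dense (fun a ha => ?_)
  obtain ⟨b, hb0, hba, hz⟩ := exists_lt_of_gauge_lt habs ha
  obtain ⟨w, hw, rfl⟩ := hz
  have h1 := hO w hw k
  have h2 : dt (ee k) (b • w) = b * dt (ee k) w := by
    unfold dt
    rw [real_smul, re_ofReal_mul, im_ofReal_mul]
    ring
  simp only [] at h2 ⊢
  rw [h2]
  have h3 := mul_le_mul_of_nonneg_left h1 hb0.le
  linarith

theorem on_of_body (K : Set ℂ) (hc : Convex ℝ K) (hk : IsCompact K) (hi : (interior K).Nonempty)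
    (hs : ∀ x ∈ K, -x ∈ K) (h8 : ∀ k, ee k ∈ K) (hO : ∀ z ∈ K, ∀ k, dt (ee k) z ≤ 1)
    (ε : ℝ) (h0 : 0 < ε) (h1 : ε < 1) :
    ∃ ν : ℂ → ℝ, ON ν ∧ (∀ z, ν z ≤ 1 → ((1 - ε : ℝ) : ℂ) * z ∈ K) ∧ ∀ z ∈ K, ν z ≤ 1 + ε := by
  have hK0 := C2_zero_mem K hc hi hs
  have habs : Absorbent ℝ K := absorbent_nhds_zero hK0
  have hε1 : 0 < 1 - ε := by linarith
  refine ⟨fun z => (1 - ε) * gauge K z + ε * ‖z‖, ⟨⟨?_, ?_, ?_, ?_⟩, ?_, ?_⟩, ?_, ?_⟩
  · intro x hx
    have g1 : 0 ≤ gauge K x := gauge_nonneg x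
    have g2 : 0 < ‖x‖ := norm_pos_iff.mpr hx
    have g3 : 0 < ε * ‖x‖ := by positivity
    have g4 : 0 ≤ (1 - ε) * gauge K x := mul_nonneg hε1.le g1
    show 0 < (1 - ε) * gauge K x + ε * ‖x‖
    linarith
  · intro t x
    show (1 - ε) * gauge K (t * x) + ε * ‖(t : ℂ) * x‖ = |t| * ((1 - ε) * gauge K x + ε * ‖x‖)
    rw [C2_gauge_hom K hs, norm_mul, norm_real, Real.norm_eq_abs]
    ring
  · intro x y
    show (1 - ε) * gauge K (x + y) + ε * ‖x + y‖ ≤
      ((1 - ε) * gauge K x + ε * ‖x‖) + ((1 - ε) * gauge K y + ε * ‖y‖)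
    have g1 := mul_le_mul_of_nonneg_left (gauge_add_le hc habs x y) hε1.le
    have g2 := mul_le_mul_of_nonneg_left (norm_add_le x y) h0.le
    linarith
  · intro x y hxy
    show (1 - ε) * gauge K (x + y) + ε * ‖x + y‖ <
      ((1 - ε) * gauge K x + ε * ‖x‖) + ((1 - ε) * gauge K y + ε * ‖y‖)
    have g1 := mul_le_mul_of_nonneg_left (gauge_add_le hc habs x y) hε1.le
    have g2 := mul_lt_mul_of_pos_left (C2_norm_lt x y hxy) h0
    linarith
  · intro k
    show (1 - ε) * gauge K (ee k) + ε * ‖ee k‖ = 1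
    have g1 : gauge K (ee k) ≤ 1 := gauge_le_one_of_mem (h8 k)
    have g2 := C2_dt_gauge K habs hO k (ee k)
    have g3 : dt (ee k) (ee k) = 1 := by
      have g4 := normSq_ee k
      rw [normSq_apply] at g4
      exact g4
    have g5 : gauge K (ee k) = 1 := le_antisymm g1 (by linarith)
    rw [g5, norm_ee]
    ring
  · intro k z
    show dt (ee k) z ≤ (1 - ε) * gauge K z + ε * ‖z‖
    have g1 := mul_le_mul_of_nonneg_left (C2_dt_gauge K habs hO k z) hε1.le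
    have g2 := mul_le_mul_of_nonneg_left (C2_dt_norm k z) h0.le
    linarith
  · intro z hz
    have hz' : (1 - ε) * gauge K z + ε * ‖z‖ ≤ 1 := hz
    have g2 : 0 ≤ ε * ‖z‖ := by positivity
    have g3 : gauge K (((1 - ε : ℝ) : ℂ) * z) ≤ 1 := by
      rw [C2_gauge_hom K hs, abs_of_pos hε1]
      linarith
    have g4 := (gauge_le_one_iff_mem_closure hc hK0).mp g3
    rwa [hk.isClosed.closure_eq] at g4
  · intro z hz
    show (1 - ε) * gauge K z + ε * ‖z‖ ≤ 1 + ε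
    have g1 : gauge K z ≤ 1 := gauge_le_one_of_mem hz
    have hre : |z.re| ≤ 1 := by
      have e1 := hO z hz 0
      have e2 := hO (-z) (hs z hz) 0
      unfold dt at e1 e2
      rw [ee_zero, one_re, one_im] at e1 e2
      rw [neg_re, neg_im] at e2
      rw [abs_le]
      constructor <;> linarith
    have him : |z.im| ≤ 1 := by
      have e0 : ee 2 = I := by
        unfold ee
        exact w8_sq
      have e1 := hO z hz 2
      have e2 := hO (-z) (hs z hz) 2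
      unfold dt at e1 e2
      rw [e0, I_re, I_im] at e1 e2
      rw [neg_re, neg_im] at e2
      rw [abs_le]
      constructor <;> linarith
    have g2 : ‖z‖ ≤ 2 := (norm_le_abs_re_add_abs_im z).trans (by linarith)
    have g3 := mul_le_mul_of_nonneg_left g1 hε1.le
    have g4 := mul_le_mul_of_nonneg_left g2 h0.le
    linarith

end Pool.H47.Oc
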