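import Pool.Agent.H47.Oc.C1
import Pool.Agent.H47.Oc.C2

/-! # C3: packings of a body between the eight points and the octagon

Let `δ = min (ε / 10) (1 / 20000)`, `ν` from `on_of_body` with `δ`, `B = {ν ≤ 1}`.
`K ⊆ (1 + δ) B`, so `vol K ≤ (1 + δ)^2 vol B` and `vol B ≥ π / (1 + δ)^2 ≥ 3.1412`
(`volume` of a scaled set in `ℂ`: `MeasureTheory.Measure.addHaar_smul`, `finrank ℝ ℂ = 2`);
`(1 - δ) B ⊆ K`, so `(1 - δ)^2 vol B ≤ vol K`.  Hexagon `p, q` from `ON.hexagon` with `δ`: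
`4 cR cr p q ≤ (1 + δ) vol B ≤ (1 + δ) vol K / (1 - δ)^2`.  Take `v = 2 (1 + 2 δ) p`,
`w = 2 (1 + 2 δ) q`.  Packing: `x, x + (m v + n w) ∈ K` gives
`2 (1 + 2 δ) ≤ ν (m v + n w) ≤ 2 (1 + δ)` by `SN.lattice_far` (see `packing_C` in
`Pool/Agent/H61/Rh/H2.lean`), contradiction.  Density:
`vol K / |cr v w| ≥ cR (1 - δ)^2 / ((1 + 2 δ)^2 (1 + δ)) ≥ cR - 10 δ`. -/

set_option autoImplicit false

namespace Pool.H47.Oc

open Complex Finset MeasureTheory Pool.H61.Rh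
open scoped Pointwise

/-- volume of a scaled set. -/
private lemma C3_vol (r : ℝ) (hr : 0 ≤ r) (B : Set ℂ) :
    volume (r • B) = ENNReal.ofReal (r ^ 2) * volume B := by
  rw [Measure.addHaar_smul_of_nonneg volume hr B, Complex.finrank_real_complex]

/-- the final inequality. -/
private lemma C3_ineq (c ε δ X V W : ℝ) (hδ0 : 0 < δ) (hδ1 : δ ≤ 1 / 20000) (hδ : 10 * δ ≤ ε)
    (hc1 : c ≤ 1) (hX : 0 < X) (hV : 0 ≤ V) (h1 : (1 - δ) ^ 2 * V ≤ W)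
    (h2 : 4 * c * X ≤ (1 + δ) * V) : (c - ε) * ((2 * (1 + 2 * δ)) * ((2 * (1 + 2 * δ)) * X)) ≤ W := by
  have e1 : c - ε ≤ c * (1 - 8 * δ) := by nlinarith
  have e2 : 0 ≤ (2 * (1 + 2 * δ)) * ((2 * (1 + 2 * δ)) * X) := by positivity
  have e3 : 0 ≤ (1 - 8 * δ) * (1 + 2 * δ) ^ 2 := by
    have : 0 ≤ 1 - 8 * δ := by linarith
    positivity
  have e4 : (1 - 8 * δ) * (1 + 2 * δ) ^ 2 * (1 + δ) ≤ (1 - δ) ^ 2 := by
    have h3 : (1 - δ) ^ 2 - (1 - 8 * δ) * (1 + 2 * δ) ^ 2 * (1 + δ) =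
        δ * (1 + 33 * δ + 60 * δ ^ 2 + 32 * δ ^ 3) := by ring
    have h4 : 0 ≤ δ * (1 + 33 * δ + 60 * δ ^ 2 + 32 * δ ^ 3) := by positivity
    linarith
  calc (c - ε) * ((2 * (1 + 2 * δ)) * ((2 * (1 + 2 * δ)) * X))
      ≤ (c * (1 - 8 * δ)) * ((2 * (1 + 2 * δ)) * ((2 * (1 + 2 * δ)) * X)) :=
        mul_le_mul_of_nonneg_right e1 e2
    _ = ((1 - 8 * δ) * (1 + 2 * δ) ^ 2) * (4 * c * X) := by ring
    _ ≤ ((1 - 8 * δ) * (1 + 2 * δ) ^ 2) * ((1 + δ) * V) := mul_le_mul_of_nonneg_left h2 e3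
    _ = ((1 - 8 * δ) * (1 + 2 * δ) ^ 2 * (1 + δ)) * V := by ring
    _ ≤ (1 - δ) ^ 2 * V := mul_le_mul_of_nonneg_right e4 hV
    _ ≤ W := h1

theorem packing_class (K : Set ℂ) (hc : Convex ℝ K) (hk : IsCompact K)
    (hi : (interior K).Nonempty) (hs : ∀ x ∈ K, -x ∈ K) (h8 : ∀ k, ee k ∈ K)
    (hO : ∀ z ∈ K, ∀ k, dt (ee k) z ≤ 1) (hV : Real.pi ≤ (volume K).toReal)
    (ε : ℝ) (hε : 0 < ε) :
    ∃ v w : ℂ, cr v w ≠ 0 ∧
      (∀ m n : ℤ, ¬ (m = 0 ∧ n = 0) → ∀ x ∈ interior K, x + (m * v + n * w) ∉ interior K) ∧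
      cR - ε ≤ (volume K).toReal / |cr v w| := by
  set δ : ℝ := min (ε / 10) (1 / 20000) with hδ
  have hδ0 : 0 < δ := lt_min (by linarith) (by norm_num)
  have hδ1 : δ ≤ 1 / 20000 := min_le_right _ _
  have hδ2 : 10 * δ ≤ ε := by
    have := min_le_left (ε / 10) (1 / 20000 : ℝ)
    rw [← hδ] at this
    linarith
  obtain ⟨ν, hν, h1, h2⟩ := on_of_body K hc hk hi hs h8 hO δ hδ0 (by linarith)
  set B : Set ℂ := {z : ℂ | ν z ≤ 1} with hB
  have hKfin : volume K ≠ ⊤ := hk.measure_lt_top.ne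
  have hsub1 : (1 - δ) • B ⊆ K := by
    rintro z ⟨x, hx, rfl⟩
    have := h1 x hx
    simpa using this
  have hsub2 : K ⊆ (1 + δ) • B := by
    intro z hz
    have hpos : (0 : ℝ) < 1 + δ := by linarith
    rw [Set.mem_smul_set_iff_inv_smul_mem₀ hpos.ne']
    change ν ((1 + δ)⁻¹ • z) ≤ 1
    rw [Complex.real_smul, hν.sn.hom, abs_of_pos (inv_pos.2 hpos)]
    have h3 := h2 z hz
    rw [inv_mul_le_iff₀ hpos]
    linarith
  have hv1 : ENNReal.ofReal ((1 - δ) ^ 2) * volume B ≤ volume K := by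
    rw [← C3_vol (1 - δ) (by linarith) B]
    exact measure_mono hsub1
  have hv2 : volume K ≤ ENNReal.ofReal ((1 + δ) ^ 2) * volume B := by
    rw [← C3_vol (1 + δ) (by linarith) B]
    exact measure_mono hsub2
  have hp1 : 0 < (1 - δ) ^ 2 := by
    have : 0 < 1 - δ := by linarith
    positivity
  have hBfin : volume B ≠ ⊤ := by
    intro h3
    rw [h3, ENNReal.mul_top (by
      rw [Ne, ENNReal.ofReal_eq_zero, not_le]
      exact hp1)] at hv1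
    exact hKfin (top_le_iff.1 hv1)
  set V := (volume B).toReal with hVdef
  set W := (volume K).toReal with hWdef
  have hV0 : 0 ≤ V := ENNReal.toReal_nonneg
  have hr1 : (1 - δ) ^ 2 * V ≤ W := by
    have := ENNReal.toReal_mono hKfin hv1
    rwa [ENNReal.toReal_mul, ENNReal.toReal_ofReal (by positivity)] at this
  have hr2 : W ≤ (1 + δ) ^ 2 * V := by
    have := ENNReal.toReal_mono (ENNReal.mul_ne_top ENNReal.ofReal_ne_top hBfin) hv2
    rwa [ENNReal.toReal_mul, ENNReal.toReal_ofReal (by positivity)] at this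
  have hVlow : 31412 / 10000 ≤ V := by
    have h3 := Real.pi_gt_d6
    have h4 : (1 + δ) ^ 2 * V ≤ (1 + 1 / 20000) ^ 2 * V := by
      refine mul_le_mul_of_nonneg_right ?_ hV0
      nlinarith
    have h5 : Real.pi ≤ (1 + 1 / 20000) ^ 2 * V := by linarith
    norm_num at h3 h5 ⊢
    linarith
  obtain ⟨p, q, hp, hq, hr, hcr, hVX⟩ := hν.hexagon δ hδ0 hVlow
  have hR : (0 : ℝ) < 2 * (1 + 2 * δ) := by linarith
  obtain ⟨hcR1, hcR2⟩ := cR_bd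
  refine ⟨((2 * (1 + 2 * δ) : ℝ) : ℂ) * p, ((2 * (1 + 2 * δ) : ℝ) : ℂ) * q, ?_, ?_, ?_⟩
  · rw [cr_smul_left, cr_smul_right]
    positivity
  · intro m n hmn x hx hx'
    have e1 : (m : ℂ) * (((2 * (1 + 2 * δ) : ℝ) : ℂ) * p)
        + n * (((2 * (1 + 2 * δ) : ℝ) : ℂ) * q)
        = ((2 * (1 + 2 * δ) : ℝ) : ℂ) * (m * p + n * q) := by ring
    rw [e1] at hx'
    have h3 := hν.sn.lattice_far p q hp hq hr m n hmn
    have h4 : ν (((2 * (1 + 2 * δ) : ℝ) : ℂ) * (m * p + n * q))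
        = 2 * (1 + 2 * δ) * ν (m * p + n * q) := by
      rw [hν.sn.hom, abs_of_pos hR]
    have h5 := h2 x (interior_subset hx)
    have h6 := h2 _ (interior_subset hx')
    have h7 : ν (((2 * (1 + 2 * δ) : ℝ) : ℂ) * (m * p + n * q)) ≤
        ν (x + ((2 * (1 + 2 * δ) : ℝ) : ℂ) * (m * p + n * q)) + ν (-x) := by
      have := hν.sn.tri (x + ((2 * (1 + 2 * δ) : ℝ) : ℂ) * (m * p + n * q)) (-x)
      rwa [show x + ((2 * (1 + 2 * δ) : ℝ) : ℂ) * (m * p + n * q) + -x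
        = ((2 * (1 + 2 * δ) : ℝ) : ℂ) * (m * p + n * q) by ring] at this
    rw [hν.sn.neg, h4] at h7
    nlinarith
  · rw [cr_smul_left, cr_smul_right, abs_of_pos (by positivity), le_div_iff₀ (by positivity)]
    exact C3_ineq cR ε δ (cr p q) V W hδ0 hδ1 hδ2 (by linarith) hcr hV0 hr1 hVX

end Pool.H47.Oc
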