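import Pool.Agent.H47.Oc.C3

/-! # C5: transfer to `ℝ × ℝ` and linear images

`Oct` is the regular octagon in `ℝ × ℝ`.  For `K` with a linear coordinate change `T` as in
`InClass`, put `K' = {z : ℂ | T (z.re, z.im) ∈ K}`: preimage of `K` under a linear homeomorphism.
`ee 0 = 1`, `ee 1 = w8`, `ee 2 = I`, `ee 3 = -√2/2 + √2/2 i`, `ee (k+4) = - ee k`.
Volumes: `MeasureTheory.Measure.addHaar_image_linearMap` (both for `K` and for the disc) and
`Complex.volume_preserving_equiv_real_prod`; `volume {x | x.1^2 + x.2^2 ≤ 1} = π` from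
`Complex.volume_closedBall` (with the norm of `ℂ`).  The hypothesis `volume (T '' disc) ≤ volume K`
therefore gives `π ≤ volume K'` (`|det T| ≠ 0` is cancelled).
From `v', w'` for `K'` take `v = T (v'.re, v'.im)`, `w = T (w'.re, w'.im)`; the determinant
`v.1 * w.2 - v.2 * w.1` is `det T * cr v' w'` and `volume K = |det T| volume K'`.
`interior K' = {z | T (z.re, z.im) ∈ interior K}`. -/

set_option autoImplicit false

namespace Pool.H47.Oc

open Complex Finset MeasureTheory Pool.H61.Rh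

/-- `K` is contained in the affine regular octagon `T(Oct)`, contains the midpoints of its sides,
and its area is at least the area of the ellipse `T(disc)` inscribed in this octagon -/
def InClass (K : Set (ℝ × ℝ)) (T : (ℝ × ℝ) ≃ₗ[ℝ] (ℝ × ℝ)) : Prop :=
  (∀ x : ℝ × ℝ, T x ∈ K → |x.1| ≤ 1 ∧ |x.2| ≤ 1 ∧ |x.1 + x.2| ≤ Real.sqrt 2 ∧
      |x.1 - x.2| ≤ Real.sqrt 2) ∧
    T (1, 0) ∈ K ∧ T (0, 1) ∈ K ∧ T (Real.sqrt 2 / 2, Real.sqrt 2 / 2) ∈ K ∧
    T (Real.sqrt 2 / 2, -(Real.sqrt 2 / 2)) ∈ K ∧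
    volume (T '' {x : ℝ × ℝ | x.1 ^ 2 + x.2 ^ 2 ≤ 1}) ≤ volume K

private lemma C5_det (T : (ℝ × ℝ) ≃ₗ[ℝ] (ℝ × ℝ)) :
    LinearMap.det (T : (ℝ × ℝ) →ₗ[ℝ] (ℝ × ℝ)) =
      (T (1, 0)).1 * (T (0, 1)).2 - (T (0, 1)).1 * (T (1, 0)).2 := by
  rw [← LinearMap.det_toMatrix (Module.Basis.finTwoProd ℝ), Matrix.det_fin_two]
  simp [LinearMap.toMatrix_apply]

private lemma C5_det_ne (T : (ℝ × ℝ) ≃ₗ[ℝ] (ℝ × ℝ)) :
    LinearMap.det (T : (ℝ × ℝ) →ₗ[ℝ] (ℝ × ℝ)) ≠ 0 :=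
  (LinearEquiv.isUnit_det' T).ne_zero

/-- `z ↦ T (z.re, z.im)` -/
private noncomputable def C5_S (T : (ℝ × ℝ) ≃ₗ[ℝ] (ℝ × ℝ)) : ℂ ≃L[ℝ] (ℝ × ℝ) :=
  Complex.equivRealProdCLM.trans T.toContinuousLinearEquiv

private lemma C5_S_apply (T : (ℝ × ℝ) ≃ₗ[ℝ] (ℝ × ℝ)) (z : ℂ) : C5_S T z = T (z.re, z.im) := rfl

private lemma C5_T_apply (T : (ℝ × ℝ) ≃ₗ[ℝ] (ℝ × ℝ)) (x y : ℝ) :
    T (x, y) = x • T (1, 0) + y • T (0, 1) := by
  rw [← map_smul, ← map_smul, ← map_add]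
  congr 1
  simp

private lemma C5_cr (T : (ℝ × ℝ) ≃ₗ[ℝ] (ℝ × ℝ)) (v w : ℂ) :
    (C5_S T v).1 * (C5_S T w).2 - (C5_S T v).2 * (C5_S T w).1 =
      LinearMap.det (T : (ℝ × ℝ) →ₗ[ℝ] (ℝ × ℝ)) * cr v w := by
  rw [C5_det, C5_S_apply, C5_S_apply, C5_T_apply T v.re v.im, C5_T_apply T w.re w.im]
  unfold cr
  simp only [Prod.fst_add, Prod.snd_add, Prod.smul_fst, Prod.smul_snd, smul_eq_mul]
  ring

private lemma C5_vol (T : (ℝ × ℝ) ≃ₗ[ℝ] (ℝ × ℝ)) (K : Set (ℝ × ℝ)) :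
    volume K = ENNReal.ofReal |LinearMap.det (T : (ℝ × ℝ) →ₗ[ℝ] (ℝ × ℝ))| *
      volume ((C5_S T) ⁻¹' K) := by
  have h1 : volume ((C5_S T) ⁻¹' K) = volume ((T : (ℝ × ℝ) → (ℝ × ℝ)) ⁻¹' K) :=
    Complex.volume_preserving_equiv_real_prod.measure_preimage_equiv
      ((T : (ℝ × ℝ) → (ℝ × ℝ)) ⁻¹' K)
  rw [h1]
  have h2 := Measure.addHaar_image_linearMap (volume : Measure (ℝ × ℝ))
    (T : (ℝ × ℝ) →ₗ[ℝ] (ℝ × ℝ)) ((T : (ℝ × ℝ) → (ℝ × ℝ)) ⁻¹' K)
  rw [← h2]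
  congr 1
  exact (Set.image_preimage_eq K T.surjective).symm

private lemma C5_vol_disc :
    volume {x : ℝ × ℝ | x.1 ^ 2 + x.2 ^ 2 ≤ 1} = ENNReal.ofReal Real.pi := by
  rw [← Complex.volume_preserving_equiv_real_prod.measure_preimage_equiv]
  have h1 : (Complex.measurableEquivRealProd : ℂ → ℝ × ℝ) ⁻¹' {x : ℝ × ℝ | x.1 ^ 2 + x.2 ^ 2 ≤ 1} =
      Metric.closedBall (0 : ℂ) 1 := by
    ext z
    rw [Set.mem_preimage, mem_closedBall_zero_iff]
    show z.re ^ 2 + z.im ^ 2 ≤ 1 ↔ ‖z‖ ≤ 1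
    rw [← sq_le_one_iff₀ (norm_nonneg z), ← normSq_eq_norm_sq, normSq_apply, sq, sq]
  rw [h1, Complex.volume_closedBall]
  simp only [ENNReal.ofReal_one, one_pow, one_mul]
  rw [← ENNReal.ofReal_coe_nnreal, NNReal.coe_real_pi]

private lemma C5_s2 : Real.sqrt 2 / 2 = s2 / 2 := rfl

/-- induction over `k` modulo `4` -/
private lemma C5_ind (P : ℂ → Prop) (hneg : ∀ z, P z → P (-z)) (h0 : P (ee 0)) (h1 : P (ee 1))
    (h2 : P (ee 2)) (h3 : P (ee 3)) (k : ℕ) : P (ee k) := by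
  induction k using Nat.strong_induction_on with
  | _ k ih =>
    rcases Nat.lt_or_ge k 4 with hk | hk
    · interval_cases k
      · exact h0
      · exact h1
      · exact h2
      · exact h3
    · obtain ⟨j, rfl⟩ := Nat.exists_eq_add_of_le' hk
      rw [ee_add_four]
      exact hneg _ (ih j (by omega))

private lemma C5_ee1 : ee 1 = w8 := by simp [ee]

private lemma C5_ee2 : ee 2 = I := by rw [ee, w8_sq]

private lemma C5_ee3 : ee 3 = ⟨-(s2 / 2), s2 / 2⟩ := by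
  have h : ee 3 = w8 * ee 2 := by rw [← ee_succ]
  rw [h, C5_ee2]
  apply Complex.ext <;> simp [w8]

theorem class_pack (K : Set (ℝ × ℝ)) (hc : Convex ℝ K) (hk : IsCompact K)
    (hi : (interior K).Nonempty) (hs : ∀ x ∈ K, -x ∈ K) (T : (ℝ × ℝ) ≃ₗ[ℝ] (ℝ × ℝ))
    (hT : InClass K T) (ε : ℝ) (hε : 0 < ε) :
    ∃ v w : ℝ × ℝ, v.1 * w.2 - v.2 * w.1 ≠ 0 ∧
      (∀ m n : ℤ, ¬ (m = 0 ∧ n = 0) →
        ∀ x ∈ interior K, x + ((m : ℝ) • v + (n : ℝ) • w) ∉ interior K) ∧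
      cR - ε ≤ (volume K).toReal / |v.1 * w.2 - v.2 * w.1| := by
  obtain ⟨hO, h10, h01, h11, h1m, hV⟩ := hT
  set S := C5_S T with hS
  have hdet := C5_det_ne T
  set D := LinearMap.det (T : (ℝ × ℝ) →ₗ[ℝ] (ℝ × ℝ)) with hD
  have hint : S ⁻¹' interior K = interior (S ⁻¹' K) := S.toHomeomorph.preimage_interior K
  have hkK : IsCompact (S ⁻¹' K) := S.toHomeomorph.isCompact_preimage.2 hk
  have hcK : Convex ℝ (S ⁻¹' K) := hc.linear_preimage (S : ℂ →ₗ[ℝ] ℝ × ℝ)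
  have hiK : (interior (S ⁻¹' K)).Nonempty := by
    obtain ⟨x, hx⟩ := hi
    obtain ⟨z, rfl⟩ := S.surjective x
    exact ⟨z, by rw [← hint]; exact hx⟩
  have hsK : ∀ x ∈ S ⁻¹' K, -x ∈ S ⁻¹' K := by
    intro x hx
    rw [Set.mem_preimage, map_neg]
    exact hs _ hx
  have hm3 : T (-(s2 / 2), s2 / 2) ∈ K := by
    have h := hs _ h1m
    rw [← map_neg, Prod.neg_mk, neg_neg] at h
    exact h
  have h8 : ∀ k, ee k ∈ S ⁻¹' K := by
    intro k
    refine C5_ind (fun z => z ∈ S ⁻¹' K) hsK ?_ ?_ ?_ ?_ k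
    · rw [ee_zero]
      exact h10
    · rw [C5_ee1]
      exact h11
    · rw [C5_ee2]
      exact h01
    · rw [C5_ee3]
      exact hm3
  have hOK : ∀ z ∈ S ⁻¹' K, ∀ k, dt (ee k) z ≤ 1 := by
    intro z hz k
    obtain ⟨a1, a2, a3, a4⟩ := hO (z.re, z.im) hz
    dsimp only at a1 a2 a3 a4
    have hsq := s2_sq
    have hpos := s2_pos
    have e2 : Real.sqrt 2 = s2 := rfl
    rw [e2] at a3 a4
    rw [abs_le] at a1 a2 a3 a4
    have key : |dt (ee k) z| ≤ 1 := by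
      refine C5_ind (fun u => |dt u z| ≤ 1) ?_ ?_ ?_ ?_ ?_ k
      · intro u hu
        have : dt (-u) z = - dt u z := by
          unfold dt
          simp only [neg_re, neg_im]
          ring
        rw [this, abs_neg]
        exact hu
      · rw [ee_zero, abs_le]
        unfold dt
        simp only [one_re, one_im]
        constructor <;> linarith [a1.1, a1.2]
      · rw [C5_ee1, abs_le]
        unfold dt
        rw [w8_re, w8_im]
        constructor <;> nlinarith [a3.1, a3.2]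
      · rw [C5_ee2, abs_le]
        unfold dt
        simp only [I_re, I_im]
        constructor <;> linarith [a2.1, a2.2]
      · rw [C5_ee3, abs_le]
        unfold dt
        dsimp only
        constructor <;> nlinarith [a4.1, a4.2]
    exact (le_abs_self _).trans key
  have hofne : ENNReal.ofReal |D| ≠ 0 := by
    rw [Ne, ENNReal.ofReal_eq_zero, not_le]
    exact abs_pos.2 hdet
  have hVK : Real.pi ≤ (volume (S ⁻¹' K)).toReal := by
    have h1 : volume (T '' {x : ℝ × ℝ | x.1 ^ 2 + x.2 ^ 2 ≤ 1}) =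
        ENNReal.ofReal |D| * ENNReal.ofReal Real.pi := by
      rw [← C5_vol_disc]
      exact Measure.addHaar_image_linearMap volume (T : (ℝ × ℝ) →ₗ[ℝ] (ℝ × ℝ)) _
    rw [h1, C5_vol T K] at hV
    have h2 := (ENNReal.mul_le_mul_iff_right hofne ENNReal.ofReal_ne_top).1 hV
    have h3 : volume (S ⁻¹' K) ≠ ⊤ := hkK.measure_lt_top.ne
    exact (ENNReal.ofReal_le_iff_le_toReal h3).1 h2
  obtain ⟨v, w, hvw, hpack, hdens⟩ := packing_class (S ⁻¹' K) hcK hkK hiK hsK h8 hOK hVK ε hε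
  have hcr : (S v).1 * (S w).2 - (S v).2 * (S w).1 = D * cr v w := C5_cr T v w
  refine ⟨S v, S w, ?_, ?_, ?_⟩
  · rw [hcr]
    exact mul_ne_zero hdet hvw
  · intro m n hmn x hx hx'
    obtain ⟨z, rfl⟩ := S.surjective x
    have hz : z ∈ interior (S ⁻¹' K) := by rw [← hint]; exact hx
    refine hpack m n hmn z hz ?_
    rw [← hint, Set.mem_preimage]
    have e : S (z + ((m : ℂ) * v + (n : ℂ) * w)) = S z + ((m : ℝ) • S v + (n : ℝ) • S w) := by
      rw [map_add, map_add, ← map_smul, ← map_smul, Complex.real_smul, Complex.real_smul]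
      push_cast
      rfl
    rw [e]
    exact hx'
  · rw [hcr, C5_vol T K, ENNReal.toReal_mul, ENNReal.toReal_ofReal (abs_nonneg _), abs_mul,
      mul_div_mul_left _ _ (abs_pos.2 hdet).ne']
    exact hdens

end Pool.H47.Oc
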