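import Pool.Agent.H47.Oc.Basic

/-! # C6a: convex bodies with a rotation symmetry of order 8 in the plane `ℂ`

`K` is a neighbourhood of `0` (as in `Pool.H61.Rh.sn_of_body`).  The complement of `interior K` is
closed and nonempty; let `c` be a point of it of least norm (`IsClosed.exists_infDist_eq_dist` or
`IsCompact.exists_isMinOn` on a closed ball), `c ≠ 0`.  Every `z` with `‖z‖ < ‖c‖` is in `interior K`,
so `‖z‖ ≤ ‖c‖` implies `z ∈ K` (closed); in particular `c * ee k ∈ K` and the last claim.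
`c ∉ interior K`, so there is a supporting line (`geometric_hahn_banach_open_point`:
a continuous linear `f` with `f z < f c` for `z ∈ interior K`); as the open disc of radius `‖c‖` is
contained in `interior K`, `f z ≤ f c` on the closed disc forces `f = (positive constant) * dt c ·`:
so `dt c z ≤ ‖c‖^2` for all `z ∈ K` (`interior K` is dense in `K`, or use `z * t`, `t < 1`).
For `z` with `c * z ∈ K`: `c * z * ee j ∈ K` for all `j` by `hR`, and
`dt c (c * z * ee j) = ‖c‖^2 * re (z * ee j)`; with `j ≡ -k mod 8`, `dt (ee k) z = re (z * ee j)`. -/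

set_option autoImplicit false

namespace Pool.H47.Oc

open Complex Finset MeasureTheory Pool.H61.Rh

private lemma C6a_zero (K : Set ℂ) (hc : Convex ℝ K) (hi : (interior K).Nonempty)
    (hR : ∀ x ∈ K, w8 * x ∈ K) : (0 : ℂ) ∈ interior K := by
  obtain ⟨p, hp⟩ := hi
  have hneg : ∀ x ∈ K, -x ∈ K := by
    intro x hx
    have h := hR _ (hR _ (hR _ (hR _ hx)))
    have e : w8 * (w8 * (w8 * (w8 * x))) = w8 ^ 4 * x := by ring
    rw [e, w8_four, neg_one_mul] at h
    exact h
  have hq : -p ∈ interior K := by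
    rw [mem_interior] at hp ⊢
    obtain ⟨t, ht, ho, hpt⟩ := hp
    refine ⟨-t, ?_, ho.neg, by simpa using hpt⟩
    intro x hx
    have h1 := hneg _ (ht (Set.mem_neg.1 hx))
    rwa [neg_neg] at h1
  have h2 := hc.interior hp hq (a := 1 / 2) (b := 1 / 2) (by norm_num) (by norm_num)
    (by norm_num)
  have e : (1 / 2 : ℝ) • p + (1 / 2 : ℝ) • (-p) = 0 := by
    rw [smul_neg, add_neg_cancel]
  rwa [e] at h2

private lemma C6a_supp (K : Set ℂ) (hc : Convex ℝ K) (c : ℂ) (hcK : c ∉ interior K)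
    (hb : ∀ z : ℂ, normSq z < normSq c → z ∈ interior K) (z : ℂ) (hz : z ∈ K) :
    dt c z ≤ normSq c := by
  by_contra hcon
  rw [not_le] at hcon
  apply hcK
  have hz0 : 0 ≤ normSq z := normSq_nonneg z
  have hM : 0 < normSq z + 1 := by linarith
  have hδ : 0 < dt c z - normSq c := by linarith
  obtain ⟨t, ht⟩ : ∃ t, t = min (1 / 2) ((dt c z - normSq c) / (normSq z + 1)) := ⟨_, rfl⟩
  have ht0 : 0 < t := by
    rw [ht]
    exact lt_min (by norm_num) (div_pos hδ hM)
  have ht1 : t ≤ 1 / 2 := by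
    rw [ht]
    exact min_le_left _ _
  have ht2 : t * (normSq z + 1) ≤ dt c z - normSq c := by
    rw [← le_div_iff₀ hM, ht]
    exact min_le_right _ _
  have h1t : 0 < 1 - t := by linarith
  have hu : (((1 / (1 - t) : ℝ) : ℂ) * (c - (t : ℂ) * z)) ∈ interior K := by
    apply hb
    rw [normSq_mul, normSq_ofReal]
    have e : normSq (c - (t : ℂ) * z) = normSq c - 2 * t * dt c z + t ^ 2 * normSq z := by
      simp only [normSq_apply, sub_re, sub_im, mul_re, mul_im, ofReal_re, ofReal_im, dt]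
      ring
    rw [e]
    have e2 : 1 / (1 - t) * (1 / (1 - t)) * (normSq c - 2 * t * dt c z + t ^ 2 * normSq z) =
        (normSq c - 2 * t * dt c z + t ^ 2 * normSq z) / ((1 - t) * (1 - t)) := by
      field_simp
    rw [e2, div_lt_iff₀ (mul_pos h1t h1t)]
    have hc0 : 0 ≤ normSq c := normSq_nonneg c
    nlinarith [mul_pos ht0 hδ, mul_nonneg (mul_nonneg ht0.le ht0.le) hc0]
  have h3 := hc.combo_interior_self_mem_interior hu hz (a := 1 - t) (b := t) h1t ht0.le
    (by ring)
  have e : (1 - t) • (((1 / (1 - t) : ℝ) : ℂ) * (c - (t : ℂ) * z)) + t • z = c := by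
    rw [real_smul, real_smul, ← mul_assoc, ← ofReal_mul, mul_one_div_cancel h1t.ne']
    push_cast
    ring
  rwa [e] at h3

private lemma C6a_conj (k : ℕ) : (starRingEnd ℂ) (ee k) = ee (7 * k) := by
  have h1 : w8 * (starRingEnd ℂ) w8 = 1 := by
    rw [mul_conj, normSq_w8, ofReal_one]
  have h2 : w8 * w8 ^ 7 = 1 := by
    have : w8 * w8 ^ 7 = w8 ^ 4 * w8 ^ 4 := by ring
    rw [this, w8_four]
    norm_num
  have h0 : w8 ≠ 0 := by
    intro h
    rw [h, zero_mul] at h1
    exact zero_ne_one h1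
  have h3 : (starRingEnd ℂ) w8 = w8 ^ 7 := by
    apply mul_left_cancel₀ h0
    rw [h1, h2]
  unfold ee
  rw [map_pow, h3, ← pow_mul]

theorem sym_C (K : Set ℂ) (hc : Convex ℝ K) (hk : IsCompact K) (hi : (interior K).Nonempty)
    (hR : ∀ x ∈ K, w8 * x ∈ K) :
    ∃ c : ℂ, c ≠ 0 ∧ (∀ k, c * ee k ∈ K) ∧ (∀ z, c * z ∈ K → ∀ k, dt (ee k) z ≤ 1) ∧
      ∀ z, ‖z‖ ≤ 1 → c * z ∈ K := by
  have h0 := C6a_zero K hc hi hR
  have hne : ((interior K)ᶜ).Nonempty := by
    rw [Set.nonempty_compl]
    intro h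
    have h1 : K = Set.univ := by
      apply Set.eq_univ_of_univ_subset
      rw [← h]
      exact interior_subset
    rw [h1] at hk
    exact noncompact_univ ℂ hk
  obtain ⟨c, hcS, hcd⟩ := (isOpen_interior (s := K)).isClosed_compl.exists_infDist_eq_dist hne 0
  rw [dist_zero_left] at hcd
  have hball : ∀ z : ℂ, ‖z‖ < ‖c‖ → z ∈ interior K := by
    intro z hz
    by_contra hcon
    have h1 := Metric.infDist_le_dist_of_mem (x := (0 : ℂ)) (show z ∈ (interior K)ᶜ from hcon)
    rw [hcd, dist_zero_left] at h1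
    linarith
  have hc0 : c ≠ 0 := by
    rintro rfl
    exact hcS h0
  have hcn : ‖c‖ ≠ 0 := norm_ne_zero_iff.2 hc0
  have hcl : ∀ z : ℂ, ‖z‖ ≤ ‖c‖ → z ∈ K := by
    intro z hz
    have h1 : Metric.closedBall (0 : ℂ) ‖c‖ ⊆ K := by
      rw [← closure_ball (0 : ℂ) hcn]
      apply closure_minimal _ hk.isClosed
      intro x hx
      exact interior_subset (hball x (by rwa [mem_ball_zero_iff] at hx))
    exact h1 (by rwa [mem_closedBall_zero_iff])
  have hb : ∀ z : ℂ, normSq z < normSq c → z ∈ interior K := by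
    intro z hz
    apply hball
    rw [normSq_eq_norm_sq, normSq_eq_norm_sq] at hz
    exact lt_of_pow_lt_pow_left₀ 2 (norm_nonneg c) hz
  have hsupp := C6a_supp K hc c hcS hb
  refine ⟨c, hc0, ?_, ?_, ?_⟩
  · intro k
    apply hcl
    rw [norm_mul, norm_ee, mul_one]
  · intro z hz k
    have hrot : ∀ j, c * z * ee j ∈ K := by
      intro j
      induction j with
      | zero => rw [ee_zero, mul_one]; exact hz
      | succ j ih =>
        have h1 := hR _ ih
        have e : w8 * (c * z * ee j) = c * z * ee (j + 1) := by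
          rw [ee_succ]
          ring
        rwa [e] at h1
    have h1 := hsupp _ (hrot (7 * k))
    have e1 : dt c (c * z * ee (7 * k)) = normSq c * dt (ee k) z := by
      rw [dt_eq_re, dt_eq_re, ← C6a_conj]
      have : (starRingEnd ℂ) c * (c * z * (starRingEnd ℂ) (ee k)) =
          (normSq c : ℂ) * ((starRingEnd ℂ) (ee k) * z) := by
        rw [normSq_eq_conj_mul_self]
        ring
      rw [this, re_ofReal_mul]
    rw [e1] at h1
    have hpos : 0 < normSq c := normSq_pos.2 hc0
    nlinarith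
  · intro z hz
    apply hcl
    rw [norm_mul]
    calc ‖c‖ * ‖z‖ ≤ ‖c‖ * 1 := mul_le_mul_of_nonneg_left hz (norm_nonneg c)
      _ = ‖c‖ := mul_one _

end Pool.H47.Oc
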