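import Mathlib

/-! # C6b: a linear map `R` of the plane with `R^4 = -1` is conjugate to a rotation by 45 degrees

The characteristic polynomial of `R` has degree 2 and `R` satisfies `X^4 + 1 = (X^2 - √2 X + 1)
(X^2 + √2 X + 1)`.  Direct proof: with the matrix `a, b, c, d` of `R`
(`R (x, y) = (a x + b y, c x + d y)`), `t = a + d`, `D = a d - b c`, Cayley-Hamilton
`R^2 = t R - D`, so `R^4 = (t^3 - 2 t D) R - (t^2 D - D^2)`.  If `t^3 - 2 t D ≠ 0` then `R` is a scalar
`λ` with `λ^4 = -1`, impossible.  So `t^3 = 2 t D` and `t^2 D - D^2 = 1`.  If `t = 0` then `D^2 = -1`,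
impossible; so `t^2 = 2 D`, `D^2 = 1`, `D = 1` (as `t^2 > 0`), `t = √2` or `t = -√2`.
If `t = √2` take `T (x, y) = x • u + y • R (R u)` with `u = (1, 0)`;
`R u = (√2/2) (u + R (R u))`, `T` intertwines the rotation and `R`; `T` is injective because `u` is not
an eigenvector (`R u = λ u` gives `λ^4 = -1`).
If `t = -√2` the same with `-R` (then `(-R)^2 = √2 (-R) - 1`). -/

set_option autoImplicit false

namespace Pool.H47.Oc

private theorem C6b_entries (R : (ℝ × ℝ) →ₗ[ℝ] (ℝ × ℝ)) :
    ∃ a b c d : ℝ, ∀ x : ℝ × ℝ, R x = (a * x.1 + b * x.2, c * x.1 + d * x.2) := by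
  refine ⟨(R (1, 0)).1, (R (0, 1)).1, (R (1, 0)).2, (R (0, 1)).2, fun x => ?_⟩
  have hx : x = x.1 • ((1, 0) : ℝ × ℝ) + x.2 • ((0, 1) : ℝ × ℝ) := by
    ext <;> simp
  conv_lhs => rw [hx, map_add, map_smul, map_smul]
  ext
  · simp only [Prod.fst_add, Prod.smul_fst, smul_eq_mul]; ring
  · simp only [Prod.snd_add, Prod.smul_snd, smul_eq_mul]; ring

private theorem C6b_alg (a b c d : ℝ)
    (h11 : (a ^ 2 + b * c) ^ 2 + b * c * (a + d) ^ 2 = -1)
    (h21 : c * (a + d) * (a ^ 2 + 2 * (b * c) + d ^ 2) = 0)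
    (h12 : b * (a + d) * (a ^ 2 + 2 * (b * c) + d ^ 2) = 0)
    (h22 : (d ^ 2 + b * c) ^ 2 + b * c * (a + d) ^ 2 = -1) :
    (a + d) ^ 2 = 2 ∧ a * d - b * c = 1 ∧ c ≠ 0 := by
  have hc : c ≠ 0 := by
    intro h
    rw [h] at h11
    nlinarith [sq_nonneg (a ^ 2)]
  have ht : a + d ≠ 0 := by
    intro h
    rw [h] at h11
    nlinarith [sq_nonneg (a ^ 2 + b * c)]
  have hs : a ^ 2 + 2 * (b * c) + d ^ 2 = 0 := by
    rcases mul_eq_zero.1 h21 with h | h
    · exact absurd h (mul_ne_zero hc ht)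
    · exact h
  have hD2 : (a * d - b * c) ^ 2 = 1 := by
    have h3 : (a + d) ^ 2 = 2 * (a * d - b * c) := by linear_combination hs
    linear_combination -h11 + (a * (a + d) + b * c) * h3 - (a * d) * hs
  have h3 : (a + d) ^ 2 = 2 * (a * d - b * c) := by linear_combination hs
  have hpos : 0 < a * d - b * c := by
    have : 0 < (a + d) ^ 2 := by positivity
    linarith
  have hD : a * d - b * c = 1 := by
    nlinarith
  exact ⟨by rw [h3, hD]; norm_num, hD, hc⟩

theorem conj_rot (R : (ℝ × ℝ) →ₗ[ℝ] (ℝ × ℝ)) (hR : ∀ x, R (R (R (R x))) = -x) :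
    ∃ T : (ℝ × ℝ) ≃ₗ[ℝ] (ℝ × ℝ),
      (∀ x : ℝ × ℝ, T (Real.sqrt 2 / 2 * (x.1 - x.2), Real.sqrt 2 / 2 * (x.1 + x.2)) = R (T x)) ∨
      (∀ x : ℝ × ℝ,
        T (Real.sqrt 2 / 2 * (x.1 - x.2), Real.sqrt 2 / 2 * (x.1 + x.2)) = -(R (T x))) := by
  obtain ⟨a, b, c, d, hRx⟩ := C6b_entries R
  have h1 := hR (1, 0)
  have h2 := hR (0, 1)
  rw [hRx, hRx, hRx, hRx] at h1 h2
  rw [Prod.ext_iff] at h1 h2
  obtain ⟨h1a, h1b⟩ := h1
  obtain ⟨h2a, h2b⟩ := h2
  simp only [Prod.fst_neg, Prod.snd_neg] at h1a h1b h2a h2b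
  obtain ⟨htt, hD, hc⟩ := C6b_alg a b c d (by linear_combination h1a) (by linear_combination h1b)
    (by linear_combination h2a) (by linear_combination h2b)
  set t := a + d with ht
  have ht0 : t ≠ 0 := by
    intro h
    rw [h] at htt
    norm_num at htt
  have hr : c * t ≠ 0 := mul_ne_zero hc ht0
  set p := a ^ 2 + b * c with hp
  set r := c * t with hr'
  let T : (ℝ × ℝ) ≃ₗ[ℝ] (ℝ × ℝ) :=
    { toFun := fun x => (x.1 + x.2 * p, x.2 * r)
      invFun := fun x => (x.1 - x.2 / r * p, x.2 / r)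
      map_add' := by
        intro x y
        ext
        · simp only [Prod.fst_add, Prod.snd_add]; ring
        · simp only [Prod.fst_add, Prod.snd_add]; ring
      map_smul' := by
        intro m x
        ext
        · simp only [Prod.smul_fst, Prod.smul_snd, smul_eq_mul, RingHom.id_apply]; ring
        · simp only [Prod.smul_fst, Prod.smul_snd, smul_eq_mul, RingHom.id_apply]; ring
      left_inv := by
        intro x
        ext
        · simp only; field_simp; ring
        · simp only; field_simp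
      right_inv := by
        intro x
        ext
        · simp only; field_simp; ring
        · simp only; field_simp }
  have hT : ∀ x : ℝ × ℝ, T x = (x.1 + x.2 * p, x.2 * r) := fun _ => rfl
  have key1 : t / 2 * (1 + p) = a := by
    rw [hp, ht]
    rw [ht] at htt
    linear_combination (a / 2) * htt - (a + d) / 2 * hD
  have key2 : t / 2 * (p - 1) = a * p + b * r := by
    rw [hp, hr', ht]
    rw [ht] at htt
    linear_combination (- a / 2) * htt + ((a + d) / 2 + a) * hD
  have key3 : t / 2 * r = c := by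
    rw [hr']
    linear_combination (c / 2) * htt
  have key4 : t / 2 * r = c * p + d * r := by
    rw [key3, hp, hr', ht]
    rw [ht] at htt
    linear_combination (- c) * htt + c * hD
  refine ⟨T, ?_⟩
  have hs2 : Real.sqrt 2 ^ 2 = 2 := Real.sq_sqrt (by norm_num)
  have hts : (t - Real.sqrt 2) * (t + Real.sqrt 2) = 0 := by
    linear_combination htt - hs2
  rcases mul_eq_zero.1 hts with h | h
  · left
    intro x
    have hs : Real.sqrt 2 = t := by linarith
    rw [hT, hT, hRx, hs]
    ext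
    · simp only
      linear_combination x.1 * key1 + x.2 * key2
    · simp only
      linear_combination x.1 * key3 + x.2 * key4
  · right
    intro x
    have hs : Real.sqrt 2 = -t := by linarith
    rw [hT, hT, hRx, hs]
    ext
    · simp only [Prod.fst_neg]
      linear_combination -(x.1 * key1) - x.2 * key2
    · simp only [Prod.snd_neg]
      linear_combination -(x.1 * key3) - x.2 * key4

end Pool.H47.Oc
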