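import Pool.Agent.H47.Oc.C5
import Pool.Agent.H47.Oc.C6a
import Pool.Agent.H47.Oc.C6b

/-! # C6: convex bodies with a linear symmetry of order 8 belong to the class

`T₀` from `conj_rot`; `K' = {z : ℂ | T₀ (z.re, z.im) ∈ K}` satisfies the hypotheses of `sym_C`
(`w8 * z` has the coordinates `(√2/2 (re - im), √2/2 (re + im))`; in the second case of `conj_rot` use
`hs`).  With its `c` take `T x = T₀ (re (c (x.1 + x.2 i)), im (c (x.1 + x.2 i)))` (a linear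
equivalence since `c ≠ 0`).  `|x.1| ≤ 1` etc. from `dt (ee k) z ≤ 1` for `k = 0, ..., 7`
(`ee (k + 4) = - ee k`); `T '' disc ⊆ K` gives the last condition. -/

set_option autoImplicit false

namespace Pool.H47.Oc

open Complex Finset MeasureTheory Pool.H61.Rh

private lemma C6_ee1 : ee 1 = ⟨s2 / 2, s2 / 2⟩ := by
  unfold ee
  rw [pow_one]
  rfl

private lemma C6_ee2 : ee 2 = ⟨0, 1⟩ := by
  unfold ee
  rw [w8_sq]
  rfl

private lemma C6_ee3 : ee 3 = ⟨-(s2 / 2), s2 / 2⟩ := by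
  unfold ee
  have h : w8 ^ 3 = w8 ^ 2 * w8 := by ring
  rw [h, w8_sq]
  apply Complex.ext
  · rw [mul_re, I_re, I_im, w8_re, w8_im]
    ring
  · rw [mul_im, I_re, I_im, w8_re, w8_im]
    ring

/-- the octagon inequalities in coordinates -/
private lemma C6_oct (z : ℂ) (h : ∀ k, dt (ee k) z ≤ 1) :
    |z.re| ≤ 1 ∧ |z.im| ≤ 1 ∧ |z.re + z.im| ≤ Real.sqrt 2 ∧ |z.re - z.im| ≤ Real.sqrt 2 := by
  have h0 := h 0
  have h4 := h (0 + 4)
  have h1 := h 1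
  have h5 := h (1 + 4)
  have h2 := h 2
  have h6 := h (2 + 4)
  have h3 := h 3
  have h7 := h (3 + 4)
  rw [ee_add_four] at h4 h5 h6 h7
  rw [ee_zero] at h0 h4
  rw [C6_ee1] at h1 h5
  rw [C6_ee2] at h2 h6
  rw [C6_ee3] at h3 h7
  unfold dt at h0 h1 h2 h3 h4 h5 h6 h7
  simp only [neg_re, neg_im, one_re, one_im] at h0 h1 h2 h3 h4 h5 h6 h7
  have hs : Real.sqrt 2 = s2 := rfl
  have hss := s2_mul
  have hs0 := s2_pos
  rw [hs, abs_le, abs_le, abs_le, abs_le]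
  have key : ∀ y : ℝ, s2 / 2 * y ≤ 1 → y ≤ s2 := by
    intro y hy
    have h8 : s2 * (s2 / 2 * y) ≤ s2 * 1 := mul_le_mul_of_nonneg_left hy hs0.le
    have h9 : s2 * (s2 / 2 * y) = y := by linear_combination (y / 2) * hss
    linarith
  have k1 := key (z.re + z.im) (by linarith)
  have k2 := key (-(z.re + z.im)) (by linarith)
  have k3 := key (z.re - z.im) (by linarith)
  have k4 := key (-(z.re - z.im)) (by linarith)
  refine ⟨⟨by linarith, by linarith⟩, ⟨by linarith, by linarith⟩, ⟨by linarith, k1⟩,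
    ⟨by linarith, k3⟩⟩

/-- the set in the complex plane -/
private lemma C6_main (K : Set (ℝ × ℝ)) (hc : Convex ℝ K) (hk : IsCompact K)
    (hi : (interior K).Nonempty) (T₀ : (ℝ × ℝ) ≃ₗ[ℝ] (ℝ × ℝ))
    (h8 : ∀ x : ℝ × ℝ, T₀ x ∈ K →
      T₀ (Real.sqrt 2 / 2 * (x.1 - x.2), Real.sqrt 2 / 2 * (x.1 + x.2)) ∈ K) :
    ∃ T : (ℝ × ℝ) ≃ₗ[ℝ] (ℝ × ℝ), InClass K T := by
  obtain ⟨L, hL⟩ : ∃ L : ℂ ≃L[ℝ] (ℝ × ℝ), ∀ z : ℂ, L z = T₀ (z.re, z.im) :=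
    ⟨Complex.equivRealProdCLM.trans T₀.toContinuousLinearEquiv, fun z => rfl⟩
  have hmem : ∀ z : ℂ, z ∈ L ⁻¹' K ↔ T₀ (z.re, z.im) ∈ K := by
    intro z
    rw [Set.mem_preimage, hL]
  have hconv : Convex ℝ (L ⁻¹' K) := hc.linear_preimage L.toLinearEquiv.toLinearMap
  have hcomp : IsCompact (L ⁻¹' K) := L.toHomeomorph.isCompact_preimage.mpr hk
  have hint : (interior (L ⁻¹' K)).Nonempty := by
    obtain ⟨y, hy⟩ := hi
    refine ⟨L.symm y, ?_⟩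
    have h1 : interior (L ⁻¹' K) = L ⁻¹' interior K :=
      (L.toHomeomorph.preimage_interior K).symm
    rw [h1, Set.mem_preimage, L.apply_symm_apply]
    exact hy
  have hrot : ∀ z ∈ L ⁻¹' K, w8 * z ∈ L ⁻¹' K := by
    intro z hz
    rw [hmem] at hz ⊢
    have h1 := h8 _ hz
    have e1 : (w8 * z).re = Real.sqrt 2 / 2 * (z.re - z.im) := by
      rw [mul_re, w8_re, w8_im]
      show s2 / 2 * z.re - s2 / 2 * z.im = s2 / 2 * (z.re - z.im)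
      ring
    have e2 : (w8 * z).im = Real.sqrt 2 / 2 * (z.re + z.im) := by
      rw [mul_im, w8_re, w8_im]
      show s2 / 2 * z.im + s2 / 2 * z.re = s2 / 2 * (z.re + z.im)
      ring
    rw [e1, e2]
    exact h1
  obtain ⟨c, hc0, hc1, hc2, hc3⟩ := sym_C (L ⁻¹' K) hconv hcomp hint hrot
  obtain ⟨T, hT⟩ : ∃ T : (ℝ × ℝ) ≃ₗ[ℝ] (ℝ × ℝ), ∀ x : ℝ × ℝ, T x = L (c * ⟨x.1, x.2⟩) :=
    ⟨(Complex.equivRealProdLm.symm.trans
      ((LinearEquiv.smulOfNeZero ℂ ℂ c hc0).restrictScalars ℝ)).trans L.toLinearEquiv,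
      fun x => rfl⟩
  have hTK : ∀ x : ℝ × ℝ, T x ∈ K ↔ c * ⟨x.1, x.2⟩ ∈ L ⁻¹' K := by
    intro x
    rw [hT]
    rfl
  refine ⟨T, ?_, ?_, ?_, ?_, ?_, ?_⟩
  · intro x hx
    exact C6_oct ⟨x.1, x.2⟩ (hc2 _ ((hTK x).mp hx))
  · rw [hTK]
    have h1 := hc1 0
    rw [ee_zero] at h1
    exact h1
  · rw [hTK]
    have h1 := hc1 2
    rw [C6_ee2] at h1
    exact h1
  · rw [hTK]
    have h1 := hc1 1
    rw [C6_ee1] at h1
    exact h1
  · rw [hTK]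
    have h1 := hc1 (3 + 4)
    rw [ee_add_four, C6_ee3] at h1
    have h2 : (-(⟨-(s2 / 2), s2 / 2⟩ : ℂ)) = ⟨Real.sqrt 2 / 2, -(Real.sqrt 2 / 2)⟩ := by
      apply Complex.ext
      · show -(-(s2 / 2)) = s2 / 2
        ring
      · rfl
    rw [h2] at h1
    exact h1
  · refine measure_mono ?_
    rintro y ⟨x, hx, rfl⟩
    rw [hTK]
    refine hc3 _ ?_
    have hx' : x.1 ^ 2 + x.2 ^ 2 ≤ 1 := hx
    have h1 : ‖(⟨x.1, x.2⟩ : ℂ)‖ ^ 2 ≤ 1 := by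
      rw [← normSq_eq_norm_sq, normSq_apply]
      show x.1 * x.1 + x.2 * x.2 ≤ 1
      nlinarith
    nlinarith [norm_nonneg (⟨x.1, x.2⟩ : ℂ)]

theorem class_of_sym (K : Set (ℝ × ℝ)) (hc : Convex ℝ K) (hk : IsCompact K)
    (hi : (interior K).Nonempty) (hs : ∀ x ∈ K, -x ∈ K) (R : (ℝ × ℝ) →ₗ[ℝ] (ℝ × ℝ))
    (hR : ∀ x, R (R (R (R x))) = -x) (hRK : ∀ x ∈ K, R x ∈ K) :
    ∃ T : (ℝ × ℝ) ≃ₗ[ℝ] (ℝ × ℝ), InClass K T := by
  obtain ⟨T₀, hT₀⟩ := conj_rot R hR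
  refine C6_main K hc hk hi T₀ ?_
  intro x hx
  rcases hT₀ with h | h
  · rw [h x]
    exact hRK _ hx
  · rw [h x]
    exact hs _ (hRK _ hx)

end Pool.H47.Oc
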