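import Pool.Agent.H47.Oc.C6
import Pool.Agent.H61.Sm.M7b

/-! # C7: assembly -/

set_option autoImplicit false

namespace Pool.H47.Oc

open MeasureTheory

theorem class_main (K : Set (ℝ × ℝ)) (hc : Convex ℝ K) (hk : IsCompact K)
    (hi : (interior K).Nonempty) (hs : ∀ x ∈ K, -x ∈ K)
    (hK : (∃ T : (ℝ × ℝ) ≃ₗ[ℝ] (ℝ × ℝ), InClass K T) ∨
      ∃ R : (ℝ × ℝ) →ₗ[ℝ] (ℝ × ℝ), (∀ x, R (R (R (R x))) = -x) ∧ ∀ x ∈ K, R x ∈ K) :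
    (8 - Real.sqrt 32 - Real.log 2) / (Real.sqrt 8 - 1) ≤
      sSup {d : ℝ | ∃ v w : ℝ × ℝ, v.1 * w.2 - v.2 * w.1 ≠ 0 ∧
        (∀ m n : ℤ, ¬ (m = 0 ∧ n = 0) →
          ∀ x ∈ interior K, x + ((m : ℝ) • v + (n : ℝ) • w) ∉ interior K) ∧
        d = (volume K).toReal / |v.1 * w.2 - v.2 * w.1|} := by
  obtain ⟨T, hT⟩ : ∃ T : (ℝ × ℝ) ≃ₗ[ℝ] (ℝ × ℝ), InClass K T := by
    rcases hK with h | ⟨R, h1, h2⟩
    · exact h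
    · exact class_of_sym K hc hk hi hs R h1 h2
  refine le_of_forall_pos_le_add fun ε hε => ?_
  obtain ⟨v, w, h1, h2, h3⟩ := class_pack K hc hk hi hs T hT ε hε
  have hb : BddAbove {d : ℝ | ∃ v w : ℝ × ℝ, v.1 * w.2 - v.2 * w.1 ≠ 0 ∧
        (∀ m n : ℤ, ¬ (m = 0 ∧ n = 0) →
          ∀ x ∈ interior K, x + ((m : ℝ) • v + (n : ℝ) • w) ∉ interior K) ∧
        d = (volume K).toReal / |v.1 * w.2 - v.2 * w.1|} := by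
    refine ⟨1, ?_⟩
    rintro d ⟨v, w, h4, h5, rfl⟩
    exact Pool.H61.Sm.density_le_one hc hk ⟨h4, h5⟩
  have h6 := le_csSup hb ⟨v, w, h1, h2, rfl⟩
  have h7 : cR - ε ≤ _ := h3.trans h6
  unfold cR at h7
  linarith

end Pool.H47.Oc
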